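import Mathlib
import Pool.Agent.Helper8.Freiman
import Pool.Agent.Helper8.Packing

set_option autoImplicit false

namespace Pool.Agent.Helper90

open Finset Module Pointwise

/-- A `w`-separated set of natural numbers in `[0, M]` has at most `M / w + 1` elements. -/
lemma card_le_of_sep (s : Finset ℕ) (M w : ℝ) (hw : 0 < w) (hM : 0 ≤ M)
    (hs : ∀ n ∈ s, (n : ℝ) ≤ M)
    (hsep : ∀ m ∈ s, ∀ n ∈ s, m ≠ n → w ≤ |(m : ℝ) - n|) :
    (s.card : ℝ) ≤ M / w + 1 := by
  have hmap : ∀ n ∈ s, ⌊(n : ℝ) / w⌋₊ ∈ Finset.range (⌊M / w⌋₊ + 1) := by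
    intro n hn
    rw [Finset.mem_range, Nat.lt_succ_iff]
    exact Nat.floor_le_floor (div_le_div_of_nonneg_right (hs n hn) hw.le)
  have key : ∀ m ∈ s, ∀ n ∈ s, m < n → ⌊(m : ℝ) / w⌋₊ < ⌊(n : ℝ) / w⌋₊ := by
    intro m hm n hn hlt
    have h1 := hsep n hn m hm hlt.ne'
    have hlt' : (m : ℝ) < n := by exact_mod_cast hlt
    rw [abs_of_pos (by linarith)] at h1
    have h2 : (m : ℝ) / w + 1 ≤ (n : ℝ) / w := by
      rw [div_add_one hw.ne', div_le_div_iff_of_pos_right hw]
      linarith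
    have h3 : ⌊(m : ℝ) / w + 1⌋₊ ≤ ⌊(n : ℝ) / w⌋₊ := Nat.floor_le_floor h2
    rw [Nat.floor_add_one (by positivity)] at h3
    omega
  have hinj : Set.InjOn (fun n : ℕ => ⌊(n : ℝ) / w⌋₊) (s : Set ℕ) := by
    intro m hm n hn h
    rcases lt_trichotomy m n with hlt | heq | hgt
    · have := key m hm n hn hlt
      simp only at h
      omega
    · exact heq
    · have := key n hn m hm hgt
      simp only at h
      omega
  have hcard := Finset.card_le_card_of_injOn _ hmap hinj
  rw [Finset.card_range] at hcard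
  calc (s.card : ℝ) ≤ ((⌊M / w⌋₊ + 1 : ℕ) : ℝ) := by exact_mod_cast hcard
    _ = (⌊M / w⌋₊ : ℝ) + 1 := by push_cast; ring
    _ ≤ M / w + 1 := by
      have := Nat.floor_le (show 0 ≤ M / w by positivity)
      linarith

/-- A set of natural numbers of diameter at most `Φ` has at most `Φ + 1` elements. -/
lemma card_le_of_diam (s : Finset ℕ) (Φ : ℝ) (hΦ : 0 ≤ Φ)
    (h : ∀ m ∈ s, ∀ n ∈ s, |(m : ℝ) - n| ≤ Φ) : (s.card : ℝ) ≤ Φ + 1 := by
  rcases s.eq_empty_or_nonempty with rfl | hne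
  · simp; linarith
  set m := s.min' hne with hm
  have hsub : s ⊆ Finset.Icc m (m + ⌊Φ⌋₊) := by
    intro n hn
    rw [Finset.mem_Icc]
    have h1 : m ≤ n := s.min'_le n hn
    refine ⟨h1, ?_⟩
    have h2 := h n hn m (s.min'_mem hne)
    have h1' : (m : ℝ) ≤ n := by exact_mod_cast h1
    rw [abs_of_nonneg (by linarith)] at h2
    have h3 : ((n - m : ℕ) : ℝ) ≤ Φ := by rw [Nat.cast_sub h1]; exact h2
    have h4 : n - m ≤ ⌊Φ⌋₊ := Nat.le_floor h3
    omega
  have hcard := Finset.card_le_card hsub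
  rw [Nat.card_Icc] at hcard
  have h5 : s.card ≤ ⌊Φ⌋₊ + 1 := by omega
  calc (s.card : ℝ) ≤ ((⌊Φ⌋₊ + 1 : ℕ) : ℝ) := by exact_mod_cast h5
    _ = (⌊Φ⌋₊ : ℝ) + 1 := by push_cast; ring
    _ ≤ Φ + 1 := by
      have := Nat.floor_le hΦ
      linarith

/-- Freiman's lemma plus packing. -/
lemma freiman_packing {V : Type*} [NormedAddCommGroup V] [NormedSpace ℝ V]
    [FiniteDimensional ℝ V] [DecidableEq V]
    (Γ : AddSubgroup V) (f : V →ₗ[ℝ] ℝ) (hf : ∀ g ∈ Γ, f g = 0 → g = 0)
    (H : Finset V) (hH : H.Nonempty) (hHΓ : ∀ z ∈ H, z ∈ Γ) (K : ℝ)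
    (hK : ((H + H).card : ℝ) ≤ K * H.card) (v : V) (u : V → V)
    (hu : ∀ z ∈ H, ∀ z' ∈ H, ∃ t : ℝ, u z - u z' = (z - z') + t • v)
    (A ρ : ℝ) (hA : 0 ≤ A) (hρ : 0 < ρ)
    (hnorm : ∀ z ∈ H, ∀ z' ∈ H, ‖u z - u z'‖ ≤ A)
    (hsep : ∀ z ∈ H, ∀ z' ∈ H, z ≠ z' → ρ ≤ ‖u z - u z'‖) :
    Real.log H.card ≤ 2 * K * Real.log (1 + 2 * A / ρ) := by
  have hinjf : Set.InjOn f (H : Set V) := by
    intro a ha b hb hab
    have h1 : a - b ∈ Γ := Γ.sub_mem (hHΓ a ha) (hHΓ b hb)
    have h2 : f (a - b) = 0 := by rw [map_sub, hab, sub_self]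
    exact sub_eq_zero.mp (hf _ h1 h2)
  have hcardpos : (0 : ℝ) < H.card := by exact_mod_cast Finset.card_pos.mpr hH
  have hfr := Helper8.freiman_dim' f H hH hinjf
  set D := finrank ℝ (vectorSpan ℝ (H : Set V)) with hD
  have hD2 : (D : ℝ) + 2 ≤ 2 * K := by
    have h1 : (((D + 2) * H.card : ℕ) : ℝ) ≤ ((2 * (H + H).card : ℕ) : ℝ) := by
      exact_mod_cast hfr
    push_cast at h1
    have h2 : ((D : ℝ) + 2) * H.card ≤ (2 * K) * H.card := by nlinarith
    exact le_of_mul_le_mul_right h2 hcardpos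
  have hinju : Set.InjOn u (H : Set V) := by
    intro a ha b hb hab
    by_contra hne
    have := hsep a ha b hb hne
    rw [hab, sub_self, norm_zero] at this
    linarith
  have hcardim : (H.image u).card = H.card := Finset.card_image_of_injOn hinju
  set W := vectorSpan ℝ (H : Set V) ⊔ Submodule.span ℝ {v} with hW
  have hfin : finrank ℝ W ≤ D + 1 := by
    have h1 : finrank ℝ W ≤ D + finrank ℝ (Submodule.span ℝ ({v} : Set V)) :=
      Submodule.finrank_add_le_finrank_add_finrank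
        (vectorSpan ℝ (H : Set V)) (Submodule.span ℝ {v})
    have h2 : finrank ℝ (Submodule.span ℝ ({v} : Set V)) ≤ 1 := by
      have := finrank_span_le_card (R := ℝ) ({v} : Set V)
      simpa using this
    omega
  have hpack := Helper8.packing_sub W (H.image u) A ρ hρ hA
    (by
      intro c hc d hd
      obtain ⟨z, hz, rfl⟩ := Finset.mem_image.mp hc
      obtain ⟨z', hz', rfl⟩ := Finset.mem_image.mp hd
      obtain ⟨t, ht⟩ := hu z hz z' hz'
      rw [ht, hW]
      apply Submodule.add_mem_sup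
      · exact vsub_mem_vectorSpan ℝ (Finset.mem_coe.mpr hz) (Finset.mem_coe.mpr hz')
      · exact Submodule.smul_mem _ _ (Submodule.mem_span_singleton_self v))
    (by
      intro c hc d hd
      obtain ⟨z, hz, rfl⟩ := Finset.mem_image.mp hc
      obtain ⟨z', hz', rfl⟩ := Finset.mem_image.mp hd
      exact hnorm z hz z' hz')
    (by
      intro c hc d hd hcd
      obtain ⟨z, hz, rfl⟩ := Finset.mem_image.mp hc
      obtain ⟨z', hz', rfl⟩ := Finset.mem_image.mp hd
      exact hsep z hz z' hz' (fun h => hcd (by rw [h])))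
  rw [hcardim] at hpack
  have hbase : (1 : ℝ) ≤ 1 + 2 * A / ρ := by
    have : 0 ≤ 2 * A / ρ := by positivity
    linarith
  have h3 : (H.card : ℝ) ≤ (1 + 2 * A / ρ) ^ (D + 1) :=
    hpack.trans (pow_le_pow_right₀ hbase hfin)
  have h4 := Real.log_le_log hcardpos h3
  rw [Real.log_pow] at h4
  refine h4.trans ?_
  apply mul_le_mul_of_nonneg_right _ (Real.log_nonneg hbase)
  push_cast
  linarith

theorem density_abs {V : Type*} [NormedAddCommGroup V] [NormedSpace ℝ V] [FiniteDimensional ℝ V]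
    (Γ : AddSubgroup V) (f : V →ₗ[ℝ] ℝ) (hf : ∀ g ∈ Γ, f g = 0 → g = 0)
    (J : ℕ) (hJ : 1 ≤ J) (Bad : Finset ℕ) (hBad : ∀ c ∈ Bad, c ≤ J)
    (r v : V) (hr : r ∈ Γ) (hv : v ∈ Γ) (y x : ℕ → V) (hy : ∀ c ∈ Bad, y c ∈ Γ)
    (hx : ∀ c, x c = y c - r - (c : ℝ) • v)
    (W Φ A ρ : ℝ) (hW : 0 < W) (hΦ : 0 ≤ Φ) (hA : 0 ≤ A) (hρ : 0 < ρ)
    (h1 : ∀ c c' : Fin 4 → ℕ, (∀ i, c i ∈ Bad) → (∀ i, c' i ∈ Bad) →
      ∑ i, x (c i) ≠ ∑ i, x (c' i) → W ≤ |(∑ i, (c i : ℝ)) - ∑ i, (c' i : ℝ)|)
    (h2 : ∀ c ∈ Bad, ∀ c' ∈ Bad, x c = x c' → |(c : ℝ) - c'| ≤ Φ)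
    (h3 : ∀ c ∈ Bad, ‖y c‖ ≤ A)
    (h4 : ∀ c1 ∈ Bad, ∀ c2 ∈ Bad, ∀ c1' ∈ Bad, ∀ c2' ∈ Bad, x c1 + x c2 ≠ x c1' + x c2' →
      ρ ≤ ‖(y c1 + y c2) - (y c1' + y c2')‖) :
    (Bad.card : ℝ) ≤ (Φ + 1) * max (Real.sqrt (4 * J / max 1 W + 1))
      (16 * (4 * J / max 1 W + 1) * (Real.log (1 + 8 * A / ρ)) ^ 2 /
        (Real.log (4 * J / max 1 W + 1)) ^ 2) := by
  classical
  set S : ℝ := 4 * J / max 1 W + 1 with hS
  set L := Real.log (1 + 8 * A / ρ) with hL
  have hw : (0 : ℝ) < max 1 W := lt_of_lt_of_le one_pos (le_max_left _ _)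
  have hJ' : (1 : ℝ) ≤ J := by exact_mod_cast hJ
  have hS1 : 1 < S := by
    rw [hS]
    have : 0 < 4 * (J : ℝ) / max 1 W := by positivity
    linarith
  have hlogS : 0 < Real.log S := Real.log_pos hS1
  have hLnn : 0 ≤ L := by
    apply Real.log_nonneg
    have : 0 ≤ 8 * A / ρ := by positivity
    linarith
  rcases Bad.eq_empty_or_nonempty with hemp | hne
  · rw [hemp, Finset.card_empty, Nat.cast_zero]
    apply mul_nonneg (by linarith)
    exact le_max_of_le_left (Real.sqrt_nonneg _)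
  obtain ⟨c0, hc0⟩ := hne
  set H0 := Bad.image x with hH0
  set H1 := H0 + H0 with hH1
  set H2 := H1 + H1 with hH2
  have hH0ne : H0.Nonempty := ⟨x c0, Finset.mem_image_of_mem x hc0⟩
  have hH1ne : H1.Nonempty := hH0ne.add hH0ne
  -- membership in the lattice
  have hxΓ : ∀ c ∈ Bad, x c ∈ Γ := by
    intro c hc
    rw [hx]
    apply Γ.sub_mem (Γ.sub_mem (hy c hc) hr)
    rw [Nat.cast_smul_eq_nsmul]
    exact Γ.nsmul_mem hv c
  have hH0Γ : ∀ z ∈ H0, z ∈ Γ := by
    intro z hz
    obtain ⟨c, hc, rfl⟩ := Finset.mem_image.mp hz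
    exact hxΓ c hc
  have hH1Γ : ∀ z ∈ H1, z ∈ Γ := by
    intro z hz
    obtain ⟨a, ha, b, hb, rfl⟩ := Finset.mem_add.mp hz
    exact Γ.add_mem (hH0Γ a ha) (hH0Γ b hb)
  -- (i)
  have hfib : (Bad.card : ℝ) ≤ (Φ + 1) * H0.card := by
    rw [Finset.card_eq_sum_card_image x Bad, ← hH0]
    push_cast
    calc ∑ b ∈ H0, ((Bad.filter (fun a => x a = b)).card : ℝ) ≤ ∑ b ∈ H0, (Φ + 1) := by
          apply Finset.sum_le_sum
          intro b _
          apply card_le_of_diam _ _ hΦ
          intro m hm n hn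
          rw [Finset.mem_filter] at hm hn
          exact h2 m hm.1 n hn.1 (by rw [hm.2, hn.2])
      _ = (Φ + 1) * H0.card := by rw [Finset.sum_const, nsmul_eq_mul, mul_comm]
  -- (ii)
  have hH2S : (H2.card : ℝ) ≤ S := by
    have hrep : ∀ z : V, ∃ c : Fin 4 → ℕ, z ∈ H2 → (∀ i, c i ∈ Bad) ∧ ∑ i, x (c i) = z := by
      intro z
      by_cases hz : z ∈ H2
      · obtain ⟨a, ha, b, hb, hab⟩ := Finset.mem_add.mp hz
        obtain ⟨a1, ha1, a2, ha2, rfl⟩ := Finset.mem_add.mp ha
        obtain ⟨b1, hb1, b2, hb2, rfl⟩ := Finset.mem_add.mp hb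
        obtain ⟨c1, hc1, rfl⟩ := Finset.mem_image.mp ha1
        obtain ⟨c2, hc2, rfl⟩ := Finset.mem_image.mp ha2
        obtain ⟨c3, hc3, rfl⟩ := Finset.mem_image.mp hb1
        obtain ⟨c4, hc4, rfl⟩ := Finset.mem_image.mp hb2
        refine ⟨![c1, c2, c3, c4], fun _ => ⟨?_, ?_⟩⟩
        · intro i; fin_cases i <;> simp [hc1, hc2, hc3, hc4]
        · rw [Fin.sum_univ_four, ← hab]
          simp [add_assoc]
      · exact ⟨fun _ => 0, fun h => absurd h hz⟩
    choose c hc using hrep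
    set pos : V → ℕ := fun z => ∑ i, c z i with hpos
    have hsepz : ∀ z ∈ H2, ∀ z' ∈ H2, z ≠ z' → W ≤ |(pos z : ℝ) - pos z'| := by
      intro z hz z' hz' hzz
      have := h1 (c z) (c z') (hc z hz).1 (hc z' hz').1 (by
        rw [(hc z hz).2, (hc z' hz').2]; exact hzz)
      simpa [hpos] using this
    have hinj : Set.InjOn pos (H2 : Set V) := by
      intro z hz z' hz' h
      by_contra hne
      have := hsepz z hz z' hz' hne
      rw [h, sub_self, abs_zero] at this
      linarith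
    rw [← Finset.card_image_of_injOn hinj]
    have := card_le_of_sep (H2.image pos) (4 * J) (max 1 W) hw (by positivity)
      (by
        intro n hn
        obtain ⟨z, hz, rfl⟩ := Finset.mem_image.mp hn
        have hle : pos z ≤ 4 * J := by
          have hb : ∀ i, c z i ≤ J := fun i => hBad _ ((hc z hz).1 i)
          simp only [hpos, Fin.sum_univ_four]
          have := hb 0
          have := hb 1
          have := hb 2
          have := hb 3
          omega
        exact_mod_cast hle)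
      (by
        intro m hm n hn hmn
        obtain ⟨z, hz, rfl⟩ := Finset.mem_image.mp hm
        obtain ⟨z', hz', rfl⟩ := Finset.mem_image.mp hn
        apply max_le
        · have h5 : ((pos z : ℤ) - pos z') ≠ 0 := by
            rw [sub_ne_zero]; exact_mod_cast hmn
          have h6 := Int.one_le_abs h5
          exact_mod_cast h6
        · exact hsepz z hz z' hz' (fun h => hmn (by rw [h])))
    exact this
  -- (iii)
  set a : ℝ := (H0.card : ℝ) with ha
  have hapos : 0 < a := by rw [ha]; exact_mod_cast Finset.card_pos.mpr hH0ne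
  have hH1pos : (0 : ℝ) < (H1.card : ℝ) := by exact_mod_cast Finset.card_pos.mpr hH1ne
  have haH1 : a ≤ (H1.card : ℝ) := by
    rw [ha]
    exact_mod_cast Finset.card_le_card_add_right hH0ne
  set K := Real.sqrt (S / a) with hK
  have hSa : 0 ≤ S / a := by positivity
  have hKK : K * K = S / a := Real.mul_self_sqrt hSa
  have hKnn : 0 ≤ K := Real.sqrt_nonneg _
  -- the logarithmic bound
  have hloga : Real.log a ≤ 2 * K * L := by
    by_cases hcase : (H1.card : ℝ) ≤ K * a
    · -- use `H0`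
      have hrep : ∀ z : V, ∃ c : ℕ, z ∈ H0 → c ∈ Bad ∧ x c = z := by
        intro z
        by_cases hz : z ∈ H0
        · obtain ⟨c, hc, hcz⟩ := Finset.mem_image.mp hz
          exact ⟨c, fun _ => ⟨hc, hcz⟩⟩
        · exact ⟨0, fun h => absurd h hz⟩
      choose c hc using hrep
      have := freiman_packing Γ f hf H0 hH0ne hH0Γ K hcase v (fun z => y (c z))
        (by
          intro z hz z' hz'
          refine ⟨(c z : ℝ) - c z', ?_⟩
          have e1 := (hc z hz).2
          have e2 := (hc z' hz').2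
          have e3 : z - z' = (y (c z) - r - (c z : ℝ) • v) - (y (c z') - r - (c z' : ℝ) • v) := by
            rw [← hx, ← hx, e1, e2]
          rw [e3, sub_smul]
          abel)
        (4 * A) ρ (by positivity) hρ
        (by
          intro z hz z' hz'
          have n1 := h3 _ (hc z hz).1
          have n2 := h3 _ (hc z' hz').1
          have := norm_sub_le (y (c z)) (y (c z'))
          linarith)
        (by
          intro z hz z' hz' hzz
          have := h4 _ (hc z hz).1 c0 hc0 _ (hc z' hz').1 c0 hc0 (by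
            rw [(hc z hz).2, (hc z' hz').2]
            intro h
            exact hzz (add_right_cancel h))
          simpa using this)
      rw [hL, show (8 : ℝ) * A = 2 * (4 * A) by ring]
      exact this
    · -- use `H1`
      push Not at hcase
      have hK1 : (H2.card : ℝ) ≤ K * H1.card := by
        have h5 : K * (K * a) ≤ K * H1.card := mul_le_mul_of_nonneg_left hcase.le hKnn
        have h6 : K * (K * a) = S := by
          rw [← mul_assoc, hKK, div_mul_cancel₀ _ hapos.ne']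
        linarith
      have hrep : ∀ z : V, ∃ c d : ℕ, z ∈ H1 → c ∈ Bad ∧ d ∈ Bad ∧ x c + x d = z := by
        intro z
        by_cases hz : z ∈ H1
        · obtain ⟨p, hp, q, hq, hpq⟩ := Finset.mem_add.mp hz
          obtain ⟨c, hc, rfl⟩ := Finset.mem_image.mp hp
          obtain ⟨d, hd, rfl⟩ := Finset.mem_image.mp hq
          exact ⟨c, d, fun _ => ⟨hc, hd, hpq⟩⟩
        · exact ⟨0, 0, fun h => absurd h hz⟩
      choose c d hcd using hrep
      have := freiman_packing Γ f hf H1 hH1ne hH1Γ K hK1 v (fun z => y (c z) + y (d z))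
        (by
          intro z hz z' hz'
          refine ⟨((c z : ℝ) + d z) - (c z' + d z'), ?_⟩
          have e1 := (hcd z hz).2.2
          have e2 := (hcd z' hz').2.2
          have e3 : z - z' = ((y (c z) - r - (c z : ℝ) • v) + (y (d z) - r - (d z : ℝ) • v)) -
              ((y (c z') - r - (c z' : ℝ) • v) + (y (d z') - r - (d z' : ℝ) • v)) := by
            rw [← hx, ← hx, ← hx, ← hx, e1, e2]
          rw [e3, sub_smul, add_smul, add_smul]
          abel)
        (4 * A) ρ (by positivity) hρ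
        (by
          intro z hz z' hz'
          have n1 := h3 _ (hcd z hz).1
          have n2 := h3 _ (hcd z hz).2.1
          have n3 := h3 _ (hcd z' hz').1
          have n4 := h3 _ (hcd z' hz').2.1
          have m1 := norm_sub_le (y (c z) + y (d z)) (y (c z') + y (d z'))
          have m2 := norm_add_le (y (c z)) (y (d z))
          have m3 := norm_add_le (y (c z')) (y (d z'))
          linarith)
        (by
          intro z hz z' hz' hzz
          exact h4 _ (hcd z hz).1 _ (hcd z hz).2.1 _ (hcd z' hz').1 _ (hcd z' hz').2.1 (by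
            rw [(hcd z hz).2.2, (hcd z' hz').2.2]
            exact hzz))
      rw [hL, show (8 : ℝ) * A = 2 * (4 * A) by ring]
      exact (Real.log_le_log hapos haH1).trans this
  -- (vi)
  have hmain : a ≤ max (Real.sqrt S) (16 * S * L ^ 2 / (Real.log S) ^ 2) := by
    by_cases hle : a ≤ Real.sqrt S
    · exact le_max_of_le_left hle
    · push Not at hle
      apply le_max_of_le_right
      have hsqrtpos : 0 < Real.sqrt S := Real.sqrt_pos.mpr (by linarith)
      have h5 : Real.log S / 2 ≤ Real.log a := by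
        rw [← Real.log_sqrt (by linarith)]
        exact Real.log_le_log hsqrtpos hle.le
      have h6 : Real.log S / 2 ≤ 2 * K * L := h5.trans hloga
      have h7 : (Real.log S / 2) ^ 2 ≤ (2 * K * L) ^ 2 :=
        pow_le_pow_left₀ (by positivity) h6 2
      have h8 : (2 * K * L) ^ 2 = 4 * (S / a) * L ^ 2 := by
        rw [← hKK]; ring
      rw [h8] at h7
      rw [le_div_iff₀ (by positivity)]
      have h9 : a * (Real.log S / 2) ^ 2 ≤ a * (4 * (S / a) * L ^ 2) :=
        mul_le_mul_of_nonneg_left h7 hapos.le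
      have h10 : a * (4 * (S / a) * L ^ 2) = 4 * S * L ^ 2 := by
        field_simp
      rw [h10] at h9
      nlinarith
  calc (Bad.card : ℝ) ≤ (Φ + 1) * a := hfib
    _ ≤ _ := mul_le_mul_of_nonneg_left hmain (by linarith)

end Pool.Agent.Helper90
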