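import Mathlib

set_option autoImplicit false

namespace Pool.Agent.Helper90

lemma log2_gt_half : (1 / 2 : ℝ) < Real.log 2 := by
  have := Real.log_two_gt_d9
  linarith

lemma log_add_two_ge {x : ℝ} (hx : 0 ≤ x) : Real.log 2 ≤ Real.log (x + 2) :=
  Real.log_le_log (by norm_num) (by linarith)

/-- (i) with the monotone form of the conclusion. -/
theorem analytic_i (C C1 : ℝ) (hC : 1 ≤ C) (hC1 : 1 ≤ C1) :
    ∃ C' : ℝ, 2 ≤ C' ∧ C ≤ C' ∧ ∀ θ x : ℝ, 1 ≤ θ → 0 ≤ x →
      θ ≤ (C * Real.log (C1 * (x + 2) * θ)) ^ C → θ ≤ (C' * Real.log (x + 2)) ^ C' := by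
  set K := Real.log C1 * 2 + 1 with hK
  have hlC1 : 0 ≤ Real.log C1 := Real.log_nonneg hC1
  have hK1 : 1 ≤ K := by rw [hK]; linarith
  set K2 := 2 * C * K + 32 * C ^ 4 with hK2
  have hC4 : 1 ≤ C ^ 4 := one_le_pow₀ hC
  have hK2pos : 0 < K2 := by positivity
  refine ⟨K2 + C, ?_, ?_, ?_⟩
  · have : 0 ≤ 2 * C * K := by positivity
    rw [hK2]; nlinarith
  · linarith
  intro θ x hθ hx h
  set L := Real.log (x + 2) with hL
  have hL2 : 1 / 2 < L := lt_of_lt_of_le log2_gt_half (log_add_two_ge hx)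
  have hLpos : 0 < L := by linarith
  have hθpos : 0 < θ := by linarith
  have hCpos : 0 < C := by linarith
  -- the logarithm
  have hlog : Real.log (C1 * (x + 2) * θ) = Real.log C1 + L + Real.log θ := by
    rw [Real.log_mul (by positivity) (by positivity), Real.log_mul (by positivity) (by positivity)]
  set u := θ ^ (1 / (2 * C)) with hu
  have hu1 : 1 ≤ u := Real.one_le_rpow hθ (by positivity)
  have hupos : 0 < u := by linarith
  have hlθ : Real.log θ ≤ 2 * C * u := by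
    have := Real.log_le_rpow_div hθpos.le (show 0 < 1 / (2 * C) by positivity)
    rw [← hu] at this
    calc Real.log θ ≤ u / (1 / (2 * C)) := this
      _ = 2 * C * u := by field_simp
  have hKL : Real.log C1 + L ≤ K * L := by
    rw [hK]; nlinarith
  have h1 : C * Real.log (C1 * (x + 2) * θ) ≤ C * (K * L + 2 * C * u) := by
    apply mul_le_mul_of_nonneg_left _ hCpos.le
    rw [hlog]; linarith
  have hnn : 0 ≤ C * Real.log (C1 * (x + 2) * θ) := by
    apply mul_nonneg hCpos.le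
    rw [hlog]
    have := Real.log_nonneg hθ
    linarith
  have h2 : θ ≤ (C * (K * L + 2 * C * u)) ^ C :=
    h.trans (Real.rpow_le_rpow hnn h1 hCpos.le)
  have hu2 : u ^ 2 = θ ^ (1 / C) := by
    rw [hu, ← Real.rpow_natCast, ← Real.rpow_mul hθpos.le]
    congr 1
    push_cast
    field_simp
  have h3 : u ^ 2 ≤ C * (K * L + 2 * C * u) := by
    rw [hu2]
    have hb : 0 ≤ C * (K * L + 2 * C * u) := by positivity
    have := Real.rpow_le_rpow hθpos.le h2 (show 0 ≤ 1 / C by positivity)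
    rwa [← Real.rpow_mul hb, mul_one_div, div_self hCpos.ne', Real.rpow_one] at this
  have h4 : u ^ 2 ≤ K2 * L := by
    by_cases hcase : 4 * C ^ 2 ≤ u
    · have h5 : 2 * C ^ 2 * u ≤ u ^ 2 / 2 := by nlinarith
      have h6 : u ^ 2 ≤ 2 * C * K * L := by nlinarith
      have h7 : 0 ≤ 32 * C ^ 4 * L := by positivity
      rw [hK2]; nlinarith
    · push Not at hcase
      have h5 : u ^ 2 ≤ (4 * C ^ 2) ^ 2 := pow_le_pow_left₀ hupos.le hcase.le 2
      have h6 : (4 * C ^ 2) ^ 2 = 16 * C ^ 4 := by ring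
      have h7 : 16 * C ^ 4 ≤ 32 * C ^ 4 * L := by nlinarith
      have h8 : 0 ≤ 2 * C * K * L := by positivity
      rw [hK2]; nlinarith
  have h5 : θ ≤ (K2 * L) ^ C := by
    have e : (u ^ 2) ^ C = θ := by
      rw [hu2, ← Real.rpow_mul hθpos.le, one_div, inv_mul_cancel₀ hCpos.ne', Real.rpow_one]
    rw [← e]
    exact Real.rpow_le_rpow (by positivity) h4 hCpos.le
  have h6 : (K2 * L) ^ C ≤ ((K2 + C) * L) ^ C :=
    Real.rpow_le_rpow (by positivity) (by nlinarith) hCpos.le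
  have hbase : 1 ≤ (K2 + C) * L := by
    have : 2 ≤ K2 + C := by
      have : 0 ≤ 2 * C * K := by positivity
      rw [hK2]; nlinarith
    nlinarith
  have h7 : ((K2 + C) * L) ^ C ≤ ((K2 + C) * L) ^ (K2 + C) :=
    Real.rpow_le_rpow_of_exponent_le hbase (by linarith)
  exact h5.trans (h6.trans h7)

/-- (ii) -/
theorem analytic_ii (C : ℝ) (hC : 1 ≤ C) :
    ∃ C' : ℝ, 2 ≤ C' ∧ C ≤ C' ∧ ∀ b M : ℝ, 1 ≤ b → 0 ≤ M →
      b ≤ (C * Real.log (40 * b + 8 * M + 2)) ^ C → 2 * b ≤ (C' * Real.log (M / b + 2)) ^ C' := by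
  obtain ⟨C', h2, hCC, h⟩ := analytic_i C 42 hC (by norm_num)
  refine ⟨2 * C', by linarith, by linarith, ?_⟩
  intro b M hb hM hbM
  have hbpos : 0 < b := by linarith
  have hCpos : 0 < C := by linarith
  have hxnn : 0 ≤ M / b := by positivity
  have e : 40 * b + 8 * M + 2 ≤ 42 * (M / b + 2) * b := by
    have : M / b * b = M := by field_simp
    nlinarith
  have h1 : b ≤ (C * Real.log (42 * (M / b + 2) * b)) ^ C := by
    refine hbM.trans (Real.rpow_le_rpow ?_ ?_ hCpos.le)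
    · apply mul_nonneg hCpos.le
      apply Real.log_nonneg
      nlinarith
    · apply mul_le_mul_of_nonneg_left _ hCpos.le
      exact Real.log_le_log (by positivity) e
  have h3 := h b (M / b) hb hxnn h1
  set L := Real.log (M / b + 2) with hL
  have hL2 : 1 / 2 < L := lt_of_lt_of_le log2_gt_half (log_add_two_ge hxnn)
  have hbase : 1 ≤ C' * L := by nlinarith
  have hC'pos : 0 < C' := by linarith
  have h4 : (C' * L) ^ C' ≤ (C' * L) ^ (2 * C') :=
    Real.rpow_le_rpow_of_exponent_le hbase (by linarith)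
  have h5 : (2 : ℝ) ≤ 2 ^ (2 * C') := by
    calc (2 : ℝ) = 2 ^ (1 : ℝ) := (Real.rpow_one 2).symm
      _ ≤ 2 ^ (2 * C') := Real.rpow_le_rpow_of_exponent_le (by norm_num) (by linarith)
  have h6 : (2 * C' * L) ^ (2 * C') = 2 ^ (2 * C') * (C' * L) ^ (2 * C') := by
    rw [mul_assoc 2 C' L, Real.mul_rpow (by norm_num) (by linarith)]
  rw [h6]
  calc 2 * b ≤ 2 ^ (2 * C') * b := mul_le_mul_of_nonneg_right h5 hbpos.le
    _ ≤ 2 ^ (2 * C') * (C' * L) ^ (2 * C') :=
        mul_le_mul_of_nonneg_left (h3.trans h4) (by positivity)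

/-- (iii) -/
theorem analytic_iii (C' : ℝ) (hC' : 1 ≤ C') :
    ∃ C'' : ℝ, 1 ≤ C'' ∧ ∀ x : ℝ, 0 ≤ x →
      (Real.log (1 + 48 * (C' * Real.log (x + 2)) ^ C')) ^ 2 ≤
        C'' * Real.sqrt (Real.log (x + 2)) := by
  have hCpos : 0 < C' := by linarith
  refine ⟨784 * C' ^ 2 * Real.sqrt (2 * C'), ?_, ?_⟩
  · have h1 : 1 ≤ C' ^ 2 := one_le_pow₀ hC'
    have h2 : 1 ≤ Real.sqrt (2 * C') := by
      rw [Real.one_le_sqrt]; linarith
    nlinarith
  intro x hx
  set L := Real.log (x + 2) with hL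
  have hL2 : 1 / 2 < L := lt_of_lt_of_le log2_gt_half (log_add_two_ge hx)
  have hLpos : 0 < L := by linarith
  have hb : 0 ≤ 2 * C' * L := by positivity
  have h1 : (1 : ℝ) ≤ (2 * C' * L) ^ C' := by
    apply Real.one_le_rpow _ hCpos.le
    nlinarith
  have h2 : (C' * L) ^ C' ≤ (2 * C' * L) ^ C' :=
    Real.rpow_le_rpow (by positivity) (by nlinarith) hCpos.le
  have hz : 0 ≤ (C' * L) ^ C' := Real.rpow_nonneg (by positivity) _
  have h3 : 1 + 48 * (C' * L) ^ C' ≤ 49 * (2 * C' * L) ^ C' := by linarith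
  have h4 : Real.log (1 + 48 * (C' * L) ^ C') ≤ Real.log (49 * (2 * C' * L) ^ C') :=
    Real.log_le_log (by linarith) h3
  set s := 1 / (4 * C') with hs
  have hspos : 0 < s := by positivity
  have hs1 : s ≤ 1 / 4 := by
    rw [hs]; apply one_div_le_one_div_of_le <;> linarith
  have h5 : Real.log (49 * (2 * C' * L) ^ C') ≤ (49 * (2 * C' * L) ^ C') ^ s / s :=
    Real.log_le_rpow_div (by positivity) hspos
  have h6 : (49 * (2 * C' * L) ^ C') ^ s = 49 ^ s * (2 * C' * L) ^ (1 / 4 : ℝ) := by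
    rw [Real.mul_rpow (by norm_num) (Real.rpow_nonneg hb _), ← Real.rpow_mul hb]
    congr 2
    rw [hs]; field_simp
  have h7 : (49 : ℝ) ^ s ≤ 7 := by
    calc (49 : ℝ) ^ s ≤ 49 ^ (1 / 2 : ℝ) :=
          Real.rpow_le_rpow_of_exponent_le (by norm_num) (by linarith)
      _ = 7 := by
        rw [show (49 : ℝ) = 7 ^ (2 : ℝ) by norm_num, ← Real.rpow_mul (by norm_num)]
        norm_num
  have hq : 0 ≤ (2 * C' * L) ^ (1 / 4 : ℝ) := Real.rpow_nonneg hb _
  have h8 : Real.log (1 + 48 * (C' * L) ^ C') ≤ 28 * C' * (2 * C' * L) ^ (1 / 4 : ℝ) := by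
    refine h4.trans (h5.trans ?_)
    rw [h6, hs, div_div_eq_mul_div, div_one]
    calc 49 ^ (1 / (4 * C')) * (2 * C' * L) ^ (1 / 4 : ℝ) * (4 * C')
        ≤ 7 * (2 * C' * L) ^ (1 / 4 : ℝ) * (4 * C') := by
          apply mul_le_mul_of_nonneg_right _ (by positivity)
          exact mul_le_mul_of_nonneg_right h7 hq
      _ = 28 * C' * (2 * C' * L) ^ (1 / 4 : ℝ) := by ring
  have hlognn : 0 ≤ Real.log (1 + 48 * (C' * L) ^ C') := Real.log_nonneg (by linarith)
  have h9 : (Real.log (1 + 48 * (C' * L) ^ C')) ^ 2 ≤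
      (28 * C' * (2 * C' * L) ^ (1 / 4 : ℝ)) ^ 2 := pow_le_pow_left₀ hlognn h8 2
  refine h9.trans (le_of_eq ?_)
  have h10 : ((2 * C' * L) ^ (1 / 4 : ℝ)) ^ 2 = Real.sqrt (2 * C' * L) := by
    rw [← Real.rpow_natCast, ← Real.rpow_mul hb, Real.sqrt_eq_rpow]
    norm_num
  rw [mul_pow, h10, Real.sqrt_mul (by positivity)]
  ring

end Pool.Agent.Helper90
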