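import Pool.Agent.Helper90.IASStruct

/-!
Finite characteristic subgroups of the group, faithfulness, residual finiteness.
-/

namespace Pool.Agent.Helper90.IAS

set_option linter.unusedSectionVars false

variable {S : Type} [Group S]

/-- A lamp as an element of the group. -/
noncomputable def lampG (x : Lam) (s : S) : GG S := ⟨lamp x s, lamp_mem x s⟩

/-- The translation as an element of the group. -/
def TG : GG S := ⟨T, T_mem⟩

/-- The diagonal lamp as an element of the group. -/
noncomputable def rhoG (s : S) : GG S := ⟨rho s, rho_mem s⟩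

lemma conj_lampG (g : GG S) (x : Lam) (s : S) :
    g * lampG x s * g⁻¹ =
      lampG (sh g.1.k x) (g.1.f (sh g.1.k x) * s * (g.1.f (sh g.1.k x))⁻¹) := by
  apply Subtype.ext
  exact conj_lamp g.1 x s

lemma lampG_inj {x : Lam} {s s' : S} (h : lampG x s = lampG x s') : s = s' :=
  lamp_inj (congrArg Subtype.val h)

/-- The configurations supported on the cycles with index `≤ i`. -/
def UU (S : Type) [Group S] (i : ℕ) : Subgroup (GG S) where
  carrier := {g | g.1.k = 0 ∧ ∀ x : Lam, i < x.1 → g.1.f x = 1}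
  mul_mem' := by
    rintro a b ⟨ha, ha'⟩ ⟨hb, hb'⟩
    refine ⟨by simp [ha, hb], ?_⟩
    intro x hx
    simp [ha' x hx, hb' (sh (-a.1.k) x) hx]
  one_mem' := ⟨rfl, fun _ _ => rfl⟩
  inv_mem' := by
    rintro a ⟨ha, ha'⟩
    refine ⟨by simp [ha], ?_⟩
    intro x hx
    simp [ha' (sh a.1.k x) hx]

lemma mem_UU {i : ℕ} {g : GG S} : g ∈ UU S i ↔ g.1.k = 0 ∧ ∀ x : Lam, i < x.1 → g.1.f x = 1 :=
  Iff.rfl

instance UU_normal (i : ℕ) : (UU S i).Normal := by
  constructor
  rintro u ⟨hu, hu'⟩ g
  refine ⟨by simp [hu], ?_⟩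
  intro x hx
  have e : (g * u * g⁻¹ : GG S).1 = g.1 * inl u.1.f * (g.1)⁻¹ := by
    rw [← eq_inl hu]; rfl
  rw [e, conj_inl]
  simp [hu' (sh (-g.1.k) x) hx]

lemma lampG_mem_UU {i : ℕ} {x : Lam} (hx : x.1 ≤ i) (s : S) : lampG x s ∈ UU S i := by
  refine ⟨rfl, ?_⟩
  intro y hy
  apply lamp_f_ne
  rintro rfl
  omega

/-- restriction of an element of `UU` to the small cycles -/
def resU (i : ℕ) (u : UU S i) : (Σ j : Fin (i + 1), ZMod (2 ^ (j : ℕ))) → S :=
  fun z => u.1.1.f ⟨z.1, z.2⟩

lemma resU_injective (i : ℕ) : Function.Injective (resU (S := S) i) := by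
  rintro ⟨u, hu, hu'⟩ ⟨v, hv, hv'⟩ h
  apply Subtype.ext
  apply Subtype.ext
  ext x
  · obtain ⟨j, y⟩ := x
    by_cases hj : j < i + 1
    · exact congrFun h ⟨⟨j, hj⟩, y⟩
    · show u.1.f ⟨j, y⟩ = v.1.f ⟨j, y⟩
      rw [hu' ⟨j, y⟩ (by simp; omega), hv' ⟨j, y⟩ (by simp; omega)]
  · show u.1.k = v.1.k
    rw [hu, hv]

instance UU_finite [Finite S] (i : ℕ) : Finite (UU S i) :=
  Finite.of_injective _ (resU_injective i)

lemma card_UU_lt [Finite S] [Nontrivial S] (i : ℕ) :
    Nat.card (UU S i) < Nat.card S ^ (2 ^ (i + 1)) := by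
  have h1 : Nat.card (UU S i) ≤
      Nat.card ((Σ j : Fin (i + 1), ZMod (2 ^ (j : ℕ))) → S) :=
    Nat.card_le_card_of_injective _ (resU_injective i)
  refine lt_of_le_of_lt h1 ?_
  have h2 : Nat.card (Σ j : Fin (i + 1), ZMod (2 ^ (j : ℕ))) = ∑ j : Fin (i + 1), 2 ^ (j : ℕ) := by
    rw [Nat.card_sigma]
    simp
  rw [Nat.card_fun, h2]
  apply Nat.pow_lt_pow_right Finite.one_lt_card
  rw [Fin.sum_univ_eq_sum_range (fun j => 2 ^ j) (i + 1)]
  exact Nat.geomSum_lt le_rfl (fun k hk => Finset.mem_range.mp hk)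

lemma pow_k (g : Gam S) (n : ℕ) : (g ^ n).k = n * g.k := by
  induction n with
  | zero => simp
  | succ n ih => rw [pow_succ]; simp [ih]; ring

open Classical in
/-- extension of a function on the `j`-th cycle by `1` -/
noncomputable def extF (j : ℕ) (v : ZMod (2 ^ j) → S) : Lam → S :=
  fun z => if h : z.1 = j then v (h ▸ z.2) else 1

lemma extF_self (j : ℕ) (v : ZMod (2 ^ j) → S) (y : ZMod (2 ^ j)) : extF j v ⟨j, y⟩ = v y := by
  simp [extF]

lemma extF_ne (j : ℕ) (v : ZMod (2 ^ j) → S) {x : Lam} (h : x.1 ≠ j) : extF j v x = 1 := by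
  simp [extF, h]

/-- A finite normal subgroup of small order is contained in `UU`. -/
lemma small_normal [IsSimpleGroup S] [Finite S] (hS : ∃ a b : S, a * b ≠ b * a)
    (M : Subgroup (GG S)) [M.Normal] [Finite M] (i : ℕ)
    (hcard : Nat.card M < Nat.card S ^ (2 ^ (i + 1))) : M ≤ UU S i := by
  have hSnt : Nontrivial S := inferInstance
  intro m hm
  have hk : m.1.k = 0 := by
    have h1 : (⟨m, hm⟩ : M) ^ (Nat.card M) = 1 := pow_card_eq_one'
    have h1' : m ^ (Nat.card M) = 1 := congrArg Subtype.val h1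
    have h2 : (m.1 ^ (Nat.card M) : Gam S) = 1 := congrArg Subtype.val h1'
    have h3 := congrArg Gam.k h2
    rw [pow_k] at h3
    simp only [Gam.one_k] at h3
    rcases mul_eq_zero.mp h3 with h | h
    · exact absurd (by exact_mod_cast h) (Nat.card_pos (α := M)).ne'
    · exact h
  refine ⟨hk, ?_⟩
  intro x hx
  by_contra hne
  -- all values of the lamp at `x` are in `M`
  let Q : Subgroup S :=
    { carrier := {s | lampG x s ∈ M}
      mul_mem' := by
        intro a b ha hb
        show lampG x (a * b) ∈ M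
        have : lampG x (a * b) = lampG x a * lampG x b := by
          apply Subtype.ext; exact (lamp_mul x a b).symm
        rw [this]; exact M.mul_mem ha hb
      one_mem' := by
        show lampG x (1 : S) ∈ M
        have : lampG x (1 : S) = 1 := by
          apply Subtype.ext; exact lamp_one x
        rw [this]; exact M.one_mem
      inv_mem' := by
        intro a ha
        show lampG x a⁻¹ ∈ M
        have : lampG x a⁻¹ = (lampG x a)⁻¹ := by
          apply Subtype.ext; exact (lamp_inv x a).symm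
        rw [this]; exact M.inv_mem ha }
  have hQn : Q.Normal := by
    constructor
    intro a ha b
    show lampG x (b * a * b⁻¹) ∈ M
    have h1 := conj_lampG (lampG x b) x a
    have h2 : (lampG x b : GG S).1.k = 0 := rfl
    rw [h2, sh_zero] at h1
    have h3 : (lampG x b : GG S).1.f x = b := lamp_f_self x b
    rw [h3] at h1
    rw [← h1]
    exact ‹M.Normal›.conj_mem _ ha _
  have hQtop : Q = ⊤ := by
    refine (IsSimpleGroup.eq_bot_or_eq_top_of_normal Q hQn).resolve_left ?_
    intro hbot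
    apply hne
    apply center_trivial hS
    intro s
    have h1 : m * lampG x s * m⁻¹ * (lampG x s)⁻¹ ∈ M := by
      have : m * lampG x s * m⁻¹ * (lampG x s)⁻¹ = m * (lampG x s * m⁻¹ * (lampG x s)⁻¹) := by
        group
      rw [this]
      exact M.mul_mem hm (‹M.Normal›.conj_mem _ (M.inv_mem hm) _)
    rw [conj_lampG, hk, sh_zero] at h1
    have h2 : lampG x (m.1.f x * s * (m.1.f x)⁻¹) * (lampG x s)⁻¹ =
        lampG x (m.1.f x * s * (m.1.f x)⁻¹ * s⁻¹) := by
      apply Subtype.ext
      show lamp x _ * (lamp x s)⁻¹ = lamp x _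
      rw [lamp_inv, lamp_mul]
    rw [h2] at h1
    have h3 : m.1.f x * s * (m.1.f x)⁻¹ * s⁻¹ ∈ Q := h1
    rw [hbot, Subgroup.mem_bot, mul_inv_eq_one, mul_inv_eq_iff_eq_mul] at h3
    exact h3
  have hall : ∀ s, lampG x s ∈ M := by
    intro s
    have : s ∈ Q := by rw [hQtop]; trivial
    exact this
  obtain ⟨j, y⟩ := x
  have hall2 : ∀ (z : ZMod (2 ^ j)) (s : S), lampG ⟨j, z⟩ s ∈ M := by
    intro z s
    obtain ⟨n, hn⟩ := ZMod.intCast_surjective (z - y)
    have h1 := conj_lampG ((TG : GG S) ^ n) ⟨j, y⟩ s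
    have h2 : ((TG : GG S) ^ n).1 = ⟨fun _ => 1, n⟩ := by
      rw [← T_zpow]; rfl
    rw [h2] at h1
    simp only [one_mul, inv_one, mul_one, sh_mk, hn, add_sub_cancel] at h1
    rw [← h1]
    exact ‹M.Normal›.conj_mem _ (hall s) _
  have hmem : ∀ v : ZMod (2 ^ j) → S, inl (extF j v) ∈ M.map (GG S).subtype := by
    intro v
    apply inl_mem_of_lamps (M.map (GG S).subtype) ((Finset.univ : Finset (ZMod (2 ^ j))).image
      (fun z => (⟨j, z⟩ : Lam)))
    · intro x hx s
      obtain ⟨z, _, rfl⟩ := Finset.mem_image.mp hx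
      exact ⟨lampG ⟨j, z⟩ s, hall2 z s, rfl⟩
    · intro x hx
      obtain ⟨j', z⟩ := x
      apply extF_ne
      rintro h
      simp only at h
      subst h
      apply hx
      exact Finset.mem_image_of_mem _ (Finset.mem_univ z)
  have hinj : Nat.card (ZMod (2 ^ j) → S) ≤ Nat.card (M.map (GG S).subtype) := by
    have : Finite (M.map (GG S).subtype) := by
      have : Finite M := inferInstance
      exact Finite.of_equiv M (M.equivMapOfInjective _ (GG S).subtype_injective).toEquiv
    refine Nat.card_le_card_of_injective (fun v => ⟨inl (extF j v), hmem v⟩) ?_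
    intro v v' h
    funext z
    have := congrArg (fun w : M.map (GG S).subtype => w.1.f ⟨j, z⟩) h
    simpa [extF_self] using this
  rw [Nat.card_fun, Nat.card_zmod,
    ← Nat.card_congr (M.equivMapOfInjective _ (GG S).subtype_injective).toEquiv] at hinj
  have h5 : Nat.card S ^ 2 ^ j < Nat.card S ^ 2 ^ (i + 1) := lt_of_le_of_lt hinj hcard
  have h6 : 2 ^ j < 2 ^ (i + 1) := (Nat.pow_lt_pow_iff_right Finite.one_lt_card).mp h5
  have h7 : j < i + 1 := (Nat.pow_lt_pow_iff_right (by norm_num)).mp h6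
  simp only at hx
  omega

instance UU_char [IsSimpleGroup S] [Finite S] [hS : Fact (∃ a b : S, a * b ≠ b * a)] (i : ℕ) :
    (UU S i).Characteristic := by
  rw [Subgroup.characteristic_iff_map_le]
  intro ψ
  have : ((UU S i).map ψ.toMonoidHom).Normal :=
    Subgroup.Normal.map inferInstance _ ψ.surjective
  have hfin : Finite ((UU S i).map ψ.toMonoidHom) :=
    Finite.of_equiv _ ((UU S i).equivMapOfInjective ψ.toMonoidHom ψ.injective).toEquiv
  apply small_normal hS.out _ i
  rw [← Nat.card_congr ((UU S i).equivMapOfInjective ψ.toMonoidHom ψ.injective).toEquiv]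
  exact card_UU_lt i

/-- Faithfulness of the conjugation action on single lamps. -/
lemma eq_one_of_commutes [IsSimpleGroup S] (hS : ∃ a b : S, a * b ≠ b * a) (g : GG S)
    (h : ∀ (x : Lam) (s : S), g * lampG x s * g⁻¹ = lampG x s) : g = 1 := by
  have hnt : Nontrivial S := inferInstance
  obtain ⟨s0, hs0⟩ := exists_ne (1 : S)
  have hpos : ∀ x : Lam, sh g.1.k x = x := by
    intro x
    by_contra hne
    have h1 := h x s0
    rw [conj_lampG] at h1
    have h2 := congrArg (fun z : GG S => z.1.f x) h1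
    simp only [lampG] at h2
    rw [lamp_f_self, lamp_f_ne (fun h => hne h.symm)] at h2
    exact hs0 h2.symm
  have hk : g.1.k = 0 := by
    by_contra hk
    have h1 := hpos ⟨g.1.k.natAbs, 0⟩
    rw [sh_mk, Sigma.mk.injEq] at h1
    have h2 : ((g.1.k : ℤ) : ZMod (2 ^ g.1.k.natAbs)) = 0 := by
      have := h1.2
      rw [heq_eq_eq, zero_add] at this
      exact this
    rw [ZMod.intCast_zmod_eq_zero_iff_dvd] at h2
    have h3 := Int.natAbs_dvd_natAbs.mpr h2
    rw [Int.natAbs_natCast] at h3
    have h4 := Nat.le_of_dvd (Int.natAbs_pos.mpr hk) h3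
    have h5 : g.1.k.natAbs < 2 ^ g.1.k.natAbs := Nat.lt_two_pow_self
    omega
  apply Subtype.ext
  ext x
  · show g.1.f x = 1
    apply center_trivial hS
    intro s
    have h1 := h x s
    rw [conj_lampG, hk, sh_zero] at h1
    have h2 := lampG_inj h1
    rw [mul_inv_eq_iff_eq_mul] at h2
    exact h2
  · exact hk

/-- The restriction of automorphisms to a characteristic subgroup, as permutations. -/
def resPerm {G : Type} [Group G] (U : Subgroup G) [hU : U.Characteristic] :
    MulAut G →* Equiv.Perm U where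
  toFun ψ :=
    { toFun := fun u => ⟨ψ u, (Subgroup.characteristic_iff_map_le.mp hU ψ) ⟨u, u.2, rfl⟩⟩
      invFun := fun u => ⟨ψ⁻¹ u, (Subgroup.characteristic_iff_map_le.mp hU ψ⁻¹) ⟨u, u.2, rfl⟩⟩
      left_inv := fun u => Subtype.ext (by simp)
      right_inv := fun u => Subtype.ext (by simp) }
  map_one' := by ext u; rfl
  map_mul' := by intro a b; ext u; rfl

lemma resPerm_apply {G : Type} [Group G] (U : Subgroup G) [hU : U.Characteristic] (ψ : MulAut G)
    (u : U) : ((resPerm U ψ u : U) : G) = ψ u := rfl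

theorem GG_rf [IsSimpleGroup S] [Finite S] [hS : Fact (∃ a b : S, a * b ≠ b * a)] :
    Group.ResiduallyFinite (GG S) := by
  apply Group.residuallyFinite_of_forall_exists_finite_monoidHom
  intro g hg
  have : ∃ (x : Lam) (s : S), g * lampG x s * g⁻¹ ≠ lampG x s := by
    by_contra hcon
    push Not at hcon
    exact hg (eq_one_of_commutes hS.out g hcon)
  obtain ⟨x, s, hxs⟩ := this
  refine ⟨Equiv.Perm (UU S x.1), inferInstance, inferInstance,
    (resPerm (UU S x.1)).comp MulAut.conj, ?_⟩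
  intro h1
  apply hxs
  have h2 := congrArg (fun p : Equiv.Perm (UU S x.1) =>
    ((p ⟨lampG x s, lampG_mem_UU le_rfl s⟩ : UU S x.1) : GG S)) h1
  simpa [resPerm_apply] using h2

end Pool.Agent.Helper90.IAS
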