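import Pool.Agent.Helper90.IASOut

/-!
Classification of the automorphisms that are inner on all the finite subgroups `UU i`, and
residual finiteness of the outer automorphism group.
-/

namespace Pool.Agent.Helper90.IAS

set_option linter.unusedSectionVars false

variable {S : Type} [Group S]

lemma const_on {X : Type} (D : ℤ → X) (lo hi : ℤ) (h : ∀ v, lo < v → v ≤ hi → D v = D (v - 1)) :
    ∀ v, lo ≤ v → v ≤ hi → D v = D lo := by
  intro v hv
  induction v, hv using Int.leInduction with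
  | base => intro _; rfl
  | succ n hn ih =>
    intro hle
    rw [h (n + 1) (by omega) hle, add_sub_cancel_right]
    exact ih (by omega)

/-- If `d` centralises `UU i` then it is trivial on the cycles with index `≤ i`. -/
lemma centralise [IsSimpleGroup S] (hS : ∃ a b : S, a * b ≠ b * a) (i : ℕ) (d : GG S)
    (h : ∀ u ∈ UU S i, d * u * d⁻¹ = u) (x : Lam) (hx : x.1 ≤ i) :
    sh d.1.k x = x ∧ d.1.f x = 1 := by
  have hnt : Nontrivial S := inferInstance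
  obtain ⟨s0, hs0⟩ := exists_ne (1 : S)
  have hpos : sh d.1.k x = x := by
    have h1 := h (lampG x s0) (lampG_mem_UU hx s0)
    rw [conj_lampG] at h1
    exact (lampG_pos_eq hs0 h1.symm).symm
  refine ⟨hpos, ?_⟩
  apply center_trivial hS
  intro s
  have h1 := h (lampG x s) (lampG_mem_UU hx s)
  rw [conj_lampG, hpos] at h1
  have h2 := lampG_inj h1
  rw [mul_inv_eq_iff_eq_mul] at h2
  exact h2

/-- Classification. -/
theorem classify [IsSimpleGroup S] [Finite S] (hS : ∃ a b : S, a * b ≠ b * a) (ψ : MulAut (GG S))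
    (h : ∀ i, ∃ g : GG S, ∀ u ∈ UU S i, ψ u = g * u * g⁻¹) :
    ∃ (g : GG S) (σ : S), ψ = MulAut.conj g * phi σ := by
  classical
  have hnt : Nontrivial S := inferInstance
  obtain ⟨s0, hs0⟩ := exists_ne (1 : S)
  choose g hg using h
  -- compatibility of the conjugators
  have hcomp : ∀ i j, j ≤ i → ∀ x : Lam, x.1 ≤ j →
      sh (g i).1.k x = sh (g j).1.k x ∧ (g i).1.f x = (g j).1.f x := by
    intro i j hji
    have hd : ∀ u ∈ UU S j, ((g j)⁻¹ * g i) * u * ((g j)⁻¹ * g i)⁻¹ = u := by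
      intro u hu
      have hui : u ∈ UU S i := ⟨hu.1, fun x hx => hu.2 x (by omega)⟩
      have h1 := hg i u hui
      rw [hg j u hu] at h1
      have : ((g j)⁻¹ * g i) * u * ((g j)⁻¹ * g i)⁻¹ = (g j)⁻¹ * (g i * u * (g i)⁻¹) * g j := by
        group
      rw [this, ← h1]; group
    intro x hx
    constructor
    · have h2 := (centralise hS j _ hd x hx).1
      have h3 : (((g j)⁻¹ * g i : GG S).1).k = -(g j).1.k + (g i).1.k := rfl
      rw [h3, ← sh_sh, sh_neg_eq_iff] at h2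
      exact h2
    · -- value
      have hx' : (sh (-(g j).1.k) x).1 ≤ j := hx
      have h2 := (centralise hS j _ hd (sh (-(g j).1.k) x) hx').2
      have h3 : (((g j)⁻¹ * g i : GG S).1).f (sh (-(g j).1.k) x) =
          ((g j).1.f (sh (g j).1.k (sh (-(g j).1.k) x)))⁻¹ *
            (g i).1.f (sh (-(-(g j).1.k)) (sh (-(g j).1.k) x)) := rfl
      rw [h3] at h2
      simp only [sh_sh, neg_neg, add_neg_cancel, sh_zero] at h2
      rw [inv_mul_eq_one] at h2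
      exact h2.symm
  -- the formula for `ψ`
  have hform : ∀ (a : GG S) (i : ℕ), ∀ x : Lam, x.1 ≤ i →
      sh ((ψ a).1.k - a.1.k) x = x ∧
      (ψ a).1.f x = (g i).1.f x * a.1.f (sh (-(g i).1.k) x) * ((g i).1.f (sh (-a.1.k) x))⁻¹ := by
    intro a i
    set e := g i * a * (g i)⁻¹ with he
    have hd : ∀ u ∈ UU S i, (e⁻¹ * ψ a) * u * (e⁻¹ * ψ a)⁻¹ = u := by
      intro u hu
      -- write `u = ψ u'` with `u' = g⁻¹ u g`
      set u' := (g i)⁻¹ * u * g i with hu'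
      have hu'U : u' ∈ UU S i := by
        have := (UU_normal (S := S) i).conj_mem u hu (g i)⁻¹
        rwa [inv_inv] at this
      have h1 : ψ u' = u := by
        rw [hg i u' hu'U, hu']; group
      have h2 : a * u' * a⁻¹ ∈ UU S i := (UU_normal (S := S) i).conj_mem u' hu'U a
      have h3 := hg i _ h2
      rw [map_mul, map_mul, map_inv, h1] at h3
      have h4 : (e⁻¹ * ψ a) * u * (e⁻¹ * ψ a)⁻¹ = e⁻¹ * (ψ a * u * (ψ a)⁻¹) * e := by group
      rw [h4, h3, he, hu']; group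
    intro x hx
    have hk : (e⁻¹ * ψ a : GG S).1.k = (ψ a).1.k - a.1.k := by
      show -((g i).1.k + a.1.k + -(g i).1.k) + (ψ a).1.k = _
      ring
    have h1 := centralise hS i _ hd
    constructor
    · have := (h1 x hx).1
      rwa [hk] at this
    · have hek : e.1.k = a.1.k := by
        show (g i).1.k + a.1.k + -(g i).1.k = _
        ring
      have h2 := (h1 (sh (-e.1.k) x) hx).2
      have h3 : (e⁻¹ * ψ a : GG S).1.f (sh (-e.1.k) x) =
          (e.1.f (sh e.1.k (sh (-e.1.k) x)))⁻¹ * (ψ a).1.f (sh (-(-e.1.k)) (sh (-e.1.k) x)) := rfl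
      rw [h3] at h2
      simp only [sh_sh, neg_neg, add_neg_cancel, sh_zero] at h2
      rw [inv_mul_eq_one] at h2
      rw [← h2]
      have h4 : e.1.f x = (g i).1.f x * a.1.f (sh (-(g i).1.k) x) *
          ((g i).1.f (sh (g i).1.k (sh (-((g i).1.k + a.1.k)) x)))⁻¹ := rfl
      rw [h4, sh_sh]
      congr 3
      congr 1
      ring
  -- `ψ` preserves the translation part
  have hψk : ∀ a : GG S, (ψ a).1.k = a.1.k := by
    intro a
    have := int_eq_zero_of_sh (k := (ψ a).1.k - a.1.k) 0 (fun i _ => (hform a i ⟨i, 0⟩ le_rfl).1)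
    omega
  -- the global configuration
  let F : Lam → S := fun z => (g z.1).1.f z
  have hF : ∀ i, ∀ x : Lam, x.1 ≤ i → (g i).1.f x = F x := by
    intro i x hx
    exact (hcomp i x.1 hx x le_rfl).2
  have hform2 : ∀ (a : GG S) (x : Lam),
      (ψ a).1.f x = F x * a.1.f (sh (-(g x.1).1.k) x) * (F (sh (-a.1.k) x))⁻¹ := by
    intro a x
    have h1 := (hform a x.1 x le_rfl).2
    rw [h1]
    rfl
  -- the limit of the positions
  have hrho : ∀ (s : S) (i : ℕ) (y : ZMod (2 ^ i)), (ψ (rhoG s)).1.f ⟨i, y⟩ =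
      if y = (((g i).1.k : ℤ) : ZMod (2 ^ i)) then F ⟨i, y⟩ * s * (F ⟨i, y⟩)⁻¹ else 1 := by
    intro s i y
    rw [hform2]
    have h1 : (rhoG s : GG S).1.k = 0 := rfl
    rw [h1, neg_zero, sh_zero]
    have h2 : (rhoG s : GG S).1.f (sh (-(g i).1.k) ⟨i, y⟩) =
        if (sh (-(g i).1.k) ⟨i, y⟩ : Lam).2 = 0 then s else 1 := rho_f s _
    rw [h2]
    have h3 : (sh (-(g i).1.k) ⟨i, y⟩ : Lam).2 = 0 ↔ y = (((g i).1.k : ℤ) : ZMod (2 ^ i)) := by
      show y + ((-(g i).1.k : ℤ) : ZMod (2 ^ i)) = 0 ↔ _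
      push_cast
      rw [← sub_eq_add_neg, sub_eq_zero]
    by_cases h4 : y = (((g i).1.k : ℤ) : ZMod (2 ^ i))
    · rw [if_pos (h3.mpr h4), if_pos h4]
    · rw [if_neg (fun h => h4 (h3.mp h)), if_neg h4]; simp
  -- uniform tameness of `ψ (rho s)`
  have htame : ∀ s : S, ∃ (w0 : ℤ → S) (R : ℕ), (∀ y : ℤ, (R : ℤ) < |y| → w0 y = 1) ∧
      ∀ i, R ≤ i → ∀ y : ZMod (2 ^ i), (ψ (rhoG s)).1.f ⟨i, y⟩ = w0 y.valMinAbs :=
    fun s => (ψ (rhoG s)).2
  choose w0 Rs hw1 hw2 using htame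
  have hcompk : ∀ i j, j ≤ i → ((((g i).1.k : ℤ) : ZMod (2 ^ j))) = (((g j).1.k : ℤ) : ZMod (2 ^ j)) := by
    intro i j hji
    have h1 := (hcomp i j hji ⟨j, 0⟩ le_rfl).1
    rw [sh_mk, sh_mk, Sigma.mk.injEq, heq_eq_eq, zero_add, zero_add] at h1
    exact h1.2
  let v : ℕ → ℤ := fun i => (((g i).1.k : ℤ) : ZMod (2 ^ i)).valMinAbs
  have hvsmall : ∀ i, Rs s0 ≤ i → |v i| ≤ Rs s0 := by
    intro i hi
    by_contra hcon
    push Not at hcon
    have h1 := hw2 s0 i hi (((g i).1.k : ℤ) : ZMod (2 ^ i))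
    rw [hw1 s0 _ hcon, hrho, if_pos rfl] at h1
    apply hs0
    have h2 : s0 = (F ⟨i, (((g i).1.k : ℤ) : ZMod (2 ^ i))⟩)⁻¹ *
      (F ⟨i, (((g i).1.k : ℤ) : ZMod (2 ^ i))⟩ * s0 *
        (F ⟨i, (((g i).1.k : ℤ) : ZMod (2 ^ i))⟩)⁻¹) * F ⟨i, (((g i).1.k : ℤ) : ZMod (2 ^ i))⟩ := by
      group
    rw [h2, h1]; group
  set R1 := 2 * Rs s0 + 2 with hR1
  have hvconst : ∀ i, R1 ≤ i → v i = v R1 := by
    intro i hi
    have h1 := hvsmall i (by omega)
    have h2 := hvsmall R1 (by omega)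
    have h3 : (((g i).1.k : ℤ) : ZMod (2 ^ R1)) = (((g R1).1.k : ℤ) : ZMod (2 ^ R1)) :=
      hcompk i R1 hi
    have hvi : ((v i : ℤ) : ZMod (2 ^ i)) = (((g i).1.k : ℤ) : ZMod (2 ^ i)) := ZMod.coe_valMinAbs _
    have h4 : ((v i : ℤ) : ZMod (2 ^ R1)) = (((g R1).1.k : ℤ) : ZMod (2 ^ R1)) := by
      rw [← h3]
      rw [ZMod.intCast_eq_intCast_iff_dvd_sub] at hvi ⊢
      refine dvd_trans ?_ hvi
      exact_mod_cast pow_dvd_pow 2 hi
    symm
    apply vma_eq _ h4.symm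
    have hlt := lt_two_pow_int (le_refl R1)
    rw [hR1] at hlt ⊢
    push_cast at hlt ⊢
    linarith
  set c := v R1 with hc
  have hkc : ∀ i, (((g i).1.k : ℤ) : ZMod (2 ^ i)) = ((c : ℤ) : ZMod (2 ^ i)) := by
    intro i
    set n := max i R1 with hn
    have h1 : ((v n : ℤ) : ZMod (2 ^ n)) = (((g n).1.k : ℤ) : ZMod (2 ^ n)) := ZMod.coe_valMinAbs _
    rw [hvconst n (le_max_right _ _)] at h1
    have h2 := hcompk n i (le_max_left _ _)
    rw [← h2]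
    rw [ZMod.intCast_eq_intCast_iff_dvd_sub] at h1 ⊢
    rw [← neg_sub, dvd_neg]
    refine dvd_trans ?_ h1
    exact_mod_cast pow_dvd_pow 2 (le_max_left i R1)
  have hshc : ∀ x : Lam, sh (-(g x.1).1.k) x = sh (-c) x := by
    rintro ⟨i, y⟩
    rw [sh_mk, sh_mk]
    congr 2
    push_cast
    rw [hkc i]
  have hform3 : ∀ (a : GG S) (x : Lam),
      (ψ a).1.f x = F x * a.1.f (sh (-c) x) * (F (sh (-a.1.k) x))⁻¹ := by
    intro a x
    rw [hform2, hshc]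
  have hrho2 : ∀ (s : S) (i : ℕ), (ψ (rhoG s)).1.f ⟨i, ((c : ℤ) : ZMod (2 ^ i))⟩ =
      F ⟨i, ((c : ℤ) : ZMod (2 ^ i))⟩ * s * (F ⟨i, ((c : ℤ) : ZMod (2 ^ i))⟩)⁻¹ := by
    intro s i
    rw [hrho, if_pos (hkc i).symm]
  -- recursion for `F`
  obtain ⟨b0, Rb, hb1, hb2⟩ := (ψ (TG : GG S)).2
  have hrec : ∀ i, Rb ≤ i → ∀ w : ℤ, F ⟨i, ((w : ℤ) : ZMod (2 ^ i))⟩ =
      b0 (((w : ℤ) : ZMod (2 ^ i)).valMinAbs) * F ⟨i, ((w - 1 : ℤ) : ZMod (2 ^ i))⟩ := by
    intro i hi w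
    have h1 := hform3 TG ⟨i, ((w : ℤ) : ZMod (2 ^ i))⟩
    rw [hb2 i hi] at h1
    have h2 : (TG : GG S).1.k = 1 := rfl
    have h3 : (TG : GG S).1.f (sh (-c) ⟨i, ((w : ℤ) : ZMod (2 ^ i))⟩) = 1 := rfl
    rw [h2, h3, mul_one, sh_mk] at h1
    rw [h1]
    have h4 : ((w : ℤ) : ZMod (2 ^ i)) + ((-1 : ℤ) : ZMod (2 ^ i)) = ((w - 1 : ℤ) : ZMod (2 ^ i)) := by
      push_cast; ring
    rw [h4]; group
  -- a uniform bound
  obtain ⟨Rmax, hRmax⟩ : ∃ Rm : ℕ, ∀ s : S, Rs s ≤ Rm := by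
    have := Set.finite_range Rs
    obtain ⟨M, hM⟩ := this.bddAbove
    exact ⟨M, fun s => hM ⟨s, rfl⟩⟩
  set R := max (max Rmax Rb) c.natAbs with hR
  have hRRmax : Rmax ≤ R := le_trans (le_max_left _ _) (le_max_left _ _)
  have hRRb : Rb ≤ R := le_trans (le_max_right _ _) (le_max_left _ _)
  have hRc : |c| ≤ (R : ℤ) := by
    rw [← Int.natCast_natAbs]
    exact_mod_cast le_max_right _ _
  set N := 2 * R + 2 with hN
  have hpow : ∀ i, N ≤ i → 2 * (R : ℤ) + 2 < 2 ^ i := by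
    intro i hi
    have := lt_two_pow_int hi
    rw [hN] at this
    push_cast at this
    exact this
  -- values at `c` agree
  have hcval : ∀ i, N ≤ i → F ⟨i, ((c : ℤ) : ZMod (2 ^ i))⟩ = F ⟨N, ((c : ℤ) : ZMod (2 ^ N))⟩ := by
    intro i hi
    have h1 : ∀ s, F ⟨i, ((c : ℤ) : ZMod (2 ^ i))⟩ * s * (F ⟨i, ((c : ℤ) : ZMod (2 ^ i))⟩)⁻¹ =
        F ⟨N, ((c : ℤ) : ZMod (2 ^ N))⟩ * s * (F ⟨N, ((c : ℤ) : ZMod (2 ^ N))⟩)⁻¹ := by
      intro s
      rw [← hrho2, ← hrho2, hw2 s i (by have := hRmax s; omega),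
        hw2 s N (by have := hRmax s; omega)]
      have e1 : ((c : ℤ) : ZMod (2 ^ i)).valMinAbs = c :=
        vma_eq _ rfl (by have := hpow i hi; linarith)
      have e2 : ((c : ℤ) : ZMod (2 ^ N)).valMinAbs = c :=
        vma_eq _ rfl (by have := hpow N le_rfl; linarith)
      rw [e1, e2]
    have h2 : (F ⟨N, ((c : ℤ) : ZMod (2 ^ N))⟩)⁻¹ * F ⟨i, ((c : ℤ) : ZMod (2 ^ i))⟩ = 1 := by
      apply center_trivial hS
      intro s
      have h3 := h1 s
      have h4 : F ⟨i, ((c : ℤ) : ZMod (2 ^ i))⟩ * s = F ⟨N, ((c : ℤ) : ZMod (2 ^ N))⟩ * s *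
          (F ⟨N, ((c : ℤ) : ZMod (2 ^ N))⟩)⁻¹ * F ⟨i, ((c : ℤ) : ZMod (2 ^ i))⟩ := by
        rw [← h3]; group
      rw [mul_assoc, h4]; group
    rw [inv_mul_eq_one] at h2
    exact h2.symm
  -- inside the window
  have hin : ∀ i, N ≤ i → ∀ w : ℤ, |w| ≤ R →
      F ⟨i, ((w : ℤ) : ZMod (2 ^ i))⟩ = F ⟨N, ((w : ℤ) : ZMod (2 ^ N))⟩ := by
    intro i hi
    let D : ℤ → S := fun w => (F ⟨N, ((w : ℤ) : ZMod (2 ^ N))⟩)⁻¹ * F ⟨i, ((w : ℤ) : ZMod (2 ^ i))⟩
    have hD : ∀ w, -(R : ℤ) < w → w ≤ R → D w = D (w - 1) := by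
      intro w hw1' hw2'
      have habs : |w| ≤ R := abs_le.mpr ⟨by linarith, hw2'⟩
      have e1 : ((w : ℤ) : ZMod (2 ^ i)).valMinAbs = w :=
        vma_eq _ rfl (by have := hpow i hi; linarith)
      have e2 : ((w : ℤ) : ZMod (2 ^ N)).valMinAbs = w :=
        vma_eq _ rfl (by have := hpow N le_rfl; linarith)
      show (F ⟨N, ((w : ℤ) : ZMod (2 ^ N))⟩)⁻¹ * F ⟨i, ((w : ℤ) : ZMod (2 ^ i))⟩ =
        (F ⟨N, ((w - 1 : ℤ) : ZMod (2 ^ N))⟩)⁻¹ * F ⟨i, ((w - 1 : ℤ) : ZMod (2 ^ i))⟩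
      rw [hrec i (by omega) w, hrec N (by omega) w, e1, e2]
      group
    have hDc := const_on D (-(R : ℤ)) R hD
    intro w hw
    have hw' := abs_le.mp hw
    have hc' := abs_le.mp hRc
    have h1 : D w = 1 := by
      rw [hDc w hw'.1 hw'.2, ← hDc c hc'.1 hc'.2]
      show (F ⟨N, ((c : ℤ) : ZMod (2 ^ N))⟩)⁻¹ * F ⟨i, ((c : ℤ) : ZMod (2 ^ i))⟩ = 1
      rw [hcval i hi]; group
    have h2 : (F ⟨N, ((w : ℤ) : ZMod (2 ^ N))⟩)⁻¹ * F ⟨i, ((w : ℤ) : ZMod (2 ^ i))⟩ = 1 := h1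
    rw [inv_mul_eq_one] at h2
    exact h2.symm
  -- outside the window
  set σ := F ⟨N, (((R : ℤ) : ℤ) : ZMod (2 ^ N))⟩ with hσ
  have hout : ∀ i, N ≤ i → ∀ y : ZMod (2 ^ i), (R : ℤ) < |y.valMinAbs| → F ⟨i, y⟩ = σ := by
    intro i hi y hy
    let D : ℤ → S := fun w => F ⟨i, ((w : ℤ) : ZMod (2 ^ i))⟩
    have hD : ∀ w, (R : ℤ) < w → w ≤ 2 ^ i - R - 1 → D w = D (w - 1) := by
      intro w hw1' hw2'
      show F ⟨i, ((w : ℤ) : ZMod (2 ^ i))⟩ = F ⟨i, ((w - 1 : ℤ) : ZMod (2 ^ i))⟩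
      rw [hrec i (by omega) w, hb1, one_mul]
      refine lt_of_le_of_lt (show (Rb : ℤ) ≤ R by exact_mod_cast hRRb) ?_
      by_contra hcon
      push Not at hcon
      set r := ((w : ℤ) : ZMod (2 ^ i)).valMinAbs with hr
      have h1 : ((r : ℤ) : ZMod (2 ^ i)) = ((w : ℤ) : ZMod (2 ^ i)) := ZMod.coe_valMinAbs _
      rw [ZMod.intCast_eq_intCast_iff_dvd_sub] at h1
      have hr' := abs_le.mp hcon
      have h2 := Int.le_of_dvd (by linarith) h1
      push_cast at h2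
      linarith
    have hDc := const_on D (R : ℤ) (2 ^ i - R - 1) hD
    have hpi := hpow i hi
    have hDR : D R = σ := by
      show F ⟨i, ((R : ℤ) : ZMod (2 ^ i))⟩ = σ
      rw [hσ]
      exact hin i hi R (by rw [abs_of_nonneg (Int.natCast_nonneg R)])
    have hmem := y.valMinAbs_mem_Ioc
    set r := y.valMinAbs with hr
    have hyr : ((r : ℤ) : ZMod (2 ^ i)) = y := ZMod.coe_valMinAbs _
    obtain ⟨hm1, hm2⟩ := hmem
    push_cast at hm1 hm2
    rcases lt_abs.mp hy with hpos | hneg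
    · have h1 := hDc r hpos.le (by linarith)
      have h2 : D r = F ⟨i, y⟩ := by
        show F ⟨i, ((r : ℤ) : ZMod (2 ^ i))⟩ = _
        rw [hyr]
      rw [← h2, h1, hDR]
    · have h1 := hDc (r + 2 ^ i) (by linarith) (by linarith)
      have h2 : D (r + 2 ^ i) = F ⟨i, y⟩ := by
        show F ⟨i, ((r + 2 ^ i : ℤ) : ZMod (2 ^ i))⟩ = _
        have : ((r + 2 ^ i : ℤ) : ZMod (2 ^ i)) = y := by
          have h0 : (((2 ^ i : ℕ) : ℤ) : ZMod (2 ^ i)) = 0 := by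
            rw [Int.cast_natCast, ZMod.natCast_self]
          have h0' : (2 : ZMod (2 ^ i)) ^ i = 0 := by
            push_cast at h0
            exact h0
          rw [Int.cast_add, hyr]
          push_cast
          rw [h0', add_zero]
        rw [this]
      rw [← h2, h1, hDR]
  -- the conjugating element
  have hgt : Tame (fun x => F x * σ⁻¹) := by
    refine ⟨fun w => if |w| ≤ (R : ℤ) then F ⟨N, ((w : ℤ) : ZMod (2 ^ N))⟩ * σ⁻¹ else 1, N, ?_, ?_⟩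
    · intro y hy
      have hNR : (R : ℤ) < N := by rw [hN]; push_cast; have := Int.natCast_nonneg R; linarith
      show (if |y| ≤ (R : ℤ) then _ else 1) = (1 : S)
      rw [if_neg (by linarith)]
    · intro i hi y
      show F ⟨i, y⟩ * σ⁻¹ = if |y.valMinAbs| ≤ (R : ℤ) then _ else 1
      by_cases hy : |y.valMinAbs| ≤ (R : ℤ)
      · rw [if_pos hy]
        have h1 := hin i hi y.valMinAbs hy
        rw [ZMod.coe_valMinAbs] at h1
        rw [h1]
      · rw [if_neg hy, hout i hi y (not_le.mp hy)]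
        group
  refine ⟨⟨⟨fun x => F x * σ⁻¹, c⟩, hgt⟩, σ, ?_⟩
  apply MulEquiv.ext
  intro a
  apply Subtype.ext
  ext x
  · rw [hform3]
    show F x * a.1.f (sh (-c) x) * (F (sh (-a.1.k) x))⁻¹ =
      F x * σ⁻¹ * (σ * a.1.f (sh (-c) x) * σ⁻¹) * (F (sh c (sh (-(c + a.1.k)) x)) * σ⁻¹)⁻¹
    rw [sh_sh]
    have : c + -(c + a.1.k) = -a.1.k := by ring
    rw [this]
    group
  · rw [hψk]
    show a.1.k = c + a.1.k + -c
    ring

end Pool.Agent.Helper90.IAS
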