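import Mathlib

/-!
# Inner automorphism separable groups: definitions
-/

namespace Pool.Agent.Helper90.IAS

/-- The group of inner automorphisms of `G`, as a subgroup of `Aut(G)`. -/
def Inn (G : Type) [Group G] : Subgroup (MulAut G) := (MulAut.conj : G →* MulAut G).range

instance Inn_normal (G : Type) [Group G] : (Inn G).Normal := by
  constructor
  rintro _ ⟨g, rfl⟩ ψ
  refine ⟨ψ g, ?_⟩
  ext x
  simp [MulAut.conj_apply, MulAut.mul_apply]

/-- `Out(G) = Aut(G)/Inn(G)`. -/
abbrev Out (G : Type) [Group G] : Type := MulAut G ⧸ Inn G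

/-- `G` is inner automorphism separable: for every automorphism `φ` that is not inner there is a
characteristic subgroup `K` of finite index such that the automorphism of `G ⧸ K` induced by
`φ`, that is `x K ↦ φ(x) K`, is not conjugation by an element `g K`. -/
def IsIAS (G : Type) [Group G] : Prop :=
  ∀ φ : MulAut G, φ ∉ Inn G →
    ∃ K : Subgroup G, K.Characteristic ∧ K.FiniteIndex ∧
      ¬ ∃ g : G, ∀ x : G, (QuotientGroup.mk (φ x) : G ⧸ K) = QuotientGroup.mk (g * x * g⁻¹)

end Pool.Agent.Helper90.IAS
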