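import Pool.Agent.Helper90.IASClass

/-!
Residual finiteness of the outer automorphism group; final statement.
-/

namespace Pool.Agent.Helper90.IAS

set_option linter.unusedSectionVars false

variable {S : Type} [Group S]

/-- Automorphisms that act on the characteristic subgroup `U` like an inner automorphism. -/
def NN {G : Type} [Group G] (U : Subgroup G) [U.Characteristic] : Subgroup (MulAut G) :=
  Inn G ⊔ (resPerm U).ker

instance NN_normal {G : Type} [Group G] (U : Subgroup G) [U.Characteristic] : (NN U).Normal := by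
  unfold NN; infer_instance

instance NN_finiteIndex {G : Type} [Group G] (U : Subgroup G) [U.Characteristic] [Finite U] :
    (NN U).FiniteIndex := by
  have : (resPerm U).ker.FiniteIndex := Subgroup.finiteIndex_ker _
  exact Subgroup.finiteIndex_of_le (le_sup_right : (resPerm U).ker ≤ NN U)

lemma Inn_le_NN {G : Type} [Group G] (U : Subgroup G) [U.Characteristic] : Inn G ≤ NN U :=
  le_sup_left

lemma exists_of_mem_NN {G : Type} [Group G] (U : Subgroup G) [U.Characteristic] {ψ : MulAut G}
    (h : ψ ∈ NN U) : ∃ g : G, ∀ u ∈ U, ψ u = g * u * g⁻¹ := by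
  rw [NN, Subgroup.mem_sup_of_normal_right] at h
  obtain ⟨a, ⟨g, rfl⟩, b, hb, rfl⟩ := h
  refine ⟨g, ?_⟩
  intro u hu
  have h1 : b u = u := by
    have := congrArg (fun p : Equiv.Perm U => ((p ⟨u, hu⟩ : U) : G)) (MonoidHom.mem_ker.mp hb)
    simpa [resPerm_apply] using this
  rw [MulAut.mul_apply, h1, MulAut.conj_apply]

lemma mem_NN_of_eq {G : Type} [Group G] (U : Subgroup G) [U.Characteristic] {ψ : MulAut G}
    (g : G) (h : ∀ u ∈ U, ψ u = g * u * g⁻¹) : ψ ∈ NN U := by
  have h1 : (MulAut.conj g)⁻¹ * ψ ∈ (resPerm U).ker := by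
    rw [MonoidHom.mem_ker]
    ext u
    rw [resPerm_apply]
    show (MulAut.conj g)⁻¹ (ψ u) = u
    rw [h u u.2, MulAut.conj_inv_apply]
    group
  have h2 : ψ = MulAut.conj g * ((MulAut.conj g)⁻¹ * ψ) := by group
  rw [h2]
  exact Subgroup.mul_mem_sup ⟨g, rfl⟩ h1

/-- `phi σ` is inner on every `UU i`. -/
lemma phi_mem_NN [IsSimpleGroup S] [Finite S] [hS : Fact (∃ a b : S, a * b ≠ b * a)] (σ : S)
    (i : ℕ) : phi σ ∈ NN (UU S i) := by
  classical
  have hmem : (inl (fun x : Lam => if x.1 ≤ i then σ else 1) : Gam S) ∈ GG S := by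
    apply tame_of_bounded (i + 1)
    intro x hx
    show (if x.1 ≤ i then σ else 1) = 1
    rw [if_neg (by omega)]
  apply mem_NN_of_eq (UU S i) ⟨_, hmem⟩
  intro u hu
  apply Subtype.ext
  ext x
  · rw [phi_f]
    show σ * u.1.f x * σ⁻¹ = (if x.1 ≤ i then σ else 1) * u.1.f (sh (-0) x) *
      (if (sh 0 (sh (-(0 + u.1.k)) x)).1 ≤ i then σ else 1)⁻¹
    simp only [neg_zero, sh_zero, sh_fst]
    by_cases hx : x.1 ≤ i
    · rw [if_pos hx]
    · rw [if_neg hx, hu.2 x (by omega)]
      simp
  · show u.1.k = 0 + u.1.k + -0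
    ring

/-- `phi` as a homomorphism to the outer automorphism group. -/
def phiOut (S : Type) [Group S] : S →* Out (GG S) := (QuotientGroup.mk' (Inn (GG S))).comp phiHom

lemma phiOut_apply (σ : S) : phiOut S σ = (QuotientGroup.mk (phi σ) : Out (GG S)) := rfl

lemma mem_range_iff [IsSimpleGroup S] [Finite S] [hS : Fact (∃ a b : S, a * b ≠ b * a)]
    (ψ : MulAut (GG S)) :
    (QuotientGroup.mk ψ : Out (GG S)) ∈ (phiOut S).range ↔ ∀ i, ψ ∈ NN (UU S i) := by
  constructor
  · rintro ⟨σ, hσ⟩ i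
    rw [phiOut_apply, QuotientGroup.eq] at hσ
    have h1 := Inn_le_NN (UU S i) hσ
    have h2 := (NN (UU S i)).mul_mem (phi_mem_NN σ i) h1
    rwa [mul_inv_cancel_left] at h2
  · intro h
    obtain ⟨g, σ, hψ⟩ := classify hS.out ψ (fun i => exists_of_mem_NN (UU S i) (h i))
    refine ⟨σ, ?_⟩
    rw [phiOut_apply, hψ]
    rw [QuotientGroup.mk_mul]
    have : (QuotientGroup.mk (MulAut.conj g) : Out (GG S)) = 1 := by
      rw [QuotientGroup.eq_one_iff]; exact ⟨g, rfl⟩
    rw [this, one_mul]

instance range_normal [IsSimpleGroup S] [Finite S] [hS : Fact (∃ a b : S, a * b ≠ b * a)] :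
    (phiOut S).range.Normal := by
  constructor
  intro n hn θ
  obtain ⟨ψ, rfl⟩ := QuotientGroup.mk_surjective n
  obtain ⟨χ, rfl⟩ := QuotientGroup.mk_surjective θ
  rw [mem_range_iff] at hn
  have : (QuotientGroup.mk (χ * ψ * χ⁻¹) : Out (GG S)) ∈ (phiOut S).range := by
    rw [mem_range_iff]
    intro i
    exact (NN_normal (UU S i)).conj_mem ψ (hn i) χ
  exact this

theorem out_rf [IsSimpleGroup S] [Finite S] [hS : Fact (∃ a b : S, a * b ≠ b * a)] :
    Group.ResiduallyFinite (Out (GG S)) := by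
  apply Group.residuallyFinite_of_forall_exists_finite_monoidHom
  intro θ hθ
  obtain ⟨ψ, rfl⟩ := QuotientGroup.mk_surjective θ
  by_cases h : ∀ i, ψ ∈ NN (UU S i)
  · -- use the conjugation action on the finite normal subgroup `phiOut.range`
    have hmem : (QuotientGroup.mk ψ : Out (GG S)) ∈ (phiOut S).range := (mem_range_iff ψ).mpr h
    obtain ⟨σ, hσ⟩ := hmem
    have hfin : Finite (phiOut S).range := Finite.of_surjective _ (phiOut S).rangeRestrict_surjective
    refine ⟨Equiv.Perm (phiOut S).range, inferInstance, inferInstance,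
      (MulAut.toPerm _).comp (MulAut.conjNormal (H := (phiOut S).range)), ?_⟩
    intro h1
    have h2 : ∀ τ : S, phiOut S σ * phiOut S τ * (phiOut S σ)⁻¹ = phiOut S τ := by
      intro τ
      have h3 := congrArg (fun p : Equiv.Perm (phiOut S).range =>
        ((p ⟨phiOut S τ, ⟨τ, rfl⟩⟩ : (phiOut S).range) : Out (GG S))) h1
      rw [← hσ] at h3
      exact h3
    rcases IsSimpleGroup.eq_bot_or_eq_top_of_normal (phiOut S).ker inferInstance with hk | hk
    · have hinj : Function.Injective (phiOut S) := (MonoidHom.ker_eq_bot_iff _).mp hk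
      have h4 : σ = 1 := by
        apply center_trivial hS.out
        intro τ
        apply hinj
        have := h2 τ
        rw [mul_inv_eq_iff_eq_mul] at this
        rw [map_mul, map_mul, this]
      apply hθ
      rw [← hσ, h4, map_one]
    · apply hθ
      rw [← hσ]
      have : σ ∈ (phiOut S).ker := by rw [hk]; trivial
      exact this
  · push Not at h
    obtain ⟨i, hi⟩ := h
    refine ⟨MulAut (GG S) ⧸ NN (UU S i), inferInstance, ?_,
      QuotientGroup.map (Inn (GG S)) (NN (UU S i)) (MonoidHom.id _) (Inn_le_NN _), ?_⟩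
    · exact Subgroup.finite_quotient_of_finiteIndex
    · intro h1
      apply hi
      have h2 : (QuotientGroup.mk ψ : MulAut (GG S) ⧸ NN (UU S i)) = 1 := h1
      rwa [QuotientGroup.eq_one_iff] at h2

instance altFact : Fact (∃ a b : alternatingGroup (Fin 5), a * b ≠ b * a) := by
  constructor
  refine ⟨⟨Equiv.swap 0 1 * Equiv.swap 1 2, ?_⟩, ⟨Equiv.swap 0 1 * Equiv.swap 1 3, ?_⟩, ?_⟩
  · rw [Equiv.Perm.mem_alternatingGroup]; decide
  · rw [Equiv.Perm.mem_alternatingGroup]; decide
  · intro h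
    have h1 := congrArg (fun g : alternatingGroup (Fin 5) => (g : Equiv.Perm (Fin 5)) 0) h
    revert h1
    decide

theorem main : ∃ (G : Type) (_ : Group G), Group.FG G ∧ Group.ResiduallyFinite G ∧
    Infinite (Out G) ∧ Group.ResiduallyFinite (Out G) ∧ ¬ IsIAS G :=
  ⟨GG (alternatingGroup (Fin 5)), inferInstance, GG_fg altFact.out, GG_rf, out_infinite, out_rf,
    not_IAS altFact.out⟩

end Pool.Agent.Helper90.IAS
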