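import Pool.Agent.Helper90.IASChar

/-!
Automorphisms of the group.
-/

namespace Pool.Agent.Helper90.IAS

set_option linter.unusedSectionVars false

variable {S : Type} [Group S]

lemma Tame.conj {w : Lam → S} (h : Tame w) (σ : S) : Tame (fun x => σ * w x * σ⁻¹) := by
  obtain ⟨w0, R, h1, h2⟩ := h
  refine ⟨fun y => σ * w0 y * σ⁻¹, R, ?_, ?_⟩
  · intro y hy
    show σ * w0 y * σ⁻¹ = 1
    rw [h1 y hy]; simp
  · intro i hi y
    show σ * w ⟨i, y⟩ * σ⁻¹ = σ * w0 _ * σ⁻¹
    rw [h2 i hi]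

/-- Conjugation by the constant configuration `σ`. -/
def phi (σ : S) : MulAut (GG S) where
  toFun g := ⟨⟨fun x => σ * g.1.f x * σ⁻¹, g.1.k⟩, Tame.conj g.2 σ⟩
  invFun g := ⟨⟨fun x => σ⁻¹ * g.1.f x * σ, g.1.k⟩, by
    have := Tame.conj g.2 σ⁻¹
    rw [inv_inv] at this
    exact this⟩
  left_inv g := by
    apply Subtype.ext
    ext x
    · simp [mul_assoc]
    · rfl
  right_inv g := by
    apply Subtype.ext
    ext x
    · simp [mul_assoc]
    · rfl
  map_mul' g h := by
    apply Subtype.ext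
    ext x
    · simp [mul_assoc]
    · simp

lemma phi_f (σ : S) (g : GG S) (x : Lam) : (phi σ g).1.f x = σ * g.1.f x * σ⁻¹ := rfl
lemma phi_k (σ : S) (g : GG S) : (phi σ g).1.k = g.1.k := rfl

/-- `phi` as a homomorphism. -/
def phiHom : S →* MulAut (GG S) where
  toFun := phi
  map_one' := by
    ext g x
    · simp [phi_f]
    · simp [phi_k]
  map_mul' σ τ := by
    ext g x
    · rw [MulAut.mul_apply, phi_f, phi_f, phi_f]; group
    · rfl

/-- Rotation of the `n`-th cycle only. -/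
def rot (n : ℕ) (m : ℤ) : Lam → Lam := fun x => if x.1 = n then sh (-m) x else x

lemma rot_fst (n : ℕ) (m : ℤ) (x : Lam) : (rot n m x).1 = x.1 := by
  unfold rot; split_ifs <;> rfl

lemma rot_sh (n : ℕ) (m k : ℤ) (x : Lam) : rot n m (sh k x) = sh k (rot n m x) := by
  unfold rot
  by_cases h : x.1 = n
  · rw [if_pos (show (sh k x).1 = n from h), if_pos h, sh_sh, sh_sh, add_comm]
  · rw [if_neg (show ¬ (sh k x).1 = n from h), if_neg h]

lemma rot_rot (n : ℕ) (m m' : ℤ) (x : Lam) : rot n m (rot n m' x) = rot n (m + m') x := by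
  unfold rot
  by_cases h : x.1 = n
  · rw [if_pos h, if_pos (show (sh (-m') x).1 = n from h), if_pos h, sh_sh]; congr 1; ring
  · rw [if_neg h, if_neg h, if_neg h]

lemma rot_zero (n : ℕ) (x : Lam) : rot n 0 x = x := by
  unfold rot; simp

lemma Tame.rot {w : Lam → S} (h : Tame w) (n : ℕ) (m : ℤ) : Tame (fun x => w (rot n m x)) := by
  obtain ⟨w0, R, h1, h2⟩ := h
  refine ⟨w0, max R (n + 1), ?_, ?_⟩
  · intro y hy
    exact h1 y (lt_of_le_of_lt (by exact_mod_cast le_max_left _ _) hy)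
  · intro i hi y
    have h3 : i ≠ n := by
      have := le_trans (le_max_right _ _) hi; omega
    have h4 : IAS.rot n m ⟨i, y⟩ = ⟨i, y⟩ := by simp [IAS.rot, h3]
    show w (IAS.rot n m ⟨i, y⟩) = _
    rw [h4, h2 i (le_trans (le_max_left _ _) hi)]

/-- The automorphism of the group rotating the `n`-th cycle. -/
def psi (n : ℕ) : MulAut (GG S) where
  toFun g := ⟨⟨fun x => g.1.f (rot n 1 x), g.1.k⟩, Tame.rot g.2 n 1⟩
  invFun g := ⟨⟨fun x => g.1.f (rot n (-1) x), g.1.k⟩, Tame.rot g.2 n (-1)⟩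
  left_inv g := by
    apply Subtype.ext
    ext x
    · simp [rot_rot, rot_zero]
    · rfl
  right_inv g := by
    apply Subtype.ext
    ext x
    · simp [rot_rot, rot_zero]
    · rfl
  map_mul' g h := by
    apply Subtype.ext
    ext x
    · simp [rot_sh]
    · simp

lemma psi_f (n : ℕ) (g : GG S) (x : Lam) : (psi n g).1.f x = g.1.f (rot n 1 x) := rfl

lemma psi_lampG (n : ℕ) (x : Lam) (s : S) : psi n (lampG x s) = lampG (rot n (-1) x) s := by
  apply Subtype.ext
  ext y
  · rw [psi_f]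
    by_cases h : y = rot n (-1) x
    · subst h
      rw [rot_rot]
      simp only [lampG]
      rw [lamp_f_self]
      simp [rot_zero, lamp_f_self]
    · simp only [lampG]
      rw [lamp_f_ne h, lamp_f_ne]
      intro h'
      apply h
      rw [← h', rot_rot]; simp [rot_zero]
  · rfl

lemma lampG_pos_eq {x y : Lam} {s s' : S} (hs : s ≠ 1) (h : lampG x s = lampG y s') : x = y := by
  by_contra hne
  have h2 := congrArg (fun z : GG S => z.1.f x) h
  simp only [lampG] at h2
  rw [lamp_f_self, lamp_f_ne hne] at h2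
  exact hs h2

lemma int_eq_zero_of_sh {k : ℤ} (N : ℕ) (h : ∀ i, N ≤ i → sh k ⟨i, 0⟩ = ⟨i, 0⟩) : k = 0 := by
  by_contra hk
  have h1 := h (N + k.natAbs) (by omega)
  rw [sh_mk, Sigma.mk.injEq] at h1
  have h2 : (k : ZMod (2 ^ (N + k.natAbs))) = 0 := by
    have := h1.2
    rw [heq_eq_eq, zero_add] at this
    exact this
  rw [ZMod.intCast_zmod_eq_zero_iff_dvd] at h2
  have h3 := Int.natAbs_dvd_natAbs.mpr h2
  rw [Int.natAbs_natCast] at h3
  have h4 := Nat.le_of_dvd (Int.natAbs_pos.mpr hk) h3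
  have h5 : N + k.natAbs < 2 ^ (N + k.natAbs) := Nat.lt_two_pow_self
  omega

theorem out_infinite [Nontrivial S] : Infinite (Out (GG S)) := by
  apply Infinite.of_injective (fun n : ℕ => (QuotientGroup.mk (psi (n + 1)) : Out (GG S)))
  intro m n hmn
  by_contra hne
  simp only at hmn
  rw [QuotientGroup.eq] at hmn
  obtain ⟨g, hg⟩ := hmn
  have hg' : ∀ u : GG S, psi (m + 1) (g * u * g⁻¹) = psi (n + 1) u := by
    intro u
    have h1 := congrArg (fun e : MulAut (GG S) => psi (m + 1) (e u)) hg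
    simpa [MulAut.conj_apply, MulAut.mul_apply] using h1
  obtain ⟨s, hs⟩ := exists_ne (1 : S)
  have hpos : ∀ x : Lam, rot (m + 1) (-1) (sh g.1.k x) = rot (n + 1) (-1) x := by
    intro x
    have h1 := hg' (lampG x s)
    rw [conj_lampG, psi_lampG, psi_lampG] at h1
    exact (lampG_pos_eq hs h1.symm).symm
  have hk : g.1.k = 0 := by
    apply int_eq_zero_of_sh (m + n + 2)
    intro i hi
    have h1 := hpos ⟨i, 0⟩
    unfold rot at h1
    rw [if_neg (by simp; omega), if_neg (by simp; omega)] at h1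
    exact h1
  have h1 := hpos ⟨n + 1, 0⟩
  rw [hk, sh_zero] at h1
  unfold rot at h1
  rw [if_neg (by simp; omega), if_pos rfl, sh_mk, Sigma.mk.injEq] at h1
  have h2 := h1.2
  rw [heq_eq_eq] at h2
  have h3 : ((1 : ℤ) : ZMod (2 ^ (n + 1))) = 0 := by
    simpa using h2.symm
  rw [ZMod.intCast_zmod_eq_zero_iff_dvd] at h3
  have h4 := Int.natAbs_dvd_natAbs.mpr h3
  rw [Int.natAbs_natCast] at h4
  simp only [Int.natAbs_one, Nat.dvd_one] at h4
  have : 1 < 2 ^ (n + 1) := Nat.one_lt_two_pow (by omega)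
  omega

lemma phi_not_inner [IsSimpleGroup S] (hS : ∃ a b : S, a * b ≠ b * a) {σ : S} (hσ : σ ≠ 1) :
    phi σ ∉ Inn (GG S) := by
  rintro ⟨g, hg⟩
  have hnt : Nontrivial S := inferInstance
  obtain ⟨s0, hs0⟩ := exists_ne (1 : S)
  have hg' : ∀ u : GG S, g * u * g⁻¹ = phi σ u := by
    intro u
    have h1 := congrArg (fun e : MulAut (GG S) => e u) hg
    simpa [MulAut.conj_apply] using h1
  have hphi : ∀ (x : Lam) (s : S), phi σ (lampG x s) = lampG x (σ * s * σ⁻¹) := by
    intro x s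
    apply Subtype.ext
    ext y
    · rw [phi_f]
      simp only [lampG]
      by_cases h : y = x
      · subst h; rw [lamp_f_self, lamp_f_self]
      · rw [lamp_f_ne h, lamp_f_ne h]; simp
    · rfl
  have hpos : ∀ x : Lam, sh g.1.k x = x := by
    intro x
    have h1 := hg' (lampG x s0)
    rw [conj_lampG, hphi] at h1
    refine (lampG_pos_eq ?_ h1.symm).symm
    intro h
    apply hs0
    have : s0 = σ⁻¹ * (σ * s0 * σ⁻¹) * σ := by group
    rw [this, h]; group
  have hk : g.1.k = 0 := int_eq_zero_of_sh 0 (fun i _ => hpos _)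
  have hval : ∀ x : Lam, g.1.f x = σ := by
    intro x
    have h1 : ∀ s, σ⁻¹ * g.1.f x * s = s * (σ⁻¹ * g.1.f x) := by
      intro s
      have h2 := hg' (lampG x s)
      rw [conj_lampG, hphi, hk, sh_zero] at h2
      have h3 := lampG_inj h2
      have h4 : g.1.f x * s = σ * s * σ⁻¹ * g.1.f x := by
        rw [← h3]; group
      calc σ⁻¹ * g.1.f x * s = σ⁻¹ * (g.1.f x * s) := by group
        _ = s * (σ⁻¹ * g.1.f x) := by rw [h4]; group
    have h5 := center_trivial hS _ h1
    rw [inv_mul_eq_one] at h5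
    exact h5.symm
  obtain ⟨w0, R, h1, h2⟩ := (g.2 : Tame g.1.f)
  apply hσ
  have h3 := h2 (2 * (R + 1)) (by omega) (((R : ℤ) + 1 : ℤ) : ZMod (2 ^ (2 * (R + 1))))
  rw [hval] at h3
  rw [h3]
  apply h1
  have hlt := lt_two_pow_int (le_refl (2 * (R + 1)))
  have h4 : (((R : ℤ) + 1 : ℤ) : ZMod (2 ^ (2 * (R + 1)))).valMinAbs = (R : ℤ) + 1 := by
    apply vma_eq _ rfl
    rw [abs_of_nonneg (by positivity)]
    push_cast at hlt ⊢
    linarith
  rw [h4, abs_of_nonneg (by positivity)]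
  linarith

/-- Two homomorphisms agreeing on the generators agree. -/
lemma hom_ext [IsSimpleGroup S] (hS : ∃ a b : S, a * b ≠ b * a) {X : Type} [Group X]
    (f1 f2 : GG S →* X) (hT : f1 TG = f2 TG) (hr : ∀ s, f1 (rhoG s) = f2 (rhoG s)) : f1 = f2 := by
  have h1 : HH S ≤ (MonoidHom.eqLocus f1 f2).map (GG S).subtype := by
    rw [HH, Subgroup.closure_le]
    rintro x (hx | ⟨s, rfl⟩)
    · rw [Set.mem_singleton_iff] at hx
      rw [hx]
      exact ⟨TG, hT, rfl⟩
    · exact ⟨rhoG s, hr s, rfl⟩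
  ext g
  have hg : (g : Gam S) ∈ HH S := by rw [HH_eq_GG hS]; exact g.2
  obtain ⟨g', hg', hgg⟩ := h1 hg
  have : g' = g := Subtype.ext hgg
  rw [← this]
  exact hg'

/-- The diagonal lamp on the cycles with `2 ^ i ∣ m`. -/
noncomputable def rhoD (m : ℕ) (s : S) : Gam S := rhoP (fun i => ((2 ^ i : ℕ) : ℤ) ∣ (m : ℤ)) s

lemma two_pow_dvd_lt {m i : ℕ} (hm : 0 < m) (h : ((2 ^ i : ℕ) : ℤ) ∣ (m : ℤ)) : i < m := by
  have h1 : 2 ^ i ∣ m := by exact_mod_cast h
  have h2 := Nat.le_of_dvd hm h1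
  exact lt_of_lt_of_le Nat.lt_two_pow_self h2

lemma rhoD_mem {m : ℕ} (hm : 0 < m) (s : S) : rhoD m s ∈ GG S := by
  classical
  apply tame_of_bounded m
  intro x hx
  rw [rhoD, rhoP_f, if_neg]
  rintro ⟨-, h⟩
  have := two_pow_dvd_lt hm h
  omega

/-- On every finite quotient `phi σ` is inner. -/
theorem phi_finite_inner [IsSimpleGroup S] (hS : ∃ a b : S, a * b ≠ b * a) (σ : S)
    (K : Subgroup (GG S)) [K.Normal] [K.FiniteIndex] :
    ∃ u : GG S, ∀ g : GG S,
      (QuotientGroup.mk (phi σ g) : GG S ⧸ K) = QuotientGroup.mk (u * g * u⁻¹) := by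
  classical
  set m := K.index with hm
  have hm0 : 0 < m := Nat.pos_of_ne_zero Subgroup.FiniteIndex.index_ne_zero
  have hTm : (TG : GG S) ^ m ∈ K := Subgroup.pow_index_mem K TG
  -- `rho` and `rhoD m` agree modulo `K`
  let r1 : S →* GG S ⧸ K :=
    { toFun := fun s => QuotientGroup.mk (rhoG s)
      map_one' := by
        show (QuotientGroup.mk (rhoG (1 : S)) : GG S ⧸ K) = 1
        have : rhoG (1 : S) = 1 := Subtype.ext (rhoP_one (fun _ => True))
        rw [this]; rfl
      map_mul' := by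
        intro a b
        have : rhoG (a * b) = rhoG a * rhoG b :=
          Subtype.ext (rhoP_mul (fun _ => True) a b).symm
        show (QuotientGroup.mk (rhoG (a * b)) : GG S ⧸ K) = _
        rw [this]; rfl }
  let dG : S → GG S := fun s => ⟨rhoD m s, rhoD_mem hm0 s⟩
  let r2 : S →* GG S ⧸ K :=
    { toFun := fun s => QuotientGroup.mk (dG s)
      map_one' := by
        show (QuotientGroup.mk (dG (1 : S)) : GG S ⧸ K) = 1
        have : dG (1 : S) = 1 :=
          Subtype.ext (rhoP_one (fun i => ((2 ^ i : ℕ) : ℤ) ∣ (m : ℤ)))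
        rw [this]; rfl
      map_mul' := by
        intro a b
        have : dG (a * b) = dG a * dG b :=
          Subtype.ext (rhoP_mul (fun i => ((2 ^ i : ℕ) : ℤ) ∣ (m : ℤ)) a b).symm
        show (QuotientGroup.mk (dG (a * b)) : GG S ⧸ K) = _
        rw [this]; rfl }
  have hTK : (QuotientGroup.mk (TG ^ m) : GG S ⧸ K) = 1 := by
    rw [QuotientGroup.eq_one_iff]; exact hTm
  have hr : ∀ s, r1 s = r2 s := by
    have h1 : MonoidHom.eqLocus r1 r2 = ⊤ := by
      apply gen_of_comm hS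
      intro a b
      show r1 (a * b * a⁻¹ * b⁻¹) = r2 (a * b * a⁻¹ * b⁻¹)
      have h2 : rhoG a * (TG ^ m * rhoG b * (TG ^ m)⁻¹) * (rhoG a)⁻¹ *
          (TG ^ m * rhoG b * (TG ^ m)⁻¹)⁻¹ = dG (a * b * a⁻¹ * b⁻¹) := by
        apply Subtype.ext
        have := comm_rho (S := S) (m : ℤ) a b
        rw [zpow_natCast] at this
        exact this
      have h3 := congrArg (fun z : GG S => (QuotientGroup.mk z : GG S ⧸ K)) h2
      simp only [QuotientGroup.mk_mul, QuotientGroup.mk_inv, hTK, one_mul, inv_one, mul_one] at h3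
      show _ = (QuotientGroup.mk (dG (a * b * a⁻¹ * b⁻¹)) : GG S ⧸ K)
      rw [← h3, map_mul, map_mul, map_mul, map_inv, map_inv]
      rfl
    intro s
    have : s ∈ MonoidHom.eqLocus r1 r2 := by rw [h1]; trivial
    exact this
  -- the conjugating element
  have humem : (inl (fun x : Lam => if ((2 ^ x.1 : ℕ) : ℤ) ∣ (m : ℤ) then σ else 1) : Gam S) ∈ GG S := by
    apply tame_of_bounded m
    intro x hx
    show (if ((2 ^ x.1 : ℕ) : ℤ) ∣ (m : ℤ) then σ else 1) = 1
    rw [if_neg]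
    intro h
    have := two_pow_dvd_lt hm0 h
    omega
  let u : GG S := ⟨_, humem⟩
  refine ⟨u, ?_⟩
  have hu_f : ∀ x : Lam, u.1.f x = if ((2 ^ x.1 : ℕ) : ℤ) ∣ (m : ℤ) then σ else 1 := fun _ => rfl
  have key : ((QuotientGroup.mk' K).comp (phi σ).toMonoidHom) =
      ((QuotientGroup.mk' K).comp (MulAut.conj u).toMonoidHom) := by
    apply hom_ext hS
    · have e1 : phi σ TG = TG := by
        apply Subtype.ext
        ext x
        · rw [phi_f]; simp [TG]
        · rfl
      have e2 : u * TG * u⁻¹ = TG := by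
        apply Subtype.ext
        ext x
        · show u.1.f x * (T : Gam S).f (sh (-u.1.k) x) *
            (u.1.f (sh u.1.k (sh (-(u.1.k + (T : Gam S).k)) x)))⁻¹ = (T : Gam S).f x
          simp only [hu_f, T_f, mul_one, sh_fst]
          simp
        · show u.1.k + (T : Gam S).k + -u.1.k = _
          simp [TG]
      show (QuotientGroup.mk (phi σ TG) : GG S ⧸ K) = QuotientGroup.mk (u * TG * u⁻¹)
      rw [e1, e2]
    · intro s
      show (QuotientGroup.mk (phi σ (rhoG s)) : GG S ⧸ K) = QuotientGroup.mk (u * rhoG s * u⁻¹)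
      have e1 : phi σ (rhoG s) = rhoG (σ * s * σ⁻¹) := by
        apply Subtype.ext
        ext x
        · rw [phi_f]
          show σ * (rho s).f x * σ⁻¹ = (rho (σ * s * σ⁻¹)).f x
          rw [rho_f, rho_f]
          split_ifs <;> simp
        · rfl
      have e2 : u * dG s * u⁻¹ = dG (σ * s * σ⁻¹) := by
        apply Subtype.ext
        show u.1 * inl (rhoD m s).f * (u.1)⁻¹ = inl (rhoD m (σ * s * σ⁻¹)).f
        rw [conj_inl]
        congr 1
        funext x
        have hk0 : u.1.k = 0 := rfl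
        rw [hk0, neg_zero, sh_zero, hu_f]
        simp only [rhoD, rhoP_f]
        by_cases h1 : ((2 ^ x.1 : ℕ) : ℤ) ∣ (m : ℤ)
        · by_cases h2 : x.2 = 0
          · simp only [h1, h2, and_self, if_true]
          · simp [h2]
        · simp only [h1, and_false, if_false]
          simp
      rw [e1]
      have h1 : (QuotientGroup.mk (rhoG (σ * s * σ⁻¹)) : GG S ⧸ K) =
          QuotientGroup.mk (dG (σ * s * σ⁻¹)) := hr _
      have h2 : (QuotientGroup.mk (rhoG s) : GG S ⧸ K) = QuotientGroup.mk (dG s) := hr s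
      rw [h1, ← e2, QuotientGroup.mk_mul, QuotientGroup.mk_mul, QuotientGroup.mk_mul,
        QuotientGroup.mk_mul, h2]
  intro g
  exact DFunLike.congr_fun key g

theorem not_IAS [IsSimpleGroup S] (hS : ∃ a b : S, a * b ≠ b * a) : ¬ IsIAS (GG S) := by
  intro h
  have hnt : Nontrivial S := inferInstance
  obtain ⟨σ, hσ⟩ := exists_ne (1 : S)
  obtain ⟨K, hK, hKf, hne⟩ := h (phi σ) (phi_not_inner hS hσ)
  exact hne (phi_finite_inner hS σ K)

end Pool.Agent.Helper90.IAS
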