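import Pool.Agent.Helper90.IASWreath



/-!
Generation of the group and its finite characteristic subgroups.
-/

namespace Pool.Agent.Helper90.IAS

set_option linter.unusedSectionVars false

variable {S : Type} [Group S]

lemma gen_of_comm [IsSimpleGroup S] (hS : ∃ a b : S, a * b ≠ b * a) (H : Subgroup S)
    (h : ∀ a b : S, a * b * a⁻¹ * b⁻¹ ∈ H) : H = ⊤ := by
  have h1 : commutator S ≤ H := by
    rw [commutator_def, Subgroup.commutator_le]
    intro a _ b _
    rw [commutatorElement_def]
    exact h a b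
  have h2 : commutator S ≠ ⊥ := by
    intro hb
    obtain ⟨a, b, hab⟩ := hS
    apply hab
    have h5 : a * b * a⁻¹ * b⁻¹ ∈ commutator S := by
      rw [← commutatorElement_def, commutator_def]
      exact Subgroup.commutator_mem_commutator (Subgroup.mem_top a) (Subgroup.mem_top b)
    rw [hb, Subgroup.mem_bot, mul_inv_eq_one, mul_inv_eq_iff_eq_mul] at h5
    exact h5
  have h3 : commutator S = ⊤ :=
    (IsSimpleGroup.eq_bot_or_eq_top_of_normal _ inferInstance).resolve_left h2
  rw [h3] at h1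
  exact top_le_iff.mp h1

lemma center_trivial [IsSimpleGroup S] (hS : ∃ a b : S, a * b ≠ b * a) (z : S)
    (h : ∀ s : S, z * s = s * z) : z = 1 := by
  have h1 : z ∈ Subgroup.center S := by
    rw [Subgroup.mem_center_iff]
    intro s; exact (h s).symm
  have h2 : Subgroup.center S ≠ ⊤ := by
    intro ht
    obtain ⟨a, b, hab⟩ := hS
    apply hab
    have : b ∈ Subgroup.center S := by rw [ht]; trivial
    rw [Subgroup.mem_center_iff] at this
    exact this a
  have h3 := (IsSimpleGroup.eq_bot_or_eq_top_of_normal (Subgroup.center S) inferInstance).resolve_right h2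
  rw [h3] at h1
  exact h1

lemma inl_mem_of_lamps (H : Subgroup (Gam S)) (A : Finset Lam) :
    ∀ w : Lam → S, (∀ x ∈ A, ∀ s, lamp x s ∈ H) → (∀ x, x ∉ A → w x = 1) → inl w ∈ H := by
  classical
  induction A using Finset.induction_on with
  | empty =>
    intro w _ hw
    have : inl w = 1 := by
      ext x
      · simp [hw x]
      · rfl
    rw [this]; exact H.one_mem
  | insert a A ha ih =>
    intro w hl hw
    have e : inl w = lamp a (w a) * inl (Function.update w a 1) := by
      ext x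
      · by_cases hx : x = a
        · subst hx; simp [lamp]
        · simp [lamp, hx]
      · rfl
    rw [e]
    apply H.mul_mem (hl a (Finset.mem_insert_self _ _) _)
    apply ih
    · intro x hx; exact hl x (Finset.mem_insert_of_mem hx)
    · intro x hx
      by_cases hxa : x = a
      · subst hxa; simp
      · rw [Function.update_of_ne hxa]
        apply hw
        simp [hxa, hx]

/-- The generated subgroup. -/
def HH (S : Type) [Group S] : Subgroup (Gam S) := Subgroup.closure ({T} ∪ Set.range (rho (S := S)))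

lemma T_mem_HH : (T : Gam S) ∈ HH S := Subgroup.subset_closure (Or.inl rfl)

lemma rho_mem_HH (s : S) : rho s ∈ HH S := Subgroup.subset_closure (Or.inr ⟨s, rfl⟩)

lemma HH_le_GG : HH S ≤ GG S := by
  rw [HH, Subgroup.closure_le]
  rintro x (hx | ⟨s, rfl⟩)
  · rw [Set.mem_singleton_iff] at hx; rw [hx]; exact T_mem
  · exact rho_mem s

lemma rhoP_mem_HH [IsSimpleGroup S] (hS : ∃ a b : S, a * b ≠ b * a) (i : ℕ) (s : S) :
    rhoP (fun j => j < i + 1) s ∈ HH S := by
  let Q : Subgroup S :=
    { carrier := {s | rhoP (fun j => j < i + 1) s ∈ HH S}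
      mul_mem' := by
        intro a b ha hb
        show rhoP (fun j => j < i + 1) (a * b) ∈ HH S
        rw [← rhoP_mul]; exact (HH S).mul_mem ha hb
      one_mem' := by
        show rhoP (fun j => j < i + 1) (1 : S) ∈ HH S
        rw [rhoP_one]; exact (HH S).one_mem
      inv_mem' := by
        intro a ha
        show rhoP (fun j => j < i + 1) a⁻¹ ∈ HH S
        rw [← rhoP_inv]; exact (HH S).inv_mem ha }
  have hQ : Q = ⊤ := by
    apply gen_of_comm hS
    intro a b
    show rhoP (fun j => j < i + 1) (a * b * a⁻¹ * b⁻¹) ∈ HH S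
    have h1 := comm_rho (S := S) ((2 : ℤ) ^ i) a b
    have h2 : (fun j : ℕ => ((2 ^ j : ℕ) : ℤ) ∣ (2 : ℤ) ^ i) = fun j => j < i + 1 := by
      funext j
      apply propext
      rw [show (((2 ^ j : ℕ) : ℤ) ∣ (2 : ℤ) ^ i) ↔ (2 ^ j ∣ 2 ^ i) by exact_mod_cast Iff.rfl]
      rw [Nat.pow_dvd_pow_iff_le_right (by norm_num)]
      omega
    rw [h2] at h1
    rw [← h1]
    have hT : (T : Gam S) ^ ((2 : ℤ) ^ i) ∈ HH S := (HH S).zpow_mem T_mem_HH _
    have hc : (T : Gam S) ^ ((2 : ℤ) ^ i) * rho b * ((T : Gam S) ^ ((2 : ℤ) ^ i))⁻¹ ∈ HH S :=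
      (HH S).mul_mem ((HH S).mul_mem hT (rho_mem_HH b)) ((HH S).inv_mem hT)
    exact (HH S).mul_mem ((HH S).mul_mem ((HH S).mul_mem (rho_mem_HH a) hc)
      ((HH S).inv_mem (rho_mem_HH a))) ((HH S).inv_mem hc)
  have : s ∈ Q := by rw [hQ]; trivial
  exact this

lemma rhoP_lt_mem_HH [IsSimpleGroup S] (hS : ∃ a b : S, a * b ≠ b * a) (i : ℕ) (s : S) :
    rhoP (fun j => j < i) s ∈ HH S := by
  rcases i with _ | i
  · have : rhoP (fun j => j < 0) s = 1 := by
      ext x
      · simp [rhoP_f]
      · rfl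
    rw [this]; exact (HH S).one_mem
  · exact rhoP_mem_HH hS i s

lemma lamp_zero_mem_HH [IsSimpleGroup S] (hS : ∃ a b : S, a * b ≠ b * a) (i : ℕ) (s : S) :
    lamp ⟨i, 0⟩ s ∈ HH S := by
  have h1 := (HH S).mul_mem (rhoP_mem_HH hS i s) ((HH S).inv_mem (rhoP_lt_mem_HH hS i s))
  have e : rhoP (fun j => j < i + 1) s * (rhoP (fun j => j < i) s)⁻¹ = lamp ⟨i, 0⟩ s := by
    classical
    ext x
    · obtain ⟨j, y⟩ := x
      simp only [Gam.mul_f, Gam.inv_f, rhoP_k, neg_zero, sh_zero, rhoP_f]
      by_cases hj : j = i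
      · subst hj
        by_cases hy : y = 0
        · subst hy
          rw [lamp_f_self]
          simp
        · rw [lamp_f_ne (by simpa using hy)]
          simp [hy]
      · rw [lamp_f_ne (by
          intro h
          exact hj (congrArg Sigma.fst h))]
        have : j < i + 1 ↔ j < i := by omega
        simp only [this]
        split_ifs <;> simp
    · rfl
  rwa [e] at h1

lemma sh_natCast_zero (i : ℕ) (y : ZMod (2 ^ i)) : sh (y.val : ℤ) ⟨i, 0⟩ = ⟨i, y⟩ := by
  simp

lemma lamp_mem_HH [IsSimpleGroup S] (hS : ∃ a b : S, a * b ≠ b * a) (x : Lam) (s : S) :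
    lamp x s ∈ HH S := by
  obtain ⟨i, y⟩ := x
  have h1 := conj_lamp ((T : Gam S) ^ (y.val : ℤ)) ⟨i, 0⟩ s
  rw [T_zpow] at h1
  simp only [one_mul, inv_one, mul_one, sh_natCast_zero] at h1
  rw [← h1, ← T_zpow]
  have hT : (T : Gam S) ^ (y.val : ℤ) ∈ HH S := (HH S).zpow_mem T_mem_HH _
  exact (HH S).mul_mem ((HH S).mul_mem hT (lamp_zero_mem_HH hS i s)) ((HH S).inv_mem hT)

/-- Realising a finitely supported configuration on all large cycles, inside any subgroup that
contains the generators. -/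
lemma exists_realise (A : Finset ℤ) : ∀ f0 : ℤ → S, (∀ y, y ∉ A → f0 y = 1) →
    ∃ h ∈ HH S, h.k = 0 ∧ ∃ N : ℕ, ∀ i, N ≤ i → ∀ y : ZMod (2 ^ i), h.f ⟨i, y⟩ = f0 y.valMinAbs := by
  classical
  induction A using Finset.induction_on with
  | empty =>
    intro f0 hf0
    exact ⟨1, (HH S).one_mem, rfl, 0, fun i _ y => by simp [hf0 _]⟩
  | insert a A ha ih =>
    intro f0 hf0
    obtain ⟨h, hh, hk, N, hN⟩ := ih (Function.update f0 a 1) (by
      intro y hy
      by_cases hya : y = a
      · subst hya; simp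
      · rw [Function.update_of_ne hya]
        apply hf0; simp [hya, hy])
    have hT : (T : Gam S) ^ a ∈ HH S := (HH S).zpow_mem T_mem_HH _
    refine ⟨T ^ a * rho (f0 a) * (T ^ a)⁻¹ * h, (HH S).mul_mem ((HH S).mul_mem
      ((HH S).mul_mem hT (rho_mem_HH _)) ((HH S).inv_mem hT)) hh, ?_, max N (2 * a.natAbs), ?_⟩
    · rw [conj_T_rho]; simp [hk]
    · intro i hi y
      rw [conj_T_rho]
      have hiN : N ≤ i := le_trans (le_max_left _ _) hi
      have hia : 2 * a.natAbs ≤ i := le_trans (le_max_right _ _) hi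
      have hlt := lt_two_pow_int hia
      push_cast [Int.natCast_natAbs] at hlt
      simp only [Gam.mul_f, inl_f, inl_k, neg_zero, sh_zero]
      rw [hN i hiN y]
      by_cases hy : y = (a : ZMod (2 ^ i))
      · have hv : y.valMinAbs = a := vma_eq y hy hlt
        rw [if_pos hy, hv]
        simp
      · have hv : y.valMinAbs ≠ a := by
          intro hv
          apply hy
          rw [← hv, ZMod.coe_valMinAbs]
        rw [if_neg hy, Function.update_of_ne hv, one_mul]

/-- The finset of lamps on the cycles with index `< N`. -/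
def lamFin (N : ℕ) : Finset Lam := (Finset.range N).sigma (fun i => (Finset.univ : Finset (ZMod (2 ^ i))))

lemma mem_lamFin {N : ℕ} {x : Lam} : x ∈ lamFin N ↔ x.1 < N := by
  simp [lamFin]

lemma HH_eq_GG [IsSimpleGroup S] (hS : ∃ a b : S, a * b ≠ b * a) : HH S = GG S := by
  apply le_antisymm HH_le_GG
  intro g hg
  obtain ⟨f0, R, h1, h2⟩ := hg
  obtain ⟨h, hh, hk, N, hN⟩ := exists_realise (Finset.Icc (-(R : ℤ)) R) f0 (by
    intro y hy
    apply h1
    by_contra hcon
    push Not at hcon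
    apply hy
    rw [Finset.mem_Icc]
    exact abs_le.mp hcon)
  have hT : (T : Gam S) ^ g.k ∈ HH S := (HH S).zpow_mem T_mem_HH _
  have hu : h⁻¹ * g * (T ^ g.k)⁻¹ ∈ HH S := by
    have e : h⁻¹ * g * (T ^ g.k)⁻¹ = inl (h⁻¹ * g * (T ^ g.k)⁻¹).f := by
      apply eq_inl
      rw [T_zpow]; simp [hk]
    rw [e]
    apply inl_mem_of_lamps (HH S) (lamFin (max N R))
    · intro x _ s; exact lamp_mem_HH hS x s
    · intro x hx
      rw [mem_lamFin, not_lt] at hx
      obtain ⟨i, y⟩ := x
      have hxN : N ≤ i := le_trans (le_max_left _ _) hx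
      have hxR : R ≤ i := le_trans (le_max_right _ _) hx
      rw [T_zpow]
      simp only [Gam.mul_f, Gam.inv_f, hk, sh_zero, Gam.inv_k, neg_zero]
      rw [hN i hxN y, h2 i hxR y]
      simp
  have : g = h * (h⁻¹ * g * (T ^ g.k)⁻¹) * T ^ g.k := by group
  rw [this]
  exact (HH S).mul_mem ((HH S).mul_mem hh hu) hT

theorem GG_fg [IsSimpleGroup S] [Finite S] (hS : ∃ a b : S, a * b ≠ b * a) :
    Group.FG (GG S) := by
  rw [Group.fg_iff_subgroup_fg, ← HH_eq_GG hS]
  have hfin : ({T} ∪ Set.range (rho (S := S)) : Set (Gam S)).Finite :=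
    (Set.finite_singleton _).union (Set.finite_range _)
  exact ⟨hfin.toFinset, by rw [Set.Finite.coe_toFinset]; rfl⟩

end Pool.Agent.Helper90.IAS
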