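import Pool.Agent.Helper90.IASDefs

/-!
The group `G`: lamps over all the cycles `ZMod (2 ^ i)` simultaneously.
-/

namespace Pool.Agent.Helper90.IAS

/-- Lamp positions. -/
abbrev Lam : Type := Σ i : ℕ, ZMod (2 ^ i)

/-- Translation of all cycles by `k`. -/
def sh (k : ℤ) (x : Lam) : Lam := ⟨x.1, x.2 + (k : ZMod (2 ^ x.1))⟩

@[simp] lemma sh_fst (k : ℤ) (x : Lam) : (sh k x).1 = x.1 := rfl

@[simp] lemma sh_mk (k : ℤ) (i : ℕ) (y : ZMod (2 ^ i)) : sh k ⟨i, y⟩ = ⟨i, y + (k : ZMod (2 ^ i))⟩ :=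
  rfl

@[simp] lemma sh_zero (x : Lam) : sh 0 x = x := by
  obtain ⟨i, y⟩ := x
  simp [sh]

@[simp] lemma sh_sh (k l : ℤ) (x : Lam) : sh k (sh l x) = sh (k + l) x := by
  obtain ⟨i, y⟩ := x
  show (⟨i, y + (l : ZMod (2 ^ i)) + (k : ZMod (2 ^ i))⟩ : Lam) =
    ⟨i, y + ((k + l : ℤ) : ZMod (2 ^ i))⟩
  congr 1
  push_cast
  ring

lemma sh_neg_eq_iff (k : ℤ) (x y : Lam) : sh (-k) x = y ↔ x = sh k y := by
  constructor
  · rintro rfl; simp
  · rintro rfl; simp

set_option linter.unusedSectionVars false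

variable {S : Type} [Group S]

/-- The ambient (unrestricted) wreath product. -/
@[ext] structure Gam (S : Type) where
  f : Lam → S
  k : ℤ

namespace Gam

instance : Mul (Gam S) := ⟨fun a b => ⟨fun x => a.f x * b.f (sh (-a.k) x), a.k + b.k⟩⟩
instance : One (Gam S) := ⟨⟨fun _ => 1, 0⟩⟩
instance : Inv (Gam S) := ⟨fun a => ⟨fun x => (a.f (sh a.k x))⁻¹, -a.k⟩⟩

@[simp] lemma mul_f (a b : Gam S) (x : Lam) : (a * b).f x = a.f x * b.f (sh (-a.k) x) := rfl
@[simp] lemma mul_k (a b : Gam S) : (a * b).k = a.k + b.k := rfl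
@[simp] lemma one_f (x : Lam) : (1 : Gam S).f x = 1 := rfl
@[simp] lemma one_k : (1 : Gam S).k = 0 := rfl
@[simp] lemma inv_f (a : Gam S) (x : Lam) : (a⁻¹).f x = (a.f (sh a.k x))⁻¹ := rfl
@[simp] lemma inv_k (a : Gam S) : (a⁻¹).k = -a.k := rfl

instance : Group (Gam S) where
  mul_assoc a b c := by
    ext x
    · simp [mul_assoc, add_comm]
    · simp [add_assoc]
  one_mul a := by ext x <;> simp
  mul_one a := by ext x <;> simp
  inv_mul_cancel a := by ext x <;> simp

end Gam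

/-- Lamp configurations inside the ambient group. -/
def inl (w : Lam → S) : Gam S := ⟨w, 0⟩

@[simp] lemma inl_f (w : Lam → S) : (inl w).f = w := rfl
@[simp] lemma inl_k (w : Lam → S) : (inl w).k = 0 := rfl

lemma inl_mul (w w' : Lam → S) : inl w * inl w' = inl (fun x => w x * w' x) := by
  ext x <;> simp

lemma inl_inv (w : Lam → S) : (inl w)⁻¹ = inl (fun x => (w x)⁻¹) := by
  ext x <;> simp

lemma eq_inl {g : Gam S} (h : g.k = 0) : g = inl g.f := by
  ext x
  · rfl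
  · simpa using h

lemma conj_inl (g : Gam S) (w : Lam → S) :
    g * inl w * g⁻¹ = inl (fun x => g.f x * w (sh (-g.k) x) * (g.f x)⁻¹) := by
  ext x
  · simp
  · simp

/-- The translation. -/
def T : Gam S := ⟨fun _ => 1, 1⟩

@[simp] lemma T_f (x : Lam) : (T : Gam S).f x = 1 := rfl
@[simp] lemma T_k : (T : Gam S).k = 1 := rfl

lemma T_zpow (k : ℤ) : (T : Gam S) ^ k = ⟨fun _ => 1, k⟩ := by
  have h : ∀ n : ℕ, (T : Gam S) ^ n = ⟨fun _ => 1, n⟩ := by
    intro n
    induction n with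
    | zero => rfl
    | succ n ih => rw [pow_succ, ih]; ext x <;> simp
  rcases Int.eq_nat_or_neg k with ⟨n, rfl | rfl⟩
  · rw [zpow_natCast, h]
  · rw [zpow_neg, zpow_natCast, h]
    ext x <;> simp

open Classical in
/-- A single lamp. -/
noncomputable def lamp (x : Lam) (s : S) : Gam S := inl (Pi.mulSingle x s)

lemma lamp_mul (x : Lam) (s s' : S) : lamp x s * lamp x s' = lamp x (s * s') := by
  classical
  rw [lamp, lamp, inl_mul, lamp]
  congr 1
  funext y
  by_cases h : y = x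
  · subst h; simp
  · simp [h]

@[simp] lemma lamp_k (x : Lam) (s : S) : (lamp x s).k = 0 := rfl

lemma lamp_f_self (x : Lam) (s : S) : (lamp x s).f x = s := by simp [lamp]

lemma lamp_f_ne {x y : Lam} (h : y ≠ x) (s : S) : (lamp x s).f y = 1 := by simp [lamp, h]

@[simp] lemma lamp_one (x : Lam) : lamp x (1 : S) = 1 := by
  classical
  ext y
  · simp [lamp]
  · rfl

lemma lamp_inv (x : Lam) (s : S) : (lamp x s)⁻¹ = lamp x s⁻¹ := by
  rw [inv_eq_iff_mul_eq_one, lamp_mul]; simp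

lemma lamp_inj {x : Lam} {s s' : S} (h : lamp x s = lamp x s') : s = s' := by
  have := congrArg (fun g => g.f x) h
  simpa [lamp_f_self] using this

lemma conj_lamp (g : Gam S) (x : Lam) (s : S) :
    g * lamp x s * g⁻¹ = lamp (sh g.k x) (g.f (sh g.k x) * s * (g.f (sh g.k x))⁻¹) := by
  classical
  rw [lamp, conj_inl, lamp]
  congr 1
  funext y
  by_cases h : y = sh g.k x
  · subst h; simp
  · have h' : sh (-g.k) y ≠ x := by
      rw [Ne, sh_neg_eq_iff]; exact h
    simp [h, h']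

/-- Tame configurations: far out, all cycles look like one finitely supported configuration on
`ℤ`. -/
def Tame (w : Lam → S) : Prop :=
  ∃ (w0 : ℤ → S) (R : ℕ), (∀ y : ℤ, (R : ℤ) < |y| → w0 y = 1) ∧
    ∀ i, R ≤ i → ∀ y : ZMod (2 ^ i), w ⟨i, y⟩ = w0 y.valMinAbs

lemma vma_eq {i : ℕ} {v : ℤ} (y : ZMod (2 ^ i)) (h : y = (v : ZMod (2 ^ i)))
    (hv : 2 * |v| < 2 ^ i) : y.valMinAbs = v := by
  rw [ZMod.valMinAbs_spec]
  refine ⟨h, ?_⟩
  have := abs_lt.mp (show |2 * v| < 2 ^ i by rw [abs_mul]; simpa using hv)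
  push_cast
  constructor <;> linarith [this.1, this.2]

lemma lt_two_pow_int {R i : ℕ} (h : R ≤ i) : (R : ℤ) < 2 ^ i := by
  have : R < 2 ^ i := lt_of_le_of_lt h Nat.lt_two_pow_self
  exact_mod_cast this

lemma Tame.mul {w w' : Lam → S} (h : Tame w) (h' : Tame w') : Tame (fun x => w x * w' x) := by
  obtain ⟨w0, R, h1, h2⟩ := h
  obtain ⟨w0', R', h1', h2'⟩ := h'
  refine ⟨fun y => w0 y * w0' y, max R R', ?_, ?_⟩
  · intro y hy
    have : (R : ℤ) < |y| := lt_of_le_of_lt (by exact_mod_cast le_max_left R R') hy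
    have : (R' : ℤ) < |y| := lt_of_le_of_lt (by exact_mod_cast le_max_right R R') hy
    show w0 y * w0' y = 1
    rw [h1 y (by assumption), h1' y (by assumption), one_mul]
  · intro i hi y
    show w ⟨i, y⟩ * w' ⟨i, y⟩ = w0 _ * w0' _
    rw [h2 i (le_trans (le_max_left _ _) hi), h2' i (le_trans (le_max_right _ _) hi)]

lemma Tame.inv {w : Lam → S} (h : Tame w) : Tame (fun x => (w x)⁻¹) := by
  obtain ⟨w0, R, h1, h2⟩ := h
  refine ⟨fun y => (w0 y)⁻¹, R, ?_, ?_⟩
  · intro y hy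
    show (w0 y)⁻¹ = 1
    rw [h1 y hy, inv_one]
  · intro i hi y
    show (w ⟨i, y⟩)⁻¹ = (w0 _)⁻¹
    rw [h2 i hi]

lemma Tame.sh {w : Lam → S} (h : Tame w) (k : ℤ) : Tame (fun x => w (sh k x)) := by
  obtain ⟨w0, R, h1, h2⟩ := h
  refine ⟨fun y => w0 (y + k), 2 * (R + k.natAbs), ?_, ?_⟩
  · intro y hy
    apply h1
    have h3 : |y| ≤ |y + k| + |k| := by
      have := abs_sub (y + k) k
      simpa using this
    push_cast [Int.natCast_natAbs] at hy
    have h4 : 0 ≤ |k| := abs_nonneg k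
    have h5 : (0 : ℤ) ≤ R := Int.natCast_nonneg R
    linarith
  · intro i hi y
    have hlt := lt_two_pow_int hi
    push_cast [Int.natCast_natAbs] at hlt
    have hR0 : (0 : ℤ) ≤ R := Int.natCast_nonneg R
    have hk0 : 0 ≤ |k| := abs_nonneg k
    show w ⟨i, y + (k : ZMod (2 ^ i))⟩ = w0 (y.valMinAbs + k)
    rw [h2 i (by omega)]
    set v := y.valMinAbs with hv
    have hyv : y = (v : ZMod (2 ^ i)) := by rw [hv, ZMod.coe_valMinAbs]
    by_cases hc : |v + k| ≤ R
    · have : (y + (k : ZMod (2 ^ i))).valMinAbs = v + k := by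
        apply vma_eq
        · rw [hyv]; push_cast; ring
        · linarith
      rw [this]
    · push Not at hc
      rw [h1 (v + k) hc]
      apply h1
      by_contra hcon
      push Not at hcon
      set v' := (y + (k : ZMod (2 ^ i))).valMinAbs with hv'
      have hyv' : y + (k : ZMod (2 ^ i)) = (v' : ZMod (2 ^ i)) := by rw [hv', ZMod.coe_valMinAbs]
      have h5 : y.valMinAbs = v' - k := by
        apply vma_eq
        · push_cast
          rw [← hyv']; ring
        · have := abs_sub v' k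
          linarith
      have h6 : v + k = v' := by rw [hv, h5]; ring
      rw [h6] at hc
      linarith

lemma tame_one : Tame (fun _ : Lam => (1 : S)) :=
  ⟨fun _ => 1, 0, fun _ _ => rfl, fun _ _ _ => rfl⟩

/-- Configurations with values `1` on all large cycles are tame. -/
lemma tame_of_bounded {w : Lam → S} (N : ℕ) (h : ∀ x : Lam, N ≤ x.1 → w x = 1) : Tame w :=
  ⟨fun _ => 1, N, fun _ _ => rfl, fun i hi y => h ⟨i, y⟩ hi⟩

/-- The group `G`. -/
def GG (S : Type) [Group S] : Subgroup (Gam S) where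
  carrier := {g | Tame g.f}
  mul_mem' := by
    intro a b ha hb
    exact Tame.mul ha (Tame.sh hb (-a.k))
  one_mem' := tame_one
  inv_mem' := by
    intro a ha
    exact Tame.inv (Tame.sh ha a.k)

lemma mem_GG {g : Gam S} : g ∈ GG S ↔ Tame g.f := Iff.rfl

lemma T_mem : (T : Gam S) ∈ GG S := tame_one

lemma lamp_mem (x : Lam) (s : S) : lamp x s ∈ GG S := by
  apply tame_of_bounded (x.1 + 1)
  intro y hy
  apply lamp_f_ne
  rintro rfl
  omega

open Classical in
/-- The lamp at `0` switched simultaneously on the cycles with `P i`. -/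
noncomputable def rhoP (P : ℕ → Prop) (s : S) : Gam S :=
  inl (fun x => if x.2 = 0 ∧ P x.1 then s else 1)

/-- The lamp at `0` on all cycles. -/
noncomputable def rho (s : S) : Gam S := rhoP (fun _ => True) s

@[simp] lemma rhoP_k (P : ℕ → Prop) (s : S) : (rhoP P s).k = 0 := rfl

@[simp] lemma rho_k (s : S) : (rho s).k = 0 := rfl

open Classical in
lemma rhoP_f (P : ℕ → Prop) (s : S) (x : Lam) :
    (rhoP P s).f x = if x.2 = 0 ∧ P x.1 then s else 1 := rfl

open Classical in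
lemma rho_f (s : S) (x : Lam) : (rho s).f x = if x.2 = 0 then s else 1 := by
  simp [rho, rhoP_f]

lemma rho_mem (s : S) : rho s ∈ GG S := by
  classical
  refine ⟨fun y => if y = 0 then s else 1, 0, ?_, ?_⟩
  · intro y hy
    have : y ≠ 0 := by rintro rfl; simp at hy
    simp [this]
  · intro i _ y
    rw [rho_f]
    simp

lemma rhoP_mul (P : ℕ → Prop) (s s' : S) : rhoP P s * rhoP P s' = rhoP P (s * s') := by
  classical
  rw [rhoP, rhoP, inl_mul, rhoP]
  congr 1
  funext x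
  split_ifs <;> simp

lemma rhoP_inv (P : ℕ → Prop) (s : S) : (rhoP P s)⁻¹ = rhoP P s⁻¹ := by
  classical
  rw [rhoP, inl_inv, rhoP]
  congr 1
  funext x
  split_ifs <;> simp

@[simp] lemma rhoP_one (P : ℕ → Prop) : rhoP P (1 : S) = 1 := by
  classical
  ext x <;> simp [rhoP_f]

open Classical in
lemma conj_T_rho (m : ℤ) (s : S) :
    T ^ m * rho s * (T ^ m)⁻¹ = inl (fun x : Lam => if x.2 = (m : ZMod (2 ^ x.1)) then s else 1) := by
  rw [show rho s = inl (rho s).f from rfl, conj_inl]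
  congr 1
  funext x
  obtain ⟨i, y⟩ := x
  rw [T_zpow]
  have key : ((sh (-m) ⟨i, y⟩ : Lam).2 = 0) ↔ y = (m : ZMod (2 ^ i)) := by
    show y + ((-m : ℤ) : ZMod (2 ^ i)) = 0 ↔ _
    push_cast
    rw [← sub_eq_add_neg, sub_eq_zero]
  rw [rho_f]
  by_cases h : y = (m : ZMod (2 ^ i))
  · rw [if_pos (key.mpr h), if_pos h]
    simp
  · rw [if_neg (fun h' => h (key.mp h')), if_neg h]
    simp

/-- The basic commutator computation. -/
lemma comm_rho (m : ℤ) (s s' : S) :
    rho s * (T ^ m * rho s' * (T ^ m)⁻¹) * (rho s)⁻¹ * (T ^ m * rho s' * (T ^ m)⁻¹)⁻¹ =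
      rhoP (fun i => ((2 ^ i : ℕ) : ℤ) ∣ m) (s * s' * s⁻¹ * s'⁻¹) := by
  classical
  rw [conj_T_rho, show rho s = inl (rho s).f from rfl, inl_inv, inl_inv, inl_mul, inl_mul, inl_mul,
    rhoP]
  congr 1
  funext x
  obtain ⟨i, y⟩ := x
  rw [rho_f]
  have hm : ((2 ^ i : ℕ) : ℤ) ∣ m ↔ (m : ZMod (2 ^ i)) = 0 :=
    (ZMod.intCast_zmod_eq_zero_iff_dvd m (2 ^ i)).symm
  by_cases h0 : y = 0
  · by_cases h1 : (m : ZMod (2 ^ i)) = 0
    · have h2 : y = (m : ZMod (2 ^ i)) := by rw [h0, h1]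
      rw [if_pos h0, if_pos h2, if_pos ⟨h0, hm.mpr h1⟩]
    · have h2 : ¬ y = (m : ZMod (2 ^ i)) := by rw [h0]; exact fun h => h1 h.symm
      rw [if_pos h0, if_neg h2, if_neg (fun h => h1 (hm.mp h.2))]
      simp
  · simp [h0]

end Pool.Agent.Helper90.IAS
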