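import Mathlib

/-!
# Multiplier sequences and admissible functions of two variables: definitions
-/

open Polynomial

namespace Pool.Agent.Helper90.Multiplier

/-- A real polynomial has only real zeros; the zero polynomial is counted as having only
real zeros (the usual convention of the theory of multiplier sequences). -/
def RealRooted (p : ℝ[X]) : Prop :=
  p = 0 ∨ ∀ z : ℂ, aeval z p = 0 → z.im = 0

/-- The polynomial `∑ γ_k a_k x^k` attached to `p = ∑ a_k x^k`. -/
noncomputable def applySeq (γ : ℕ → ℝ) (p : ℝ[X]) : ℝ[X] :=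
  ∑ k ∈ Finset.range (p.natDegree + 1), C (γ k * p.coeff k) * X ^ k

/-- Multiplier sequences (of Pólya and Schur). -/
def IsMultiplierSeq (γ : ℕ → ℝ) : Prop :=
  ∀ p : ℝ[X], RealRooted p → RealRooted (applySeq γ p)

/-- `Ψ` is admissible: applied termwise to two multiplier sequences with non-negative terms
it always gives a multiplier sequence. -/
def Admissible (Ψ : ℝ × ℝ → ℝ) : Prop :=
  ∀ α β : ℕ → ℝ, IsMultiplierSeq α → IsMultiplierSeq β →
    (∀ k, 0 ≤ α k) → (∀ k, 0 ≤ β k) → IsMultiplierSeq (fun k => Ψ (α k, β k))

/-! The same notions when the zero polynomial is *not* counted as having only real zeros. -/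

/-- Every complex zero of the real polynomial `p` is real (false for the zero polynomial). -/
def StrictRealRooted (p : ℝ[X]) : Prop :=
  ∀ z : ℂ, aeval z p = 0 → z.im = 0

/-- Multiplier sequences, when the zero polynomial is excluded throughout. -/
def IsStrictMultiplierSeq (γ : ℕ → ℝ) : Prop :=
  ∀ p : ℝ[X], StrictRealRooted p → StrictRealRooted (applySeq γ p)

/-- Admissible functions, when the zero polynomial is excluded throughout. -/
def StrictAdmissible (Ψ : ℝ × ℝ → ℝ) : Prop :=
  ∀ α β : ℕ → ℝ, IsStrictMultiplierSeq α → IsStrictMultiplierSeq β →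
    (∀ k, 0 ≤ α k) → (∀ k, 0 ≤ β k) → IsStrictMultiplierSeq (fun k => Ψ (α k, β k))

end Pool.Agent.Helper90.Multiplier
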