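import Pool.Agent.Helper90.MultiplierProof

open Polynomial Filter Topology

namespace Pool.Agent.Helper90.Multiplier

set_option linter.unusedSimpArgs false

lemma RR.diff_aux {γ : ℕ → ℝ} (h : RR γ) (h0 : ∀ k, 0 ≤ γ k) (hm : Monotone γ) (l : ℝ)
    (hl0 : 0 < l) (hl1 : l < 1) (k : ℕ) :
    γ (k + 1) - l * γ k ≤ γ (k + 2) - l * γ (k + 1) := by
  by_contra hcon
  push Not at hcon
  set g : ℕ → ℝ := fun k => γ (k + 1) - l * γ k with hg
  have hRR : RR g := h.polar l
  have hlow : ∀ j, (1 - l) * γ (j + 1) ≤ g j := by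
    intro j
    have := hm (Nat.le_succ j)
    simp only [hg]
    nlinarith [this]
  have hup : ∀ j, g j ≤ γ (j + 1) := by
    intro j
    have := mul_nonneg hl0.le (h0 j)
    simp only [hg]
    linarith
  have hgnn : ∀ j, 0 ≤ g j := fun j =>
    (mul_nonneg (by linarith) (h0 _)).trans (hlow j)
  have hlt : g (k + 1) < g k := hcon
  have hgk : 0 < g k := (hgnn _).trans_lt hlt
  have hbig : ∀ i, (1 - l) * g k ≤ g (k + i) := by
    intro i
    have h1 : γ (k + 1) ≤ γ (k + i + 1) := hm (by omega)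
    have h2 : (1 - l) * g k ≤ (1 - l) * γ (k + i + 1) :=
      mul_le_mul_of_nonneg_left ((hup k).trans h1) (by linarith)
    exact h2.trans (hlow _)
  have hpos : ∀ i, 0 < g (k + i) := fun i =>
    (mul_pos (by linarith) hgk).trans_le (hbig i)
  set ρ := g (k + 1) / g k with hρ
  have hρ0 : 0 ≤ ρ := div_nonneg (hgnn _) hgk.le
  have hρ1 : ρ < 1 := (div_lt_one hgk).mpr hlt
  have hratio : ∀ i, g (k + i + 1) ≤ ρ * g (k + i) := by
    intro i
    induction i with
    | zero => simp only [add_zero]; rw [hρ, div_mul_cancel₀ _ hgk.ne']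
    | succ i ih =>
      have ht := hRR.turan (k + i)
      have h1 : g (k + i) * g (k + i + 2) ≤ g (k + i) * (ρ * g (k + i + 1)) := by
        calc g (k + i) * g (k + i + 2) ≤ g (k + i + 1) ^ 2 := ht
          _ = g (k + i + 1) * g (k + i + 1) := by ring
          _ ≤ g (k + i + 1) * (ρ * g (k + i)) := mul_le_mul_of_nonneg_left ih (hgnn _)
          _ = g (k + i) * (ρ * g (k + i + 1)) := by ring
      have := le_of_mul_le_mul_left h1 (hpos i)
      simpa [add_assoc] using this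
  have hpow : ∀ i, g (k + i) ≤ ρ ^ i * g k := by
    intro i
    induction i with
    | zero => simp
    | succ i ih =>
      calc g (k + (i + 1)) = g (k + i + 1) := rfl
        _ ≤ ρ * g (k + i) := hratio i
        _ ≤ ρ * (ρ ^ i * g k) := mul_le_mul_of_nonneg_left ih hρ0
        _ = ρ ^ (i + 1) * g k := by ring
  obtain ⟨i, hi⟩ := exists_pow_lt_of_lt_one (show (0 : ℝ) < 1 - l by linarith) hρ1
  have h1 := hbig i
  have h2 := hpow i
  have h3 : ρ ^ i * g k < (1 - l) * g k := mul_lt_mul_of_pos_right hi hgk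
  linarith

lemma RR.diff_monotone {γ : ℕ → ℝ} (h : RR γ) (h0 : ∀ k, 0 ≤ γ k) (hm : Monotone γ) :
    Monotone (fun k => γ (k + 1) - γ k) := by
  apply monotone_nat_of_le_succ
  intro k
  by_contra hcon
  push Not at hcon
  set D := (γ (k + 1) - γ k) - (γ (k + 1 + 1) - γ (k + 1)) with hD
  have hDpos : 0 < D := by rw [hD]; linarith
  set Q := γ (k + 1) - γ k with hQ
  have hQ0 : 0 ≤ Q := by
    have := hm (Nat.le_succ k)
    rw [hQ]; linarith
  have hden : 0 < D + Q + 1 := by linarith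
  set ε := D / (D + Q + 1) with hε
  have hε0 : 0 < ε := div_pos hDpos hden
  have hε1 : ε < 1 := by rw [hε, div_lt_one hden]; linarith
  have h1 := h.diff_aux h0 hm (1 - ε) (by linarith) (by linarith) k
  have h2 : D ≤ ε * Q := by
    rw [hD, hQ]
    have : γ (k + 2) = γ (k + 1 + 1) := rfl
    nlinarith [h1]
  have h3 : ε * Q < D := by
    rw [hε, div_mul_eq_mul_div, div_lt_iff₀ hden]
    nlinarith
  linarith

lemma RR.iter {γ : ℕ → ℝ} (h : RR γ) (h0 : ∀ k, 0 ≤ γ k) (hm : Monotone γ) (j : ℕ) :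
    RR ((fwdDiff 1)^[j] γ) ∧ (∀ k, 0 ≤ (fwdDiff 1)^[j] γ k) ∧ Monotone ((fwdDiff 1)^[j] γ) := by
  induction j with
  | zero => exact ⟨h, h0, hm⟩
  | succ j ih =>
    obtain ⟨i1, i2, i3⟩ := ih
    rw [Function.iterate_succ_apply']
    set δ := (fwdDiff 1)^[j] γ with hδ
    have e : fwdDiff 1 δ = fun k => δ (k + 1) - δ k := by
      funext k; rfl
    rw [e]
    refine ⟨by simpa using i1.polar 1, ?_, i1.diff_monotone i2 i3⟩
    intro k
    have := i3 (Nat.le_succ k)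
    simp only [Nat.succ_eq_add_one] at this
    linarith

lemma RR.exists_poly {γ : ℕ → ℝ} (h : RR γ) (h0 : ∀ k, 0 ≤ γ k) (hm : Monotone γ)
    {K : ℝ} {B : ℕ} (hB : ∀ k : ℕ, γ k ≤ K * ((k : ℝ) + 1) ^ B) :
    ∃ P : ℝ[X], ∀ k : ℕ, γ k = P.eval (k : ℝ) := by
  have hN : ∀ n, γ n = ∑ k ∈ Finset.range (n + 1), (n.choose k : ℝ) * (fwdDiff 1)^[k] γ 0 := by
    intro n
    have := shift_eq_sum_fwdDiff_iter 1 γ n 0
    simpa [nsmul_eq_mul] using this
  have hnn : ∀ j k, 0 ≤ (fwdDiff 1)^[j] γ k := fun j => (h.iter h0 hm j).2.1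
  have hK : 0 ≤ K := by
    have h1 := hB 0
    have h2 := h0 0
    simp at h1
    linarith
  have hzero : ∀ j, B < j → (fwdDiff 1)^[j] γ 0 = 0 := by
    intro j hj
    by_contra hne
    have hpos : 0 < (fwdDiff 1)^[j] γ 0 := lt_of_le_of_ne (hnn j 0) (Ne.symm hne)
    set D := (fwdDiff 1)^[j] γ 0 with hD
    have hfac : (0 : ℝ) < (j.factorial : ℝ) := by exact_mod_cast j.factorial_pos
    have key : ∀ m : ℕ, ((m : ℝ) + 1) * D ≤ (j.factorial : ℝ) * (K * ((j : ℝ) + 1) ^ B) := by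
      intro m
      have h1 : ((m + j).choose j : ℝ) * D ≤ γ (m + j) := by
        rw [hN (m + j)]
        apply Finset.single_le_sum (f := fun k => ((m + j).choose k : ℝ) * (fwdDiff 1)^[k] γ 0)
        · intro i _
          exact mul_nonneg (Nat.cast_nonneg _) (hnn i 0)
        · simp
      have h2 : ((m : ℝ) + 1) ^ j ≤ (j.factorial : ℝ) * ((m + j).choose j : ℝ) := by
        have h3 : (m + 1) ^ j ≤ (m + j).descFactorial j := by
          have := Nat.pow_sub_le_descFactorial (m + j) j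
          have e : m + j + 1 - j = m + 1 := by omega
          rwa [e] at this
        rw [Nat.descFactorial_eq_factorial_mul_choose] at h3
        exact_mod_cast h3
      have h4 := hB (m + j)
      have h5 : (((m + j : ℕ) : ℝ) + 1) ^ B ≤ (((j : ℝ) + 1) * ((m : ℝ) + 1)) ^ B := by
        apply pow_le_pow_left₀ (by positivity)
        push_cast
        have : (0 : ℝ) ≤ (j : ℝ) * m := by positivity
        nlinarith
      have h6 : ((m : ℝ) + 1) ^ j * D ≤
          (j.factorial : ℝ) * (K * (((j : ℝ) + 1) * ((m : ℝ) + 1)) ^ B) := by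
        calc ((m : ℝ) + 1) ^ j * D ≤ ((j.factorial : ℝ) * ((m + j).choose j : ℝ)) * D :=
              mul_le_mul_of_nonneg_right h2 hpos.le
          _ = (j.factorial : ℝ) * (((m + j).choose j : ℝ) * D) := by ring
          _ ≤ (j.factorial : ℝ) * γ (m + j) := mul_le_mul_of_nonneg_left h1 hfac.le
          _ ≤ (j.factorial : ℝ) * (K * (((m + j : ℕ) : ℝ) + 1) ^ B) :=
              mul_le_mul_of_nonneg_left h4 hfac.le
          _ ≤ _ := mul_le_mul_of_nonneg_left (mul_le_mul_of_nonneg_left h5 hK) hfac.le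
      obtain ⟨d, rfl⟩ : ∃ d, j = B + 1 + d := ⟨j - (B + 1), by omega⟩
      have hm1 : (1 : ℝ) ≤ (m : ℝ) + 1 := by
        have : (0 : ℝ) ≤ m := Nat.cast_nonneg m
        linarith
      have hmB : (0 : ℝ) < ((m : ℝ) + 1) ^ B := by positivity
      have h7 : ((m : ℝ) + 1) ^ B * (((m : ℝ) + 1) * D) ≤ ((m : ℝ) + 1) ^ (B + 1 + d) * D := by
        have : ((m : ℝ) + 1) ^ (B + 1) ≤ ((m : ℝ) + 1) ^ (B + 1 + d) :=
          pow_le_pow_right₀ hm1 (by omega)
        calc ((m : ℝ) + 1) ^ B * (((m : ℝ) + 1) * D) = ((m : ℝ) + 1) ^ (B + 1) * D := by ring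
          _ ≤ _ := mul_le_mul_of_nonneg_right this hpos.le
      have h8 : ((m : ℝ) + 1) ^ B * (((m : ℝ) + 1) * D) ≤ ((m : ℝ) + 1) ^ B *
          (((B + 1 + d).factorial : ℝ) * (K * (((B + 1 + d : ℕ) : ℝ) + 1) ^ B)) := by
        refine h7.trans (h6.trans (le_of_eq ?_))
        rw [mul_pow]; ring
      exact le_of_mul_le_mul_left h8 hmB
    obtain ⟨m, hm'⟩ := exists_nat_gt (((j.factorial : ℝ) * (K * ((j : ℝ) + 1) ^ B)) / D)
    rw [div_lt_iff₀ hpos] at hm'
    have := key m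
    nlinarith
  refine ⟨∑ k ∈ Finset.range (B + 1),
    C ((fwdDiff 1)^[k] γ 0 / (k.factorial : ℝ)) * descPochhammer ℝ k, ?_⟩
  intro n
  rw [hN n, eval_finsetSum]
  have e1 : ∀ k, (C ((fwdDiff 1)^[k] γ 0 / (k.factorial : ℝ)) * descPochhammer ℝ k).eval (n : ℝ) =
      (n.choose k : ℝ) * (fwdDiff 1)^[k] γ 0 := by
    intro k
    rw [eval_mul, eval_C, descPochhammer_eval_eq_descFactorial,
      Nat.descFactorial_eq_factorial_mul_choose]
    have : (k.factorial : ℝ) ≠ 0 := by exact_mod_cast k.factorial_ne_zero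
    push_cast
    field_simp
  simp only [e1]
  have s1 : ∑ k ∈ Finset.range (n + 1), (n.choose k : ℝ) * (fwdDiff 1)^[k] γ 0 =
      ∑ k ∈ Finset.range (n + 1 + (B + 1)), (n.choose k : ℝ) * (fwdDiff 1)^[k] γ 0 := by
    apply Finset.sum_subset
    · intro x hx; simp only [Finset.mem_range] at hx ⊢; omega
    · intro x _ hx
      simp only [Finset.mem_range, not_lt] at hx
      rw [Nat.choose_eq_zero_of_lt (by omega)]; simp
  have s2 : ∑ k ∈ Finset.range (B + 1), (n.choose k : ℝ) * (fwdDiff 1)^[k] γ 0 =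
      ∑ k ∈ Finset.range (n + 1 + (B + 1)), (n.choose k : ℝ) * (fwdDiff 1)^[k] γ 0 := by
    apply Finset.sum_subset
    · intro x hx; simp only [Finset.mem_range] at hx ⊢; omega
    · intro x _ hx
      simp only [Finset.mem_range, not_lt] at hx
      rw [hzero x (by omega)]; simp
  rw [s1, s2]

/-! ### Functions of one variable -/

/-- `Φ` maps positive multiplier sequences to multiplier sequences. -/
def PosPres (Φ : ℝ → ℝ) : Prop :=
  ∀ α : ℕ → ℝ, IsMultiplierSeq α → (∀ k, 0 < α k) → IsMultiplierSeq (fun k => Φ (α k))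

lemma PosPres.neg {Φ : ℝ → ℝ} (h : PosPres Φ) : PosPres (fun x => - Φ x) := by
  intro α hα hpos
  simpa using (h α hα hpos).const_mul (-1)

lemma PosPres.scale {Φ : ℝ → ℝ} (h : PosPres Φ) {c : ℝ} (hc : 0 < c) :
    PosPres (fun x => Φ (c * x)) := by
  intro α hα hpos
  exact h _ (hα.const_mul c) (fun k => mul_pos hc (hpos k))

lemma PosPres.geom {Φ : ℝ → ℝ} (h : PosPres Φ) {s r : ℝ} (hs : 0 < s) (hr : 0 < r) :
    IsMultiplierSeq (fun k => Φ (s * r ^ k)) :=
  h _ ((isMultiplierSeq_geom r).const_mul s) (fun k => mul_pos hs (pow_pos hr k))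

lemma PosPres.turan {Φ : ℝ → ℝ} (h : PosPres Φ) {s t : ℝ} (hs : 0 < s) (ht : 0 < t) :
    Φ s * Φ (t ^ 2 / s) ≤ Φ t ^ 2 := by
  have h1 := (h.geom hs (div_pos ht hs)).rr.turan 0
  have e0 : s * (t / s) ^ 0 = s := by simp
  have e1 : s * (t / s) ^ (0 + 1) = t := by rw [zero_add, pow_one]; field_simp
  have e2 : s * (t / s) ^ (0 + 2) = t ^ 2 / s := by rw [zero_add, div_pow]; field_simp
  simp only [e0, e1, e2] at h1
  exact h1

lemma PosPres.sign {Φ : ℝ → ℝ} (h : PosPres Φ) {x y : ℝ} (hx : 0 < x) (hy : 0 < y) :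
    0 ≤ Φ x * Φ y := by
  have hq : 0 < y / x := div_pos hy hx
  have h1 := (h.geom hx (Real.sqrt_pos.mpr hq)).sign
  have e0 : x * (Real.sqrt (y / x)) ^ 0 = x := by simp
  have e2 : x * (Real.sqrt (y / x)) ^ 2 = y := by
    rw [Real.sq_sqrt hq.le]; field_simp
  simp only [e0, e2] at h1
  exact h1

lemma PosPres.mono {Φ : ℝ → ℝ} (h : PosPres Φ) (hnn : ∀ x, 0 < x → 0 ≤ Φ x) {u v : ℝ}
    (hu : 0 < u) (huv : u ≤ v) : Φ u ≤ Φ v := by
  have hv : 0 < v := hu.trans_le huv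
  set w := v / u with hw
  have hw1 : 1 ≤ w := by rw [hw, one_le_div hu]; exact huv
  have hvw : v = u * w := by rw [hw]; field_simp
  set s := Real.sqrt (w ^ 2 - 1) with hs
  have hs2 : s ^ 2 = w ^ 2 - 1 := Real.sq_sqrt (by nlinarith)
  have hs0 : 0 ≤ s := Real.sqrt_nonneg _
  have hws : 0 < w + s := by linarith
  have hlin : IsMultiplierSeq (fun k : ℕ => 1 + (s * (w + s)) * k) :=
    isMultiplierSeq_linear zero_le_one (by positivity)
  have hgeo : IsMultiplierSeq (fun k => (1 / (w + s)) ^ k) := isMultiplierSeq_geom _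
  have hα := (hlin.mul hgeo).const_mul u
  have h1 := (h _ hα (fun k => by positivity)).rr.turan 0
  have e0 : u * ((1 + (s * (w + s)) * ((0 : ℕ) : ℝ)) * (1 / (w + s)) ^ 0) = u := by simp
  have e1 : u * ((1 + (s * (w + s)) * ((0 + 1 : ℕ) : ℝ)) * (1 / (w + s)) ^ (0 + 1)) = v := by
    have a1 : 1 + (s * (w + s)) * ((0 + 1 : ℕ) : ℝ) = w * (w + s) := by
      push_cast; linear_combination hs2
    rw [a1, hvw, zero_add, pow_one]
    field_simp
  have e2 : u * ((1 + (s * (w + s)) * ((0 + 2 : ℕ) : ℝ)) * (1 / (w + s)) ^ (0 + 2)) = u := by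
    have a2 : 1 + (s * (w + s)) * ((0 + 2 : ℕ) : ℝ) = (w + s) ^ 2 := by
      push_cast; linear_combination hs2
    rw [a2, zero_add, div_pow, one_pow]
    field_simp
  simp only [e0, e1, e2] at h1
  have h2 := hnn u hu
  have h3 := hnn v hv
  nlinarith

lemma PosPres.growth {Φ : ℝ → ℝ} (h : PosPres Φ) (hnn : ∀ x, 0 < x → 0 ≤ Φ x)
    (h1 : 0 < Φ 1) : ∃ (K : ℝ) (B : ℕ), ∀ N : ℕ, Φ ((N : ℝ) + 1) ≤ K * ((N : ℝ) + 1) ^ B := by
  set g : ℕ → ℝ := fun k => Φ (2 ^ k) with hg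
  have hRR : RR g := by
    have := (h.geom one_pos (two_pos)).rr
    simpa [hg] using this
  have hg0 : g 0 = Φ 1 := by simp [hg]
  have hge : ∀ k, g 0 ≤ g k := by
    intro k
    rw [hg0]
    exact h.mono hnn one_pos (one_le_pow₀ one_le_two)
  have hpos : ∀ k, 0 < g k := fun k => (hg0 ▸ h1).trans_le (hge k)
  set ρ := g 1 / g 0 with hρ
  have hρ0 : 0 ≤ ρ := (div_pos (hpos 1) (hpos 0)).le
  have hratio : ∀ i, g (i + 1) ≤ ρ * g i := by
    intro i
    induction i with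
    | zero => rw [hρ, div_mul_cancel₀ _ (hpos 0).ne']
    | succ i ih =>
      have ht := hRR.turan i
      have h1 : g i * g (i + 2) ≤ g i * (ρ * g (i + 1)) := by
        calc g i * g (i + 2) ≤ g (i + 1) ^ 2 := ht
          _ = g (i + 1) * g (i + 1) := by ring
          _ ≤ g (i + 1) * (ρ * g i) := mul_le_mul_of_nonneg_left ih (hpos _).le
          _ = g i * (ρ * g (i + 1)) := by ring
      exact le_of_mul_le_mul_left h1 (hpos i)
  have hpow : ∀ i, g i ≤ ρ ^ i * g 0 := by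
    intro i
    induction i with
    | zero => simp
    | succ i ih =>
      calc g (i + 1) ≤ ρ * g i := hratio i
        _ ≤ ρ * (ρ ^ i * g 0) := mul_le_mul_of_nonneg_left ih hρ0
        _ = ρ ^ (i + 1) * g 0 := by ring
  obtain ⟨B, hB⟩ := pow_unbounded_of_one_lt ρ (one_lt_two)
  refine ⟨g 0 * 2 ^ B, B, fun N => ?_⟩
  set k := (Nat.log 2 (N + 1)).succ with hk
  have hlt : ((N : ℝ) + 1) ≤ 2 ^ k := by
    have := (Nat.lt_pow_succ_log_self one_lt_two (N + 1)).le
    exact_mod_cast this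
  have hle : (2 : ℝ) ^ k ≤ 2 * ((N : ℝ) + 1) := by
    have := Nat.pow_log_le_self 2 (Nat.succ_ne_zero N)
    rw [hk, pow_succ, mul_comm]
    have h2 : (2 : ℝ) ^ (Nat.log 2 (N + 1)) ≤ (N : ℝ) + 1 := by exact_mod_cast this
    linarith
  have hN0 : (0 : ℝ) < (N : ℝ) + 1 := by positivity
  calc Φ ((N : ℝ) + 1) ≤ g k := h.mono hnn hN0 hlt
    _ ≤ ρ ^ k * g 0 := hpow k
    _ ≤ (2 ^ B) ^ k * g 0 := mul_le_mul_of_nonneg_right (pow_le_pow_left₀ hρ0 hB.le k) (hpos 0).le
    _ = g 0 * (2 ^ k) ^ B := by rw [← pow_mul, ← pow_mul, mul_comm B k]; ring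
    _ ≤ g 0 * (2 * ((N : ℝ) + 1)) ^ B :=
        mul_le_mul_of_nonneg_left (pow_le_pow_left₀ (by positivity) hle B) (hpos 0).le
    _ = g 0 * 2 ^ B * ((N : ℝ) + 1) ^ B := by rw [mul_pow]; ring

lemma PosPres.poly_nat {Φ : ℝ → ℝ} (h : PosPres Φ) (hnn : ∀ x, 0 < x → 0 ≤ Φ x)
    (h1 : 0 < Φ 1) (n : ℕ) (hn : 0 < n) :
    ∃ P : ℝ[X], ∀ m : ℕ, 0 < m → Φ ((m : ℝ) / n) = P.eval (m : ℝ) := by
  obtain ⟨K, B, hKB⟩ := h.growth hnn h1
  have hn' : (0 : ℝ) < n := by exact_mod_cast hn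
  have hn1 : (1 : ℝ) ≤ n := by exact_mod_cast hn
  have hα : IsMultiplierSeq (fun k : ℕ => 1 / (n : ℝ) + 1 / (n : ℝ) * k) :=
    isMultiplierSeq_linear (by positivity) (by positivity)
  have hγ := (h _ hα (fun k => by positivity)).rr
  obtain ⟨P, hP⟩ := hγ.exists_poly (fun k => hnn _ (by positivity))
    (by
      apply monotone_nat_of_le_succ
      intro k
      apply h.mono hnn (by positivity)
      push_cast
      have : (0 : ℝ) < 1 / n := by positivity
      linarith)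
    (K := K) (B := B)
    (by
      intro k
      refine le_trans (h.mono hnn (by positivity) ?_) (hKB k)
      have : 1 / (n : ℝ) ≤ 1 := by rw [div_le_one hn']; exact hn1
      have hk : (0 : ℝ) ≤ k := Nat.cast_nonneg k
      nlinarith)
  refine ⟨P.comp (X - C 1), ?_⟩
  intro m hm
  obtain ⟨k, rfl⟩ : ∃ k, m = k + 1 := ⟨m - 1, by omega⟩
  have h2 := hP k
  have e : ((k + 1 : ℕ) : ℝ) / n = 1 / (n : ℝ) + 1 / (n : ℝ) * k := by
    push_cast; field_simp; ring
  rw [e, h2]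
  simp

lemma PosPres.poly_rat {Φ : ℝ → ℝ} (h : PosPres Φ) (hnn : ∀ x, 0 < x → 0 ≤ Φ x)
    (h1 : 0 < Φ 1) :
    ∃ P : ℝ[X], ∀ q : ℚ, 0 < q → Φ (q : ℝ) = P.eval (q : ℝ) := by
  obtain ⟨P, hP⟩ := h.poly_nat hnn h1 1 one_pos
  refine ⟨P, ?_⟩
  intro q hq
  have hden : 0 < q.den := q.den_pos
  have hnum : 0 < q.num := Rat.num_pos.mpr hq
  obtain ⟨m, hm⟩ : ∃ m : ℕ, q.num = m := ⟨q.num.toNat, by omega⟩
  have hm0 : 0 < m := by omega
  obtain ⟨Q, hQ⟩ := h.poly_nat hnn h1 q.den hden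
  have hd : ((q.den : ℕ) : ℝ) ≠ 0 := by exact_mod_cast hden.ne'
  have e : (q : ℝ) = (m : ℝ) / (q.den : ℝ) := by
    rw [Rat.cast_def, hm]; simp
  have hcomp : Q.comp (C (q.den : ℝ) * X) = P := by
    apply Polynomial.eq_of_infinite_eval_eq
    apply Set.infinite_of_injective_forall_mem (f := fun n : ℕ => (n : ℝ) + 1)
    · intro a b hab
      simpa using hab
    · intro n
      show eval _ _ = eval _ _
      have h3 := hP (n + 1) (Nat.succ_pos n)
      have h4 := hQ (q.den * (n + 1)) (by positivity)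
      have e4 : ((q.den * (n + 1) : ℕ) : ℝ) / (q.den : ℝ) = ((n + 1 : ℕ) : ℝ) / ((1 : ℕ) : ℝ) := by
        push_cast; field_simp
      rw [e4, h3] at h4
      rw [eval_comp]
      push_cast at h4
      simpa using h4.symm
  rw [e, hQ m hm0, ← hcomp, eval_comp]
  congr 1
  simp
  field_simp

lemma PosPres.poly_real {Φ : ℝ → ℝ} (h : PosPres Φ) (hnn : ∀ x, 0 < x → 0 ≤ Φ x)
    (h1 : 0 < Φ 1) :
    ∃ P : ℝ[X], ∀ x : ℝ, 0 < x → Φ x = P.eval x := by
  obtain ⟨P, hP⟩ := h.poly_rat hnn h1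
  refine ⟨P, ?_⟩
  intro x hx
  apply le_antisymm
  · by_contra hcon
    push Not at hcon
    have hev := (P.continuous.tendsto x).eventually (gt_mem_nhds hcon)
    obtain ⟨ε, hε, hball⟩ := Metric.eventually_nhds_iff.mp hev
    obtain ⟨q, hq1, hq2⟩ := exists_rat_btwn (show x < x + ε by linarith)
    have h2 : P.eval (q : ℝ) < Φ x := hball (by
      rw [Real.dist_eq, abs_lt]; constructor <;> linarith)
    have hq0 : 0 < q := by
      have : (0 : ℝ) < q := hx.trans hq1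
      exact_mod_cast this
    have h3 := h.mono hnn hx hq1.le
    rw [hP q hq0] at h3
    linarith
  · by_contra hcon
    push Not at hcon
    have hev := (P.continuous.tendsto x).eventually (lt_mem_nhds hcon)
    obtain ⟨ε, hε, hball⟩ := Metric.eventually_nhds_iff.mp hev
    obtain ⟨q, hq1, hq2⟩ := exists_rat_btwn (show max 0 (x - ε) < x by
      rw [max_lt_iff]; constructor <;> linarith)
    rw [max_lt_iff] at hq1
    have h2 : Φ x < P.eval (q : ℝ) := hball (by
      rw [Real.dist_eq, abs_lt]; constructor <;> linarith [hq1.2])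
    have hq0 : 0 < q := by exact_mod_cast hq1.1
    have h3 := h.mono hnn hq1.1 hq2.le
    rw [hP q hq0] at h3
    linarith

lemma PosPres.monomial_aux {Φ : ℝ → ℝ} (h : PosPres Φ) (hnn : ∀ x, 0 < x → 0 ≤ Φ x)
    (h1 : 0 < Φ 1) : ∃ (c : ℝ) (i : ℕ), ∀ x : ℝ, 0 < x → Φ x = c * x ^ i := by
  obtain ⟨P, hP⟩ := h.poly_real hnn h1
  have hP0 : P ≠ 0 := by
    rintro rfl
    have := hP 1 one_pos
    simp at this
    linarith
  obtain ⟨Q, hQ, hQ0⟩ := Polynomial.exists_eq_pow_rootMultiplicity_mul_and_not_dvd P hP0 0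
  set i := P.rootMultiplicity 0 with hi
  have hPQ : ∀ x, P.eval x = x ^ i * Q.eval x := by
    intro x
    conv_lhs => rw [hQ]
    simp
  have hQne : Q.eval 0 ≠ 0 := by
    intro h0
    exact hQ0 (dvd_iff_isRoot.mpr h0)
  have hQnn : ∀ x, 0 < x → 0 ≤ Q.eval x := by
    intro x hx
    have h2 := hnn x hx
    rw [hP x hx, hPQ] at h2
    exact (mul_nonneg_iff_of_pos_left (pow_pos hx i)).mp h2
  have hQ0nn : 0 ≤ Q.eval 0 := by
    have ht : Tendsto (fun x => Q.eval x) (𝓝[>] 0) (𝓝 (Q.eval 0)) :=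
      (Q.continuous.tendsto 0).mono_left nhdsWithin_le_nhds
    refine ge_of_tendsto ht ?_
    filter_upwards [self_mem_nhdsWithin] with x hx using hQnn x hx
  have hQ0pos : 0 < Q.eval 0 := lt_of_le_of_ne hQ0nn (Ne.symm hQne)
  have hturan : ∀ s t, 0 < s → 0 < t → Q.eval s * Q.eval (t ^ 2 / s) ≤ Q.eval t ^ 2 := by
    intro s t hs ht
    have h2 := h.turan hs ht
    rw [hP s hs, hP t ht, hP _ (by positivity), hPQ, hPQ, hPQ] at h2
    have e : s ^ i * Q.eval s * ((t ^ 2 / s) ^ i * Q.eval (t ^ 2 / s)) =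
        (t ^ i) ^ 2 * (Q.eval s * Q.eval (t ^ 2 / s)) := by
      rw [div_pow]
      field_simp
      ring
    rw [e, mul_pow] at h2
    exact le_of_mul_le_mul_left h2 (by positivity)
  have hbd : ∀ s, 0 < s → Q.eval s ≤ Q.eval 0 := by
    intro s hs
    have ht1 : Tendsto (fun t : ℝ => Q.eval s * Q.eval (t ^ 2 / s)) (𝓝[>] 0)
        (𝓝 (Q.eval s * Q.eval 0)) := by
      have hc : Continuous (fun t : ℝ => Q.eval s * Q.eval (t ^ 2 / s)) := by
        have := Q.continuous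
        fun_prop
      have := (hc.tendsto 0).mono_left (nhdsWithin_le_nhds (s := Set.Ioi 0))
      simpa using this
    have ht2 : Tendsto (fun t : ℝ => Q.eval t ^ 2) (𝓝[>] 0) (𝓝 (Q.eval 0 ^ 2)) :=
      ((Q.continuous.pow 2).tendsto 0).mono_left nhdsWithin_le_nhds
    have h3 : Q.eval s * Q.eval 0 ≤ Q.eval 0 ^ 2 := by
      refine le_of_tendsto_of_tendsto ht1 ht2 ?_
      filter_upwards [self_mem_nhdsWithin] with t ht using hturan s t hs ht
    rw [sq] at h3
    exact le_of_mul_le_mul_right h3 hQ0pos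
  have hdeg : ¬ 0 < Q.degree := by
    intro hdeg
    have ht := Polynomial.abs_tendsto_atTop Q hdeg
    have h2 := (ht.eventually (eventually_gt_atTop (Q.eval 0))).and (eventually_gt_atTop 0)
    obtain ⟨x, hx1, hx2⟩ := h2.exists
    rw [abs_of_nonneg (hQnn x hx2)] at hx1
    linarith [hbd x hx2]
  have hQC : Q = C (Q.coeff 0) := eq_C_of_degree_le_zero (not_lt.mp hdeg)
  refine ⟨Q.coeff 0, i, ?_⟩
  intro x hx
  rw [hP x hx, hPQ, mul_comm]
  congr 1
  rw [hQC]; simp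

/-- **One variable.** -/
theorem PosPres.monomial {Φ : ℝ → ℝ} (h : PosPres Φ) :
    ∃ (c : ℝ) (i : ℕ), ∀ x : ℝ, 0 < x → Φ x = c * x ^ i := by
  -- a nonnegative version
  have key : ∀ Φ : ℝ → ℝ, PosPres Φ → (∀ x, 0 < x → 0 ≤ Φ x) →
      ∃ (c : ℝ) (i : ℕ), ∀ x : ℝ, 0 < x → Φ x = c * x ^ i := by
    intro Φ h hnn
    by_cases hz : ∀ x, 0 < x → Φ x = 0
    · exact ⟨0, 0, fun x hx => by rw [hz x hx]; simp⟩
    push Not at hz
    obtain ⟨x0, hx0, hne⟩ := hz
    have hpos : 0 < Φ x0 := lt_of_le_of_ne (hnn x0 hx0) (Ne.symm hne)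
    obtain ⟨c, i, hci⟩ := (h.scale hx0).monomial_aux (fun x hx => hnn _ (mul_pos hx0 hx))
      (by simpa using hpos)
    refine ⟨c / x0 ^ i, i, ?_⟩
    intro x hx
    have := hci (x / x0) (div_pos hx hx0)
    rw [mul_div_cancel₀ _ hx0.ne'] at this
    rw [this, div_pow]
    field_simp
  by_cases hall : ∀ x, 0 < x → 0 ≤ Φ x
  · exact key Φ h hall
  · push Not at hall
    obtain ⟨x0, hx0, hneg⟩ := hall
    obtain ⟨c, i, hci⟩ := key _ h.neg (by
      intro x hx
      have := h.sign hx0 hx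
      by_contra hcon
      push Not at hcon
      have h3 : 0 < Φ x := by linarith
      nlinarith)
    exact ⟨-c, i, fun x hx => by have := hci x hx; linarith⟩

end Pool.Agent.Helper90.Multiplier
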