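import Pool.Agent.Helper90.MultiplierDefs

open Polynomial Filter Topology

namespace Pool.Agent.Helper90.Multiplier

set_option linter.unusedSimpArgs false

lemma applySeq_coeff (γ : ℕ → ℝ) (p : ℝ[X]) (k : ℕ) :
    (applySeq γ p).coeff k = γ k * p.coeff k := by
  unfold applySeq
  simp only [finsetSum_coeff, coeff_C_mul, coeff_X_pow, mul_ite, mul_one, mul_zero]
  rw [Finset.sum_ite_eq]
  split_ifs with h
  · rfl
  · have : p.natDegree < k := by
      simp only [Finset.mem_range, not_lt] at h; omega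
    rw [coeff_eq_zero_of_natDegree_lt this, mul_zero]

lemma applySeq_zero (γ : ℕ → ℝ) : applySeq γ 0 = 0 := by
  ext k; simp [applySeq_coeff]

lemma applySeq_mul (γ δ : ℕ → ℝ) (p : ℝ[X]) :
    applySeq (fun k => γ k * δ k) p = applySeq γ (applySeq δ p) := by
  ext k; simp [applySeq_coeff, mul_assoc]

lemma IsMultiplierSeq.mul {γ δ : ℕ → ℝ} (h1 : IsMultiplierSeq γ) (h2 : IsMultiplierSeq δ) :
    IsMultiplierSeq (fun k => γ k * δ k) := by
  intro p hp
  rw [applySeq_mul]
  exact h1 _ (h2 _ hp)

lemma isMultiplierSeq_const (c : ℝ) : IsMultiplierSeq (fun _ => c) := by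
  intro p hp
  have : applySeq (fun _ => c) p = C c * p := by
    ext k; simp [applySeq_coeff]
  rw [this]
  by_cases hc : c = 0
  · left; simp [hc]
  rcases hp with hp | hp
  · left; simp [hp]
  · right
    intro z hz
    apply hp
    rw [map_mul, aeval_C] at hz
    rcases mul_eq_zero.mp hz with h | h
    · exfalso; apply hc; simpa using h
    · exact h

lemma IsMultiplierSeq.pow {γ : ℕ → ℝ} (h1 : IsMultiplierSeq γ) (n : ℕ) :
    IsMultiplierSeq (fun k => γ k ^ n) := by
  induction n with
  | zero => simpa using isMultiplierSeq_const 1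
  | succ n ih =>
    have := ih.mul h1
    simpa [pow_succ] using this

lemma IsMultiplierSeq.const_mul {γ : ℕ → ℝ} (h1 : IsMultiplierSeq γ) (c : ℝ) :
    IsMultiplierSeq (fun k => c * γ k) := (isMultiplierSeq_const c).mul h1

lemma isMultiplierSeq_geom (r : ℝ) : IsMultiplierSeq (fun k => r ^ k) := by
  intro p hp
  have e : applySeq (fun k => r ^ k) p = p.comp (C r * X) := by
    ext k
    rw [applySeq_coeff, comp_C_mul_X_coeff, mul_comm]
  rw [e]
  rcases hp with hp | hp
  · left; simp [hp]
  by_cases hr : r = 0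
  · subst hr
    simp only [map_zero, zero_mul, comp_zero]
    by_cases h0 : eval 0 p = 0
    · left; simp [h0]
    · right
      intro z hz
      exfalso
      apply h0
      simpa using hz
  · right
    intro z hz
    have h1 : aeval ((r : ℂ) * z) p = 0 := by
      rw [aeval_comp] at hz
      simpa using hz
    have := hp _ h1
    simpa [hr] using this

/-- Logarithmic derivative of a real-rooted polynomial at non-real points. -/
lemma logDeriv_formula {p : ℝ[X]} (hp0 : p ≠ 0) (hp : ∀ z : ℂ, aeval z p = 0 → z.im = 0) :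
    ∃ a : Fin p.natDegree → ℝ, ∀ z : ℂ, z.im ≠ 0 →
      aeval z p ≠ 0 ∧
        aeval z (derivative p) = aeval z p * ∑ i, 1 / (z - (a i : ℂ)) := by
  set q : ℂ[X] := p.map (algebraMap ℝ ℂ) with hq
  have hq0 : q ≠ 0 := (Polynomial.map_ne_zero_iff (algebraMap ℝ ℂ).injective).mpr hp0
  have hs : q.Splits := IsAlgClosed.splits q
  have hcard : q.roots.card = p.natDegree := by
    rw [← hs.natDegree_eq_card_roots, hq, natDegree_map]
  have hlen : q.roots.toList.length = p.natDegree := by
    rw [Multiset.length_toList, hcard]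
  refine ⟨fun i => (q.roots.toList[i.val]'(by rw [hlen]; exact i.2)).re, ?_⟩
  intro z hz
  have hev : ∀ r : ℝ[X], aeval z r = (r.map (algebraMap ℝ ℂ)).eval z := by
    intro r; rw [eval_map_algebraMap]
  have hne : aeval z p ≠ 0 := fun h => hz (hp z h)
  refine ⟨hne, ?_⟩
  have hne' : q.eval z ≠ 0 := by rw [← hev]; exact hne
  rw [hev, hev, ← derivative_map, hs.eval_derivative_eq_eval_mul_sum hne']
  congr 1
  rw [← Multiset.sum_map_toList, ← Fin.sum_univ_fun_getElem]
  refine Fintype.sum_equiv (finCongr hlen) _ _ ?_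
  intro i
  have hreal : (q.roots.toList[i.val]).im = 0 := by
    apply hp
    have : q.roots.toList[i.val] ∈ q.roots := by
      rw [← Multiset.mem_toList]; exact List.getElem_mem _
    have h2 := (mem_roots hq0).mp this
    rw [← eval_map_algebraMap]; exact h2
  have : ((q.roots.toList[i.val]).re : ℂ) = q.roots.toList[i.val] := by
    apply Complex.ext <;> simp [hreal]
  simp only [finCongr_apply, Fin.val_cast]
  rw [this]

/-- Real and imaginary parts of the logarithmic derivative. -/
lemma sum_parts {m : ℕ} (a : Fin m → ℝ) (z : ℂ) (hz : z.im ≠ 0) :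
    ∃ w : Fin m → ℝ, (∀ i, 0 < w i) ∧
      (∑ i, 1 / (z - (a i : ℂ))).re = z.re * (∑ i, w i) - ∑ i, a i * w i ∧
      (∑ i, 1 / (z - (a i : ℂ))).im = - z.im * (∑ i, w i) ∧
      (z.re ^ 2 + z.im ^ 2) * (∑ i, w i) - 2 * z.re * (∑ i, a i * w i) +
        (∑ i, a i ^ 2 * w i) = m := by
  have hpos : ∀ i, 0 < Complex.normSq (z - (a i : ℂ)) := by
    intro i
    rw [Complex.normSq_pos]
    intro h
    apply hz
    have := congrArg Complex.im h
    simpa using this
  refine ⟨fun i => (Complex.normSq (z - (a i : ℂ)))⁻¹, fun i => inv_pos.mpr (hpos i), ?_, ?_, ?_⟩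
  · rw [Complex.re_sum, Finset.mul_sum, ← Finset.sum_sub_distrib]
    refine Finset.sum_congr rfl fun i _ => ?_
    rw [one_div, Complex.inv_re]
    simp only [Complex.sub_re, Complex.ofReal_re]
    ring
  · rw [Complex.im_sum, Finset.mul_sum]
    refine Finset.sum_congr rfl fun i _ => ?_
    rw [one_div, Complex.inv_im]
    simp only [Complex.sub_im, Complex.ofReal_im]
    ring
  · rw [Finset.mul_sum, Finset.mul_sum, ← Finset.sum_sub_distrib, ← Finset.sum_add_distrib]
    have : ∀ i ∈ (Finset.univ : Finset (Fin m)),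
        (z.re ^ 2 + z.im ^ 2) * (Complex.normSq (z - (a i : ℂ)))⁻¹
          - 2 * z.re * (a i * (Complex.normSq (z - (a i : ℂ)))⁻¹)
          + a i ^ 2 * (Complex.normSq (z - (a i : ℂ)))⁻¹ = 1 := by
      intro i _
      have h1 : Complex.normSq (z - (a i : ℂ)) = z.re ^ 2 + z.im ^ 2 - 2 * z.re * a i + a i ^ 2 := by
        rw [Complex.normSq_apply]; simp; ring
      have h2 := (hpos i).ne'
      rw [← mul_inv_cancel₀ h2]
      nth_rewrite 4 [h1]
      ring
    rw [Finset.sum_congr rfl this]
    simp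

lemma isMultiplierSeq_linear {a b : ℝ} (ha : 0 ≤ a) (hb : 0 ≤ b) :
    IsMultiplierSeq (fun k => a + b * k) := by
  rcases hb.eq_or_lt with hb | hb
  · subst hb; simpa using isMultiplierSeq_const a
  intro p hp
  have e : applySeq (fun k => a + b * k) p = C a * p + C b * (X * derivative p) := by
    ext k
    rw [applySeq_coeff]
    rcases k with _ | k
    · simp
    · simp [coeff_X_mul, coeff_derivative]; ring
  rw [e]
  by_cases hp0 : p = 0
  · left; simp [hp0]
  have hp' : ∀ z : ℂ, aeval z p = 0 → z.im = 0 := hp.resolve_left hp0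
  obtain ⟨r, hr⟩ := logDeriv_formula hp0 hp'
  by_contra hcon
  unfold RealRooted at hcon
  push Not at hcon
  obtain ⟨hne, z, hz, hzim⟩ := hcon
  obtain ⟨h1, h2⟩ := hr z hzim
  obtain ⟨w, hw, hre, him, hB⟩ := sum_parts r z hzim
  set S := ∑ i, 1 / (z - (r i : ℂ)) with hS
  have h3 : (a : ℂ) + b * (z * S) = 0 := by
    have : aeval z p * ((a : ℂ) + b * (z * S)) = 0 := by
      rw [← hz]
      simp only [map_add, map_mul, aeval_C, aeval_X, h2]
      simp; ring
    exact (mul_eq_zero.mp this).resolve_left h1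
  have h4 := congrArg Complex.im h3
  have h5 := congrArg Complex.re h3
  simp only [Complex.add_im, Complex.ofReal_im, Complex.mul_im, Complex.ofReal_re, Complex.mul_re,
    Complex.add_re, Complex.zero_im, Complex.zero_re, hre, him] at h4 h5
  set W := ∑ i, w i with hW
  set A := ∑ i, r i * w i with hA
  have h6 : A = 0 := by
    have : b * z.im * A = 0 := by linarith
    rcases mul_eq_zero.mp this with h | h
    · rcases mul_eq_zero.mp h with h | h
      · exact absurd h hb.ne'
      · exact absurd h hzim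
    · exact h
  have h7 : a + b * ((z.re ^ 2 + z.im ^ 2) * W) = 0 := by
    rw [h6] at h5; nlinarith [h5]
  have hW0 : 0 ≤ W := Finset.sum_nonneg fun i _ => (hw i).le
  have hpos : 0 < z.re ^ 2 + z.im ^ 2 := by positivity
  have h8 : b * ((z.re ^ 2 + z.im ^ 2) * W) = 0 := by
    have : 0 ≤ b * ((z.re ^ 2 + z.im ^ 2) * W) := by positivity
    linarith
  have ha0 : a = 0 := by linarith
  have hW0' : W = 0 := by
    rcases mul_eq_zero.mp h8 with h | h
    · exact absurd h hb.ne'
    · exact (mul_eq_zero.mp h).resolve_left hpos.ne'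
  have hm : p.natDegree = 0 := by
    by_contra hm
    have : 0 < W := Finset.sum_pos (fun i _ => hw i) ⟨⟨0, Nat.pos_of_ne_zero hm⟩, Finset.mem_univ _⟩
    linarith
  apply hne
  rw [ha0, eq_C_of_natDegree_eq_zero hm]
  simp

/-- Closure of real-rootedness under (polar) derivatives. -/
lemma polar {J : ℝ[X]} (hJ : RealRooted J) (N : ℕ) (hN : J.natDegree ≤ N) (l : ℝ) :
    RealRooted ((1 + C l * X) * derivative J - C (N * l) * J) := by
  by_cases hp0 : J = 0
  · left; simp [hp0]
  have hp' : ∀ z : ℂ, aeval z J = 0 → z.im = 0 := hJ.resolve_left hp0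
  obtain ⟨r, hr⟩ := logDeriv_formula hp0 hp'
  by_contra hcon
  unfold RealRooted at hcon
  push Not at hcon
  obtain ⟨hne, z, hz, hzim⟩ := hcon
  -- evaluate at a non-real point
  have hev : ∀ z : ℂ, z.im ≠ 0 → aeval z ((1 + C l * X) * derivative J - C (N * l) * J) =
      aeval z J * ((1 + l * z) * (∑ i, 1 / (z - (r i : ℂ))) - N * l) := by
    intro z hz
    obtain ⟨h1, h2⟩ := hr z hz
    simp only [map_add, map_sub, map_mul, aeval_C, aeval_X, h2, map_one]
    simp; ring
  obtain ⟨h1, -⟩ := hr z hzim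
  obtain ⟨w, hw, hre, him, hB⟩ := sum_parts r z hzim
  rw [hev z hzim] at hz
  have h3 := (mul_eq_zero.mp hz).resolve_left h1
  set S := ∑ i, 1 / (z - (r i : ℂ)) with hS
  have h4 := congrArg Complex.im h3
  have h5 := congrArg Complex.re h3
  simp only [Complex.add_im, Complex.sub_im, Complex.sub_re, Complex.ofReal_im, Complex.mul_im,
    Complex.ofReal_re, Complex.mul_re, Complex.one_re, Complex.one_im,
    Complex.natCast_re, Complex.natCast_im,
    Complex.add_re, Complex.zero_im, Complex.zero_re, hre, him] at h4 h5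
  set W := ∑ i, w i with hW
  set A := ∑ i, r i * w i with hA
  set B := ∑ i, r i ^ 2 * w i with hB'
  have hNm : (J.natDegree : ℝ) ≤ N := by exact_mod_cast hN
  have e1 : W + l * A = 0 := by
    have : z.im * (W + l * A) = 0 := by linarith
    exact (mul_eq_zero.mp this).resolve_left hzim
  have e2 : - A - l * B = l * (N - J.natDegree) := by
    have hW' : W = - (l * A) := by linarith
    rw [← hB]
    rw [hW'] at h5 ⊢
    nlinarith [h5]
  have e3 : W + 2 * l * A + l ^ 2 * B + l ^ 2 * (N - J.natDegree) = 0 := by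
    have : l * (- A - l * B) = l * (l * (N - J.natDegree)) := by rw [e2]
    nlinarith [this, e1]
  have e4 : W + 2 * l * A + l ^ 2 * B = ∑ i, (1 + l * r i) ^ 2 * w i := by
    rw [hW, hA, hB', Finset.mul_sum, Finset.mul_sum, ← Finset.sum_add_distrib,
      ← Finset.sum_add_distrib]
    refine Finset.sum_congr rfl fun i _ => ?_
    ring
  have e5 : 0 ≤ ∑ i, (1 + l * r i) ^ 2 * w i :=
    Finset.sum_nonneg fun i _ => mul_nonneg (sq_nonneg _) (hw i).le
  have e6 : 0 ≤ l ^ 2 * (N - J.natDegree : ℝ) := mul_nonneg (sq_nonneg _) (by linarith)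
  have e7 : ∑ i, (1 + l * r i) ^ 2 * w i = 0 := by linarith
  have e8 : l ^ 2 * (N - J.natDegree : ℝ) = 0 := by linarith
  have e9 : ∀ i, 1 + l * r i = 0 := by
    intro i
    have := (Finset.sum_eq_zero_iff_of_nonneg
      (fun i _ => mul_nonneg (sq_nonneg _) (hw i).le)).mp e7 i (Finset.mem_univ i)
    rcases mul_eq_zero.mp this with h | h
    · exact pow_eq_zero_iff (two_ne_zero) |>.mp h
    · exact absurd h (hw i).ne'
  have e10 : l * (N - J.natDegree : ℝ) = 0 := by
    rcases mul_eq_zero.mp e8 with h | h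
    · rw [pow_eq_zero_iff (two_ne_zero)] at h; rw [h, zero_mul]
    · rw [h, mul_zero]
  -- hence the polynomial vanishes at all non-real points
  apply hne
  have hall : ∀ z : ℂ, z.im ≠ 0 →
      aeval z ((1 + C l * X) * derivative J - C (N * l) * J) = 0 := by
    intro z hz
    rw [hev z hz]
    have : (1 + (l : ℂ) * z) * (∑ i, 1 / (z - (r i : ℂ))) = J.natDegree * l := by
      rw [Finset.mul_sum]
      have : ∀ i ∈ (Finset.univ : Finset (Fin J.natDegree)),
          (1 + (l : ℂ) * z) * (1 / (z - (r i : ℂ))) = l := by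
        intro i _
        have hzi : z - (r i : ℂ) ≠ 0 := by
          intro h
          apply hz
          have := congrArg Complex.im h
          simpa using this
        have h9 : (1 : ℂ) + l * r i = 0 := by exact_mod_cast congrArg (fun x : ℝ => (x : ℂ)) (e9 i)
        rw [mul_one_div, div_eq_iff hzi]
        linear_combination h9
      rw [Finset.sum_congr rfl this]
      simp
    rw [this]
    have h10 : (l : ℂ) * (N - J.natDegree) = 0 := by
      exact_mod_cast congrArg (fun x : ℝ => (x : ℂ)) e10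
    have : (J.natDegree * l - N * l : ℂ) = 0 := by linear_combination -h10
    rw [this, mul_zero]
  set R := (1 + C l * X) * derivative J - C (N * l) * J with hR
  have hRmap : R.map (algebraMap ℝ ℂ) = 0 := by
    apply Polynomial.eq_zero_of_infinite_isRoot
    apply Set.infinite_of_injective_forall_mem (f := fun n : ℕ => ((n : ℂ) + 1) * Complex.I)
    · intro m n h
      have := congrArg Complex.im h
      simpa using this
    · intro n
      show IsRoot _ _
      rw [IsRoot, eval_map_algebraMap]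
      apply hall
      simp
      positivity
  exact (Polynomial.map_eq_zero_iff (algebraMap ℝ ℂ).injective).mp hRmap

/-- All Jensen polynomials are real-rooted. -/
def RR (γ : ℕ → ℝ) : Prop := ∀ n : ℕ, RealRooted (applySeq γ ((1 + X) ^ n))

lemma IsMultiplierSeq.rr {γ : ℕ → ℝ} (h : IsMultiplierSeq γ) : RR γ := by
  intro n
  apply h
  right
  intro z hz
  simp only [map_pow, map_add, map_one, aeval_X] at hz
  have h1 : 1 + z = 0 := by
    by_contra h1
    exact (pow_ne_zero n h1) hz
  have h2 := congrArg Complex.im h1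
  simpa using h2

lemma jensen_natDegree (γ : ℕ → ℝ) (n : ℕ) : (applySeq γ ((1 + X) ^ n)).natDegree ≤ n := by
  rw [natDegree_le_iff_coeff_eq_zero]
  intro k hk
  rw [applySeq_coeff, coeff_one_add_X_pow, Nat.choose_eq_zero_of_lt hk]
  simp

lemma realRooted_of_C_mul {c : ℝ} (hc : c ≠ 0) {p : ℝ[X]} (h : RealRooted (C c * p)) :
    RealRooted p := by
  rcases h with h | h
  · left
    rcases mul_eq_zero.mp h with h | h
    · exact absurd (C_eq_zero.mp h) hc
    · exact h
  · right
    intro z hz
    apply h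
    rw [map_mul, hz, mul_zero]

lemma RR.polar {γ : ℕ → ℝ} (h : RR γ) (l : ℝ) : RR (fun k => γ (k + 1) - l * γ k) := by
  intro n
  have h1 := Multiplier.polar (h (n + 1)) (n + 1) (jensen_natDegree γ (n + 1)) l
  have hn : ((n : ℝ) + 1) ≠ 0 := by positivity
  apply realRooted_of_C_mul hn
  convert h1 using 1
  ext k
  rw [coeff_C_mul, applySeq_coeff, coeff_one_add_X_pow, coeff_sub,
    show (1 + C l * X) * derivative (applySeq γ ((1 + X) ^ (n + 1))) =
      derivative (applySeq γ ((1 + X) ^ (n + 1))) +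
        C l * (X * derivative (applySeq γ ((1 + X) ^ (n + 1)))) by ring, coeff_add,
    coeff_derivative, coeff_C_mul, applySeq_coeff, coeff_one_add_X_pow,
    coeff_C_mul, applySeq_coeff, coeff_one_add_X_pow]
  have hX : (X * derivative (applySeq γ ((1 + X) ^ (n + 1)))).coeff k =
      k * (γ k * ((n + 1).choose k : ℝ)) := by
    rcases k with _ | k
    · simp
    · rw [coeff_X_mul, coeff_derivative, applySeq_coeff, coeff_one_add_X_pow]
      push_cast; ring
  rw [hX]
  have c1 : ((n : ℝ) + 1) * (n.choose k : ℝ) = ((n + 1).choose (k + 1) : ℝ) * (k + 1) := by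
    exact_mod_cast Nat.add_one_mul_choose_eq n k
  have c2 : ((n : ℝ) + 1) * (n.choose k : ℝ) = ((n + 1).choose k : ℝ) * (n + 1 - k) := by
    by_cases hk : k ≤ n + 1
    · have := Nat.choose_mul_succ_eq n k
      have h' : ((n.choose k * (n + 1) : ℕ) : ℝ) = (((n + 1).choose k * (n + 1 - k) : ℕ) : ℝ) := by
        rw [this]
      rw [Nat.cast_mul, Nat.cast_mul, Nat.cast_sub hk] at h'
      push_cast at h'
      linarith
    · rw [Nat.choose_eq_zero_of_lt (by omega : n < k),
        Nat.choose_eq_zero_of_lt (by omega : n + 1 < k)]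
      simp
  push_cast
  linear_combination (γ (k + 1)) * c1 - (l * γ k) * c2

lemma RR.shift {γ : ℕ → ℝ} (h : RR γ) : RR (fun k => γ (k + 1)) := by
  simpa using h.polar 0

lemma RR.turan0 {γ : ℕ → ℝ} (h : RR γ) : γ 0 * γ 2 ≤ γ 1 ^ 2 := by
  by_contra hcon
  push Not at hcon
  have h2 := h 2
  have e : applySeq γ ((1 + X) ^ 2) = C (γ 0) + C (2 * γ 1) * X + C (γ 2) * X ^ 2 := by
    ext k
    rw [applySeq_coeff, coeff_one_add_X_pow]
    rcases k with _ | _ | _ | k
    · simp
    · simp [coeff_X, coeff_C]; ring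
    · simp [coeff_X, coeff_C]
    · rw [Nat.choose_eq_zero_of_lt (by omega)]
      simp [coeff_X, coeff_C, coeff_X_pow]
  have hg2 : γ 2 ≠ 0 := by
    intro h0
    rw [h0, mul_zero] at hcon
    nlinarith [sq_nonneg (γ 1)]
  rw [e] at h2
  rcases h2 with h2 | h2
  · apply hg2
    have := congrArg (fun p => coeff p 2) h2
    simpa [coeff_X, coeff_C] using this
  · have hg2' : (γ 2 : ℂ) ≠ 0 := by exact_mod_cast hg2
    have hd : 0 < γ 0 * γ 2 - γ 1 ^ 2 := by linarith
    have hs : ((Real.sqrt (γ 0 * γ 2 - γ 1 ^ 2) : ℝ) : ℂ) ^ 2 = γ 0 * γ 2 - γ 1 ^ 2 := by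
      have := Real.sq_sqrt hd.le
      exact_mod_cast congrArg (fun x : ℝ => (x : ℂ)) this
    have hz := h2 ((-(γ 1 : ℂ) + Complex.I * (Real.sqrt (γ 0 * γ 2 - γ 1 ^ 2) : ℝ)) / γ 2) (by
      simp only [map_add, map_mul, map_pow, aeval_C, aeval_X]
      simp only [Complex.coe_algebraMap]
      field_simp
      push_cast
      linear_combination ((Real.sqrt (γ 0 * γ 2 - γ 1 ^ 2) : ℝ) : ℂ) ^ 2 * Complex.I_sq - hs)
    rw [Complex.div_ofReal_im] at hz
    have : Real.sqrt (γ 0 * γ 2 - γ 1 ^ 2) = 0 := by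
      have := (div_eq_zero_iff.mp hz).resolve_right hg2
      simpa using this
    have h3 := Real.sqrt_pos.mpr hd
    linarith

lemma RR.turan {γ : ℕ → ℝ} (h : RR γ) (k : ℕ) : γ k * γ (k + 2) ≤ γ (k + 1) ^ 2 := by
  induction k generalizing γ with
  | zero => exact h.turan0
  | succ k ih => exact ih h.shift

lemma IsMultiplierSeq.sign {γ : ℕ → ℝ} (h : IsMultiplierSeq γ) : 0 ≤ γ 0 * γ 2 := by
  by_contra hcon
  push Not at hcon
  have hp : RealRooted ((X : ℝ[X]) ^ 2 - 1) := by
    right
    intro z hz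
    simp only [map_sub, map_pow, aeval_X, map_one] at hz
    have : (z - 1) * (z + 1) = 0 := by linear_combination hz
    rcases mul_eq_zero.mp this with h | h
    · have := congrArg Complex.im h; simpa using this
    · have := congrArg Complex.im h; simpa using this
  have h2 := h _ hp
  have e : applySeq γ ((X : ℝ[X]) ^ 2 - 1) = C (γ 2) * X ^ 2 - C (γ 0) := by
    ext k
    rw [applySeq_coeff]
    rcases k with _ | _ | _ | k
    · simp
    · simp [coeff_X, coeff_C, coeff_one]
    · simp [coeff_X, coeff_C, coeff_one]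
    · simp [coeff_X, coeff_C, coeff_X_pow, coeff_one]
  have hg2 : γ 2 ≠ 0 := by
    intro h0
    rw [h0, mul_zero] at hcon
    exact lt_irrefl _ hcon
  rw [e] at h2
  rcases h2 with h2 | h2
  · apply hg2
    have := congrArg (fun p => coeff p 2) h2
    simpa [coeff_X, coeff_C] using this
  · have hg2' : (γ 2 : ℂ) ≠ 0 := by exact_mod_cast hg2
    have hd : 0 < -(γ 0 * γ 2) := by linarith
    have hs : ((Real.sqrt (-(γ 0 * γ 2)) : ℝ) : ℂ) ^ 2 = -(γ 0 * γ 2) := by
      have := Real.sq_sqrt hd.le
      exact_mod_cast congrArg (fun x : ℝ => (x : ℂ)) this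
    have hz := h2 ((Complex.I * (Real.sqrt (-(γ 0 * γ 2)) : ℝ)) / γ 2) (by
      simp only [map_sub, map_mul, map_pow, aeval_C, aeval_X]
      simp only [Complex.coe_algebraMap]
      field_simp
      linear_combination ((Real.sqrt (-(γ 0 * γ 2)) : ℝ) : ℂ) ^ 2 * Complex.I_sq - hs)
    rw [Complex.div_ofReal_im] at hz
    have : Real.sqrt (-(γ 0 * γ 2)) = 0 := by
      have := (div_eq_zero_iff.mp hz).resolve_right hg2
      simpa using this
    have h3 := Real.sqrt_pos.mpr hd
    linarith

end Pool.Agent.Helper90.Multiplier
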