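import Pool.Agent.Helper90.MultiplierMain

open Polynomial Filter Topology

namespace Pool.Agent.Helper90.Multiplier

set_option linter.unusedSimpArgs false

/-- `F` maps pairs of positive multiplier sequences to multiplier sequences. -/
def PosAdm (F : ℝ → ℝ → ℝ) : Prop :=
  ∀ α β : ℕ → ℝ, IsMultiplierSeq α → IsMultiplierSeq β → (∀ k, 0 < α k) → (∀ k, 0 < β k) →
    IsMultiplierSeq (fun k => F (α k) (β k))

lemma PosAdm.classify {F : ℝ → ℝ → ℝ} (h : PosAdm F) :
    ∃ (c : ℝ) (i j : ℕ), ∀ x y : ℝ, 0 < x → 0 < y → F x y = c * x ^ i * y ^ j := by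
  have hx : ∀ y, 0 < y → PosPres (fun x => F x y) := by
    intro y hy α hα hpos
    exact h α (fun _ => y) hα (isMultiplierSeq_const y) hpos (fun _ => hy)
  have hy : ∀ x, 0 < x → PosPres (fun y => F x y) := by
    intro x hx β hβ hpos
    exact h (fun _ => x) β (isMultiplierSeq_const x) hβ (fun _ => hx) hpos
  have hx' : ∀ y : ℝ, ∃ (c : ℝ) (i : ℕ), 0 < y → ∀ x : ℝ, 0 < x → F x y = c * x ^ i := by
    intro y
    by_cases h0 : 0 < y
    · obtain ⟨c, i, hci⟩ := (hx y h0).monomial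
      exact ⟨c, i, fun _ => hci⟩
    · exact ⟨0, 0, fun h => absurd h h0⟩
  have hy' : ∀ x : ℝ, ∃ (c : ℝ) (i : ℕ), 0 < x → ∀ y : ℝ, 0 < y → F x y = c * y ^ i := by
    intro x
    by_cases h0 : 0 < x
    · obtain ⟨c, i, hci⟩ := (hy x h0).monomial
      exact ⟨c, i, fun _ => hci⟩
    · exact ⟨0, 0, fun h => absurd h h0⟩
  choose a i hai using hx'
  choose d j hdj using hy'
  set c := F 1 1 with hc
  have ha : ∀ y, 0 < y → a y = c * y ^ (j 1) := by
    intro y h0
    have h1 := hai y h0 1 one_pos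
    have h2 := hdj 1 one_pos y h0
    have h3 := hdj 1 one_pos 1 one_pos
    simp only [one_pow, mul_one] at h1 h3
    rw [← h1, h2, hc, h3]
  have hd : ∀ x, 0 < x → d x = c * x ^ (i 1) := by
    intro x h0
    have h1 := hdj x h0 1 one_pos
    have h2 := hai 1 one_pos x h0
    have h3 := hai 1 one_pos 1 one_pos
    simp only [one_pow, mul_one] at h1 h3
    rw [← h1, h2, hc, h3]
  by_cases hc0 : c = 0
  · refine ⟨0, 0, 0, ?_⟩
    intro x y h1 h2
    rw [hai y h2 x h1, ha y h2, hc0]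
    simp
  refine ⟨c, i 1, j 1, ?_⟩
  have heq : ∀ x y, 0 < x → 0 < y → y ^ (j 1) * x ^ (i y) = x ^ (i 1) * y ^ (j x) := by
    intro x y h1 h2
    have e1 := hai y h2 x h1
    have e2 := hdj x h1 y h2
    rw [ha y h2] at e1
    rw [hd x h1] at e2
    have : c * (y ^ (j 1) * x ^ (i y)) = c * (x ^ (i 1) * y ^ (j x)) := by
      rw [← mul_assoc, ← mul_assoc, ← e1, ← e2]
    exact mul_left_cancel₀ hc0 this
  have hiy : ∀ y, 0 < y → y ≠ 1 → i y = i 1 := by
    intro y h2 hy1
    by_contra hne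
    have hlog : Real.log y ≠ 0 := Real.log_ne_zero_of_pos_of_ne_one h2 hy1
    have hint : ((i y : ℝ) - i 1) ≠ 0 := by
      rw [sub_ne_zero]; exact_mod_cast hne
    set x := Real.exp (Real.log y / (2 * ((i y : ℝ) - i 1))) with hx
    have h1 : 0 < x := Real.exp_pos _
    have hlx : Real.log x = Real.log y / (2 * ((i y : ℝ) - i 1)) := by rw [hx, Real.log_exp]
    have e := congrArg Real.log (heq x y h1 h2)
    rw [Real.log_mul (pow_pos h2 _).ne' (pow_pos h1 _).ne',
      Real.log_mul (pow_pos h1 _).ne' (pow_pos h2 _).ne',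
      Real.log_pow, Real.log_pow, Real.log_pow, Real.log_pow] at e
    have e2 : ((i y : ℝ) - i 1) * Real.log x = ((j x : ℝ) - j 1) * Real.log y := by
      linear_combination e
    have e3 : ((i y : ℝ) - i 1) * Real.log x = (1 / 2) * Real.log y := by
      rw [hlx]; field_simp
    rw [e3] at e2
    have e4 := mul_right_cancel₀ hlog e2
    have e5 : (1 : ℝ) = 2 * ((j x : ℝ) - j 1) := by linarith
    have e6 : (1 : ℤ) = 2 * ((j x : ℤ) - j 1) := by exact_mod_cast e5
    omega
  intro x y h1 h2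
  by_cases hy1 : y = 1
  · subst hy1
    rw [hai 1 one_pos x h1, ha 1 one_pos]
    simp
  · rw [hai y h2 x h1, ha y h2, hiy y h2 hy1]
    ring

/-! ### The value at zero -/

/-- `Φ` maps non-negative multiplier sequences to multiplier sequences. -/
def NonnegPres (Φ : ℝ → ℝ) : Prop :=
  ∀ α : ℕ → ℝ, IsMultiplierSeq α → (∀ k, 0 ≤ α k) → IsMultiplierSeq (fun k => Φ (α k))

lemma isMultiplierSeq_single (v : ℝ) : IsMultiplierSeq (fun k => if k = 1 then v else 0) := by
  intro p hp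
  have e : applySeq (fun k => if k = 1 then v else 0) p = C (v * p.coeff 1) * X := by
    ext k
    rw [applySeq_coeff]
    by_cases hk : k = 1
    · subst hk; simp
    · simp only [hk, if_false, zero_mul]
      rw [coeff_C_mul, coeff_X, if_neg (fun h => hk h.symm), mul_zero]
  rw [e]
  by_cases hc : v * p.coeff 1 = 0
  · left; simp [hc]
  · right
    intro z hz
    rw [map_mul, aeval_C, aeval_X] at hz
    rcases mul_eq_zero.mp hz with h | h
    · exfalso
      apply hc
      have : ((v * p.coeff 1 : ℝ) : ℂ) = 0 := by simpa using h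
      exact_mod_cast this
    · rw [h]; rfl

lemma NonnegPres.at_zero {Φ : ℝ → ℝ} (h : NonnegPres Φ) {c : ℝ} {i : ℕ}
    (hΦ : ∀ x, 0 < x → Φ x = c * x ^ i) : Φ 0 = c * 0 ^ i := by
  have hsq : ∀ v, 0 < v → Φ 0 ^ 2 ≤ (c * v ^ i) ^ 2 := by
    intro v hv
    have h1 := (h _ (isMultiplierSeq_single v)
      (fun k => by by_cases hk : k = 1 <;> simp [hk, hv.le])).rr.turan 0
    simp only [zero_add, if_true, one_ne_zero, zero_ne_one, if_false,
      show (2 : ℕ) ≠ 1 by norm_num] at h1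
    rw [hΦ v hv] at h1
    nlinarith [h1]
  rcases Nat.eq_zero_or_pos i with hi | hi
  · subst hi
    simp only [pow_zero, mul_one] at hsq hΦ ⊢
    have hlin : IsMultiplierSeq (fun k : ℕ => (0 : ℝ) + 1 * k) :=
      isMultiplierSeq_linear le_rfl zero_le_one
    have hγ := h _ hlin (fun k => by positivity)
    set t := Φ 0 with ht
    have hγk : ∀ k : ℕ, Φ (0 + 1 * ((k + 1 : ℕ) : ℝ)) = c := fun k => hΦ _ (by positivity)
    by_cases hc : c = 0
    · have := hsq 1 one_pos
      rw [hc] at this ⊢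
      nlinarith [this, sq_nonneg t]
    -- divide by `c`
    have hδ : IsMultiplierSeq (fun k : ℕ => c⁻¹ * Φ (0 + 1 * (k : ℝ))) := hγ.const_mul c⁻¹
    have hδ0 : c⁻¹ * Φ (0 + 1 * ((0 : ℕ) : ℝ)) = c⁻¹ * t := by simp [ht]
    have hδk : ∀ k : ℕ, c⁻¹ * Φ (0 + 1 * ((k + 1 : ℕ) : ℝ)) = 1 := by
      intro k; rw [hγk, inv_mul_cancel₀ hc]
    set δ : ℕ → ℝ := fun k : ℕ => c⁻¹ * Φ (0 + 1 * (k : ℝ)) with hδdef
    have d0 : δ 0 = c⁻¹ * t := hδ0
    have dk : ∀ k, δ (k + 1) = 1 := hδk
    have hs := hδ.sign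
    have ht1 := hδ.rr.turan 0
    have d1 : δ 1 = 1 := dk 0
    have d2 : δ 2 = 1 := dk 1
    simp only [zero_add] at ht1
    rw [d2, mul_one] at hs
    rw [d2, d1, mul_one, one_pow] at ht1
    have hmono : Monotone δ := by
      apply monotone_nat_of_le_succ
      intro k
      rcases k with _ | k
      · rw [zero_add, d1]; exact ht1
      · rw [dk, dk]
    have hnn : ∀ k, 0 ≤ δ k := by
      intro k
      rcases k with _ | k
      · exact hs
      · rw [dk]; exact zero_le_one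
    have hdm := hδ.rr.diff_monotone hnn hmono (zero_le_one)
    simp only [zero_add] at hdm
    rw [show δ (1 + 1) = 1 from d2, d1] at hdm
    have hδ01 : δ 0 = 1 := by linarith
    rw [d0] at hδ01
    field_simp at hδ01
    linarith
  · rw [zero_pow hi.ne', mul_zero]
    by_contra hne
    have hpos : 0 < Φ 0 ^ 2 := by positivity
    have hb : ∀ v, 0 < v → v ≤ 1 → Φ 0 ^ 2 ≤ c ^ 2 * v := by
      intro v hv hv1
      refine (hsq v hv).trans ?_
      rw [mul_pow, ← pow_mul]
      apply mul_le_mul_of_nonneg_left _ (sq_nonneg c)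
      calc v ^ (i * 2) ≤ v ^ 1 := pow_le_pow_of_le_one hv.le hv1 (by omega)
        _ = v := pow_one v
    have hden : 0 < c ^ 2 + Φ 0 ^ 2 := by positivity
    have := hb (Φ 0 ^ 2 / (c ^ 2 + Φ 0 ^ 2)) (by positivity) (by
      rw [div_le_one hden]; nlinarith [sq_nonneg c])
    rw [← mul_div_assoc, le_div_iff₀ hden] at this
    nlinarith

/-! ### Main theorems -/

lemma Admissible.posAdm {Ψ : ℝ × ℝ → ℝ} (h : Admissible Ψ) : PosAdm (fun x y => Ψ (x, y)) :=
  fun α β hα hβ h1 h2 => h α β hα hβ (fun k => (h1 k).le) (fun k => (h2 k).le)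

/-- Classification, usual convention. -/
theorem admissible_iff (Ψ : ℝ × ℝ → ℝ) :
    Admissible Ψ ↔ ∃ (c : ℝ) (i j : ℕ), ∀ x y : ℝ, 0 ≤ x → 0 ≤ y → Ψ (x, y) = c * x ^ i * y ^ j := by
  constructor
  · intro h
    obtain ⟨c, i, j, hF⟩ := h.posAdm.classify
    refine ⟨c, i, j, ?_⟩
    have hx : ∀ y, 0 ≤ y → NonnegPres (fun x => Ψ (x, y)) := by
      intro y hy α hα hpos
      exact h α (fun _ => y) hα (isMultiplierSeq_const y) hpos (fun _ => hy)
    have hy : ∀ x, 0 ≤ x → NonnegPres (fun y => Ψ (x, y)) := by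
      intro x hx β hβ hpos
      exact h (fun _ => x) β (isMultiplierSeq_const x) hβ (fun _ => hx) hpos
    -- `y > 0`
    have h1 : ∀ x y, 0 ≤ x → 0 < y → Ψ (x, y) = c * x ^ i * y ^ j := by
      intro x y h0 h1
      rcases h0.eq_or_lt with h0 | h0
      · subst h0
        have := (hx y h1.le).at_zero (c := c * y ^ j) (i := i)
          (fun x hx => by rw [hF x y hx h1]; ring)
        rw [this]; ring
      · exact hF x y h0 h1
    intro x y h0 h2
    rcases h2.eq_or_lt with h2 | h2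
    · subst h2
      exact (hy x h0).at_zero (c := c * x ^ i) (i := j) (fun y hy => h1 x y h0 hy)
    · exact h1 x y h0 h2
  · rintro ⟨c, i, j, h⟩ α β hα hβ h1 h2
    have := ((hα.pow i).const_mul c).mul (hβ.pow j)
    have e : (fun k => Ψ (α k, β k)) = fun k => c * α k ^ i * β k ^ j := by
      funext k; exact h _ _ (h1 k) (h2 k)
    rw [e]; exact this

lemma isStrictMultiplierSeq_iff (γ : ℕ → ℝ) :
    IsStrictMultiplierSeq γ ↔ IsMultiplierSeq γ ∧ ∀ k, γ k ≠ 0 := by
  have hns : ¬ StrictRealRooted 0 := by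
    intro h
    have := h Complex.I (by simp)
    simp at this
  constructor
  · intro h
    refine ⟨?_, ?_⟩
    · intro p hp
      rcases hp with hp | hp
      · left; rw [hp, applySeq_zero]
      · right; exact h p hp
    · intro k hk
      have hX : StrictRealRooted ((X : ℝ[X]) ^ k) := by
        intro z hz
        rw [map_pow, aeval_X] at hz
        have hz0 : z = 0 := by
          by_contra hz0
          exact pow_ne_zero k hz0 hz
        rw [hz0]; rfl
      have h1 := h _ hX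
      have : applySeq γ ((X : ℝ[X]) ^ k) = 0 := by
        ext n
        rw [applySeq_coeff, coeff_X_pow]
        by_cases hn : n = k
        · subst hn; simp [hk]
        · simp [hn]
      rw [this] at h1
      exact hns h1
  · rintro ⟨h1, h2⟩ p hp
    rcases h1 p (Or.inr hp) with h | h
    · exfalso
      have hp0 : p = 0 := by
        ext k
        have := congrArg (fun q => coeff q k) h
        simp only [applySeq_coeff, coeff_zero] at this
        rw [coeff_zero]
        exact (mul_eq_zero.mp this).resolve_left (h2 k)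
      rw [hp0] at hp
      exact hns hp
    · exact h

/-- Classification, strict convention. -/
theorem strictAdmissible_iff (Ψ : ℝ × ℝ → ℝ) :
    StrictAdmissible Ψ ↔ ∃ (c : ℝ) (i j : ℕ), c ≠ 0 ∧
      ∀ x y : ℝ, 0 < x → 0 < y → Ψ (x, y) = c * x ^ i * y ^ j := by
  constructor
  · intro h
    have hpos : PosAdm (fun x y => Ψ (x, y)) := by
      intro α β hα hβ h1 h2
      exact ((isStrictMultiplierSeq_iff _).mp (h α β
        ((isStrictMultiplierSeq_iff _).mpr ⟨hα, fun k => (h1 k).ne'⟩)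
        ((isStrictMultiplierSeq_iff _).mpr ⟨hβ, fun k => (h2 k).ne'⟩)
        (fun k => (h1 k).le) (fun k => (h2 k).le))).1
    obtain ⟨c, i, j, hF⟩ := hpos.classify
    refine ⟨c, i, j, ?_, hF⟩
    have h1 : IsStrictMultiplierSeq (fun _ => (1 : ℝ)) :=
      (isStrictMultiplierSeq_iff _).mpr ⟨isMultiplierSeq_const 1, fun _ => one_ne_zero⟩
    have h2 := ((isStrictMultiplierSeq_iff _).mp (h _ _ h1 h1 (fun _ => zero_le_one)
      (fun _ => zero_le_one))).2 0
    have h3 := hF 1 1 one_pos one_pos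
    simp only [one_pow, mul_one] at h3
    rw [← h3]; exact h2
  · rintro ⟨c, i, j, hc, h⟩ α β hα hβ h1 h2
    obtain ⟨hα1, hα2⟩ := (isStrictMultiplierSeq_iff _).mp hα
    obtain ⟨hβ1, hβ2⟩ := (isStrictMultiplierSeq_iff _).mp hβ
    have p1 : ∀ k, 0 < α k := fun k => lt_of_le_of_ne (h1 k) (Ne.symm (hα2 k))
    have p2 : ∀ k, 0 < β k := fun k => lt_of_le_of_ne (h2 k) (Ne.symm (hβ2 k))
    have := ((hα1.pow i).const_mul c).mul (hβ1.pow j)
    have e : (fun k => Ψ (α k, β k)) = fun k => c * α k ^ i * β k ^ j := by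
      funext k; exact h _ _ (p1 k) (p2 k)
    rw [isStrictMultiplierSeq_iff, e]
    refine ⟨this, fun k => ?_⟩
    show Ψ (α k, β k) ≠ 0
    rw [h _ _ (p1 k) (p2 k)]
    exact mul_ne_zero (mul_ne_zero hc (pow_ne_zero _ (p1 k).ne')) (pow_ne_zero _ (p2 k).ne')

/-- Both classifications. -/
theorem main :
    (∀ Ψ : ℝ × ℝ → ℝ, Admissible Ψ ↔
      ∃ (c : ℝ) (i j : ℕ), ∀ x y : ℝ, 0 ≤ x → 0 ≤ y → Ψ (x, y) = c * x ^ i * y ^ j) ∧
    (∀ Ψ : ℝ × ℝ → ℝ, StrictAdmissible Ψ ↔
      ∃ (c : ℝ) (i j : ℕ), c ≠ 0 ∧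
        ∀ x y : ℝ, 0 < x → 0 < y → Ψ (x, y) = c * x ^ i * y ^ j) :=
  ⟨admissible_iff, strictAdmissible_iff⟩

end Pool.Agent.Helper90.Multiplier
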