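import Pool.Agent.Helper90.VirtualStringLinks

set_option maxRecDepth 100000

namespace Pool.Agent.Helper90.VirtualStringLinks

def d0 : Diagram 2 := ⟨![[⟨0, true, true⟩, ⟨1, false, true⟩, ⟨2, false, true⟩, ⟨3, true, true⟩, ⟨6, false, false⟩, ⟨7, true, false⟩, ⟨8, true, false⟩, ⟨9, false, false⟩], [⟨0, false, true⟩, ⟨1, true, true⟩, ⟨2, true, true⟩, ⟨3, false, true⟩, ⟨6, true, false⟩, ⟨7, false, false⟩, ⟨8, false, false⟩, ⟨9, true, false⟩]], by decide⟩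
def d1 : Diagram 2 := ⟨![[⟨0, true, true⟩, ⟨4, true, true⟩, ⟨5, true, false⟩, ⟨1, false, true⟩, ⟨4, false, true⟩, ⟨5, false, false⟩, ⟨2, false, true⟩, ⟨3, true, true⟩, ⟨6, false, false⟩, ⟨7, true, false⟩, ⟨8, true, false⟩, ⟨9, false, false⟩], [⟨0, false, true⟩, ⟨1, true, true⟩, ⟨2, true, true⟩, ⟨3, false, true⟩, ⟨6, true, false⟩, ⟨7, false, false⟩, ⟨8, false, false⟩, ⟨9, true, false⟩]], by decide⟩
def d2 : Diagram 2 := ⟨![[⟨0, true, true⟩, ⟨4, true, true⟩, ⟨1, false, true⟩, ⟨5, true, false⟩, ⟨4, false, true⟩, ⟨2, false, true⟩, ⟨5, false, false⟩, ⟨3, true, true⟩, ⟨6, false, false⟩, ⟨7, true, false⟩, ⟨8, true, false⟩, ⟨9, false, false⟩], [⟨0, false, true⟩, ⟨2, true, true⟩, ⟨1, true, true⟩, ⟨3, false, true⟩, ⟨6, true, false⟩, ⟨7, false, false⟩, ⟨8, false, false⟩, ⟨9, true, false⟩]], by decide⟩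
def d3 : Diagram 2 := ⟨![[⟨0, true, true⟩, ⟨4, true, true⟩, ⟨1, false, true⟩, ⟨5, false, true⟩, ⟨4, false, true⟩, ⟨2, false, true⟩, ⟨5, true, true⟩, ⟨3, true, true⟩, ⟨6, false, false⟩, ⟨7, true, false⟩, ⟨8, true, false⟩, ⟨9, false, false⟩], [⟨0, false, true⟩, ⟨2, true, true⟩, ⟨1, true, true⟩, ⟨3, false, true⟩, ⟨6, true, false⟩, ⟨7, false, false⟩, ⟨8, false, false⟩, ⟨9, true, false⟩]], by decide⟩
def d4 : Diagram 2 := ⟨![[⟨0, true, true⟩, ⟨4, true, true⟩, ⟨5, false, true⟩, ⟨1, false, true⟩, ⟨4, false, true⟩, ⟨2, false, true⟩, ⟨3, true, true⟩, ⟨5, true, true⟩, ⟨6, false, false⟩, ⟨7, true, false⟩, ⟨8, true, false⟩, ⟨9, false, false⟩], [⟨0, false, true⟩, ⟨2, true, true⟩, ⟨3, false, true⟩, ⟨1, true, true⟩, ⟨6, true, false⟩, ⟨7, false, false⟩, ⟨8, false, false⟩, ⟨9, true, false⟩]], by decide⟩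
def d5 : Diagram 2 := ⟨![[⟨4, true, true⟩, ⟨0, true, true⟩, ⟨5, false, true⟩, ⟨1, false, true⟩, ⟨2, false, true⟩, ⟨4, false, true⟩, ⟨3, true, true⟩, ⟨5, true, true⟩, ⟨6, false, false⟩, ⟨7, true, false⟩, ⟨8, true, false⟩, ⟨9, false, false⟩], [⟨2, true, true⟩, ⟨0, false, true⟩, ⟨3, false, true⟩, ⟨1, true, true⟩, ⟨6, true, false⟩, ⟨7, false, false⟩, ⟨8, false, false⟩, ⟨9, true, false⟩]], by decide⟩
def d6 : Diagram 2 := ⟨![[⟨0, true, true⟩, ⟨4, true, true⟩, ⟨5, false, true⟩, ⟨1, false, true⟩, ⟨2, false, true⟩, ⟨3, true, true⟩, ⟨4, false, true⟩, ⟨5, true, true⟩, ⟨6, false, false⟩, ⟨7, true, false⟩, ⟨8, true, false⟩, ⟨9, false, false⟩], [⟨2, true, true⟩, ⟨3, false, true⟩, ⟨0, false, true⟩, ⟨1, true, true⟩, ⟨6, true, false⟩, ⟨7, false, false⟩, ⟨8, false, false⟩, ⟨9, true, false⟩]], by decide⟩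
def d7 : Diagram 2 := ⟨![[⟨0, true, true⟩, ⟨4, true, true⟩, ⟨5, true, false⟩, ⟨1, false, true⟩, ⟨2, false, true⟩, ⟨3, true, true⟩, ⟨4, false, true⟩, ⟨5, false, false⟩, ⟨6, false, false⟩, ⟨7, true, false⟩, ⟨8, true, false⟩, ⟨9, false, false⟩], [⟨2, true, true⟩, ⟨3, false, true⟩, ⟨0, false, true⟩, ⟨1, true, true⟩, ⟨6, true, false⟩, ⟨7, false, false⟩, ⟨8, false, false⟩, ⟨9, true, false⟩]], by decide⟩
def d8 : Diagram 2 := ⟨![[⟨0, true, true⟩, ⟨1, false, true⟩, ⟨2, false, true⟩, ⟨3, true, true⟩, ⟨6, false, false⟩, ⟨7, true, false⟩, ⟨8, true, false⟩, ⟨9, false, false⟩], [⟨2, true, true⟩, ⟨3, false, true⟩, ⟨0, false, true⟩, ⟨1, true, true⟩, ⟨6, true, false⟩, ⟨7, false, false⟩, ⟨8, false, false⟩, ⟨9, true, false⟩]], by decide⟩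
def d9 : Diagram 2 := ⟨![[⟨0, true, true⟩, ⟨1, false, true⟩, ⟨2, false, true⟩, ⟨3, true, true⟩, ⟨6, false, false⟩, ⟨7, true, false⟩, ⟨8, true, false⟩, ⟨9, false, false⟩], [⟨2, true, true⟩, ⟨4, true, true⟩, ⟨5, true, false⟩, ⟨3, false, true⟩, ⟨0, false, true⟩, ⟨1, true, true⟩, ⟨4, false, true⟩, ⟨5, false, false⟩, ⟨6, true, false⟩, ⟨7, false, false⟩, ⟨8, false, false⟩, ⟨9, true, false⟩]], by decide⟩
def d10 : Diagram 2 := ⟨![[⟨0, true, true⟩, ⟨1, false, true⟩, ⟨2, false, true⟩, ⟨3, true, true⟩, ⟨6, false, false⟩, ⟨7, true, false⟩, ⟨8, true, false⟩, ⟨9, false, false⟩], [⟨2, true, true⟩, ⟨4, true, true⟩, ⟨5, false, true⟩, ⟨3, false, true⟩, ⟨0, false, true⟩, ⟨1, true, true⟩, ⟨4, false, true⟩, ⟨5, true, true⟩, ⟨6, true, false⟩, ⟨7, false, false⟩, ⟨8, false, false⟩, ⟨9, true, false⟩]], by decide⟩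
def d11 : Diagram 2 := ⟨![[⟨0, true, true⟩, ⟨2, false, true⟩, ⟨1, false, true⟩, ⟨3, true, true⟩, ⟨6, false, false⟩, ⟨7, true, false⟩, ⟨8, true, false⟩, ⟨9, false, false⟩], [⟨4, true, true⟩, ⟨2, true, true⟩, ⟨5, false, true⟩, ⟨3, false, true⟩, ⟨0, false, true⟩, ⟨4, false, true⟩, ⟨1, true, true⟩, ⟨5, true, true⟩, ⟨6, true, false⟩, ⟨7, false, false⟩, ⟨8, false, false⟩, ⟨9, true, false⟩]], by decide⟩
def d12 : Diagram 2 := ⟨![[⟨2, false, true⟩, ⟨0, true, true⟩, ⟨1, false, true⟩, ⟨3, true, true⟩, ⟨6, false, false⟩, ⟨7, true, false⟩, ⟨8, true, false⟩, ⟨9, false, false⟩], [⟨2, true, true⟩, ⟨4, true, true⟩, ⟨5, false, true⟩, ⟨3, false, true⟩, ⟨4, false, true⟩, ⟨0, false, true⟩, ⟨1, true, true⟩, ⟨5, true, true⟩, ⟨6, true, false⟩, ⟨7, false, false⟩, ⟨8, false, false⟩, ⟨9, true, false⟩]], by decide⟩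
def d13 : Diagram 2 := ⟨![[⟨2, false, true⟩, ⟨0, true, true⟩, ⟨3, true, true⟩, ⟨1, false, true⟩, ⟨6, false, false⟩, ⟨7, true, false⟩, ⟨8, true, false⟩, ⟨9, false, false⟩], [⟨2, true, true⟩, ⟨4, true, true⟩, ⟨3, false, true⟩, ⟨5, false, true⟩, ⟨4, false, true⟩, ⟨0, false, true⟩, ⟨5, true, true⟩, ⟨1, true, true⟩, ⟨6, true, false⟩, ⟨7, false, false⟩, ⟨8, false, false⟩, ⟨9, true, false⟩]], by decide⟩
def d14 : Diagram 2 := ⟨![[⟨2, false, true⟩, ⟨0, true, true⟩, ⟨3, true, true⟩, ⟨1, false, true⟩, ⟨6, false, false⟩, ⟨7, true, false⟩, ⟨8, true, false⟩, ⟨9, false, false⟩], [⟨2, true, true⟩, ⟨4, true, true⟩, ⟨3, false, true⟩, ⟨5, true, false⟩, ⟨4, false, true⟩, ⟨0, false, true⟩, ⟨5, false, false⟩, ⟨1, true, true⟩, ⟨6, true, false⟩, ⟨7, false, false⟩, ⟨8, false, false⟩, ⟨9, true, false⟩]], by decide⟩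
def d15 : Diagram 2 := ⟨![[⟨2, false, true⟩, ⟨3, true, true⟩, ⟨0, true, true⟩, ⟨1, false, true⟩, ⟨6, false, false⟩, ⟨7, true, false⟩, ⟨8, true, false⟩, ⟨9, false, false⟩], [⟨2, true, true⟩, ⟨4, true, true⟩, ⟨5, true, false⟩, ⟨3, false, true⟩, ⟨4, false, true⟩, ⟨5, false, false⟩, ⟨0, false, true⟩, ⟨1, true, true⟩, ⟨6, true, false⟩, ⟨7, false, false⟩, ⟨8, false, false⟩, ⟨9, true, false⟩]], by decide⟩
def d16 : Diagram 2 := ⟨![[⟨2, false, true⟩, ⟨3, true, true⟩, ⟨0, true, true⟩, ⟨1, false, true⟩, ⟨6, false, false⟩, ⟨7, true, false⟩, ⟨8, true, false⟩, ⟨9, false, false⟩], [⟨2, true, true⟩, ⟨3, false, true⟩, ⟨0, false, true⟩, ⟨1, true, true⟩, ⟨6, true, false⟩, ⟨7, false, false⟩, ⟨8, false, false⟩, ⟨9, true, false⟩]], by decide⟩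
def d17 : Diagram 2 := ⟨![[⟨2, false, true⟩, ⟨3, true, true⟩, ⟨0, true, true⟩, ⟨7, true, false⟩, ⟨8, true, false⟩, ⟨9, false, false⟩], [⟨2, true, true⟩, ⟨3, false, true⟩, ⟨0, false, true⟩, ⟨7, false, false⟩, ⟨8, false, false⟩, ⟨9, true, false⟩]], by decide⟩
def d18 : Diagram 2 := ⟨![[⟨2, false, true⟩, ⟨3, true, true⟩, ⟨8, true, false⟩, ⟨9, false, false⟩], [⟨2, true, true⟩, ⟨3, false, true⟩, ⟨8, false, false⟩, ⟨9, true, false⟩]], by decide⟩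
def d19 : Diagram 2 := ⟨![[⟨2, false, true⟩, ⟨9, false, false⟩], [⟨2, true, true⟩, ⟨9, true, false⟩]], by decide⟩
def d20 : Diagram 2 := ⟨![[], []], by decide⟩

theorem e0 : (Quot.mk _ d0 : VSLsc 2) = Quot.mk _ d1 :=
  Eq.symm (Quot.sound (Or.inl (.R2 4 5 true true ⟨![[.inl ⟨0, true, true⟩, .inr 0, .inl ⟨1, false, true⟩, .inr 1, .inl ⟨2, false, true⟩, .inl ⟨3, true, true⟩, .inl ⟨6, false, false⟩, .inl ⟨7, true, false⟩, .inl ⟨8, true, false⟩, .inl ⟨9, false, false⟩], [.inl ⟨0, false, true⟩, .inl ⟨1, true, true⟩, .inl ⟨2, true, true⟩, .inl ⟨3, false, true⟩, .inl ⟨6, true, false⟩, .inl ⟨7, false, false⟩, .inl ⟨8, false, false⟩, .inl ⟨9, true, false⟩]], by decide, by decide, by decide⟩)))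
theorem e1 : (Quot.mk _ d1 : VSLsc 2) = Quot.mk _ d2 :=
  Quot.sound (Or.inl (.R3 1 2 5 true true false true false false (by decide) (by decide) ⟨![[.inl ⟨0, true, true⟩, .inl ⟨4, true, true⟩, .inr 1, .inl ⟨4, false, true⟩, .inr 2, .inl ⟨3, true, true⟩, .inl ⟨6, false, false⟩, .inl ⟨7, true, false⟩, .inl ⟨8, true, false⟩, .inl ⟨9, false, false⟩], [.inl ⟨0, false, true⟩, .inr 0, .inl ⟨3, false, true⟩, .inl ⟨6, true, false⟩, .inl ⟨7, false, false⟩, .inl ⟨8, false, false⟩, .inl ⟨9, true, false⟩]], by decide, by decide, by decide⟩))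
theorem e2 : (Quot.mk _ d2 : VSLsc 2) = Quot.mk _ d3 :=
  Quot.sound (Or.inr ⟨5, 0, ⟨⟨5, true, false⟩, by decide, by decide, by decide⟩, by decide⟩)
theorem e3 : (Quot.mk _ d3 : VSLsc 2) = Quot.mk _ d4 :=
  Quot.sound (Or.inl (.R3 3 5 1 true true true false false false (by decide) (by decide) ⟨![[.inl ⟨0, true, true⟩, .inl ⟨4, true, true⟩, .inr 2, .inl ⟨4, false, true⟩, .inl ⟨2, false, true⟩, .inr 0, .inl ⟨6, false, false⟩, .inl ⟨7, true, false⟩, .inl ⟨8, true, false⟩, .inl ⟨9, false, false⟩], [.inl ⟨0, false, true⟩, .inl ⟨2, true, true⟩, .inr 1, .inl ⟨6, true, false⟩, .inl ⟨7, false, false⟩, .inl ⟨8, false, false⟩, .inl ⟨9, true, false⟩]], by decide, by decide, by decide⟩))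
theorem e4 : (Quot.mk _ d4 : VSLsc 2) = Quot.mk _ d5 :=
  Quot.sound (Or.inl (.R3 0 4 2 true true true true true true (by decide) (by decide) ⟨![[.inr 0, .inl ⟨5, false, true⟩, .inl ⟨1, false, true⟩, .inr 2, .inl ⟨3, true, true⟩, .inl ⟨5, true, true⟩, .inl ⟨6, false, false⟩, .inl ⟨7, true, false⟩, .inl ⟨8, true, false⟩, .inl ⟨9, false, false⟩], [.inr 1, .inl ⟨3, false, true⟩, .inl ⟨1, true, true⟩, .inl ⟨6, true, false⟩, .inl ⟨7, false, false⟩, .inl ⟨8, false, false⟩, .inl ⟨9, true, false⟩]], by decide, by decide, by decide⟩))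
theorem e5 : (Quot.mk _ d5 : VSLsc 2) = Quot.mk _ d6 :=
  Quot.sound (Or.inl (.R3 4 0 3 true true true true true true (by decide) (by decide) ⟨![[.inr 0, .inl ⟨5, false, true⟩, .inl ⟨1, false, true⟩, .inl ⟨2, false, true⟩, .inr 1, .inl ⟨5, true, true⟩, .inl ⟨6, false, false⟩, .inl ⟨7, true, false⟩, .inl ⟨8, true, false⟩, .inl ⟨9, false, false⟩], [.inl ⟨2, true, true⟩, .inr 2, .inl ⟨1, true, true⟩, .inl ⟨6, true, false⟩, .inl ⟨7, false, false⟩, .inl ⟨8, false, false⟩, .inl ⟨9, true, false⟩]], by decide, by decide, by decide⟩))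
theorem e6 : (Quot.mk _ d6 : VSLsc 2) = Quot.mk _ d7 :=
  Quot.sound (Or.inr ⟨5, 0, ⟨⟨5, false, true⟩, by decide, by decide, by decide⟩, by decide⟩)
theorem e7 : (Quot.mk _ d7 : VSLsc 2) = Quot.mk _ d8 :=
  Quot.sound (Or.inl (.R2 4 5 true true ⟨![[.inl ⟨0, true, true⟩, .inr 0, .inl ⟨1, false, true⟩, .inl ⟨2, false, true⟩, .inl ⟨3, true, true⟩, .inr 1, .inl ⟨6, false, false⟩, .inl ⟨7, true, false⟩, .inl ⟨8, true, false⟩, .inl ⟨9, false, false⟩], [.inl ⟨2, true, true⟩, .inl ⟨3, false, true⟩, .inl ⟨0, false, true⟩, .inl ⟨1, true, true⟩, .inl ⟨6, true, false⟩, .inl ⟨7, false, false⟩, .inl ⟨8, false, false⟩, .inl ⟨9, true, false⟩]], by decide, by decide, by decide⟩))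
theorem e8 : (Quot.mk _ d8 : VSLsc 2) = Quot.mk _ d9 :=
  Eq.symm (Quot.sound (Or.inl (.R2 4 5 true true ⟨![[.inl ⟨0, true, true⟩, .inl ⟨1, false, true⟩, .inl ⟨2, false, true⟩, .inl ⟨3, true, true⟩, .inl ⟨6, false, false⟩, .inl ⟨7, true, false⟩, .inl ⟨8, true, false⟩, .inl ⟨9, false, false⟩], [.inl ⟨2, true, true⟩, .inr 0, .inl ⟨3, false, true⟩, .inl ⟨0, false, true⟩, .inl ⟨1, true, true⟩, .inr 1, .inl ⟨6, true, false⟩, .inl ⟨7, false, false⟩, .inl ⟨8, false, false⟩, .inl ⟨9, true, false⟩]], by decide, by decide, by decide⟩)))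
theorem e9 : (Quot.mk _ d9 : VSLsc 2) = Quot.mk _ d10 :=
  Quot.sound (Or.inr ⟨5, 1, ⟨⟨5, true, false⟩, by decide, by decide, by decide⟩, by decide⟩)
theorem e10 : (Quot.mk _ d10 : VSLsc 2) = Quot.mk _ d11 :=
  Quot.sound (Or.inl (.R3 4 2 1 true true true false false false (by decide) (by decide) ⟨![[.inl ⟨0, true, true⟩, .inr 2, .inl ⟨3, true, true⟩, .inl ⟨6, false, false⟩, .inl ⟨7, true, false⟩, .inl ⟨8, true, false⟩, .inl ⟨9, false, false⟩], [.inr 0, .inl ⟨5, false, true⟩, .inl ⟨3, false, true⟩, .inl ⟨0, false, true⟩, .inr 1, .inl ⟨5, true, true⟩, .inl ⟨6, true, false⟩, .inl ⟨7, false, false⟩, .inl ⟨8, false, false⟩, .inl ⟨9, true, false⟩]], by decide, by decide, by decide⟩))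
theorem e11 : (Quot.mk _ d11 : VSLsc 2) = Quot.mk _ d12 :=
  Quot.sound (Or.inl (.R3 2 4 0 true true true false false false (by decide) (by decide) ⟨![[.inr 1, .inl ⟨1, false, true⟩, .inl ⟨3, true, true⟩, .inl ⟨6, false, false⟩, .inl ⟨7, true, false⟩, .inl ⟨8, true, false⟩, .inl ⟨9, false, false⟩], [.inr 0, .inl ⟨5, false, true⟩, .inl ⟨3, false, true⟩, .inr 2, .inl ⟨1, true, true⟩, .inl ⟨5, true, true⟩, .inl ⟨6, true, false⟩, .inl ⟨7, false, false⟩, .inl ⟨8, false, false⟩, .inl ⟨9, true, false⟩]], by decide, by decide, by decide⟩))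
theorem e12 : (Quot.mk _ d12 : VSLsc 2) = Quot.mk _ d13 :=
  Quot.sound (Or.inl (.R3 1 5 3 true true true true true true (by decide) (by decide) ⟨![[.inl ⟨2, false, true⟩, .inl ⟨0, true, true⟩, .inr 1, .inl ⟨6, false, false⟩, .inl ⟨7, true, false⟩, .inl ⟨8, true, false⟩, .inl ⟨9, false, false⟩], [.inl ⟨2, true, true⟩, .inl ⟨4, true, true⟩, .inr 2, .inl ⟨4, false, true⟩, .inl ⟨0, false, true⟩, .inr 0, .inl ⟨6, true, false⟩, .inl ⟨7, false, false⟩, .inl ⟨8, false, false⟩, .inl ⟨9, true, false⟩]], by decide, by decide, by decide⟩))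
theorem e13 : (Quot.mk _ d13 : VSLsc 2) = Quot.mk _ d14 :=
  Quot.sound (Or.inr ⟨5, 1, ⟨⟨5, false, true⟩, by decide, by decide, by decide⟩, by decide⟩)
theorem e14 : (Quot.mk _ d14 : VSLsc 2) = Quot.mk _ d15 :=
  Quot.sound (Or.inl (.R3 3 0 5 true true false false true true (by decide) (by decide) ⟨![[.inl ⟨2, false, true⟩, .inr 0, .inl ⟨1, false, true⟩, .inl ⟨6, false, false⟩, .inl ⟨7, true, false⟩, .inl ⟨8, true, false⟩, .inl ⟨9, false, false⟩], [.inl ⟨2, true, true⟩, .inl ⟨4, true, true⟩, .inr 1, .inl ⟨4, false, true⟩, .inr 2, .inl ⟨1, true, true⟩, .inl ⟨6, true, false⟩, .inl ⟨7, false, false⟩, .inl ⟨8, false, false⟩, .inl ⟨9, true, false⟩]], by decide, by decide, by decide⟩))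
theorem e15 : (Quot.mk _ d15 : VSLsc 2) = Quot.mk _ d16 :=
  Quot.sound (Or.inl (.R2 4 5 true true ⟨![[.inl ⟨2, false, true⟩, .inl ⟨3, true, true⟩, .inl ⟨0, true, true⟩, .inl ⟨1, false, true⟩, .inl ⟨6, false, false⟩, .inl ⟨7, true, false⟩, .inl ⟨8, true, false⟩, .inl ⟨9, false, false⟩], [.inl ⟨2, true, true⟩, .inr 0, .inl ⟨3, false, true⟩, .inr 1, .inl ⟨0, false, true⟩, .inl ⟨1, true, true⟩, .inl ⟨6, true, false⟩, .inl ⟨7, false, false⟩, .inl ⟨8, false, false⟩, .inl ⟨9, true, false⟩]], by decide, by decide, by decide⟩))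
theorem e16 : (Quot.mk _ d16 : VSLsc 2) = Quot.mk _ d17 :=
  Quot.sound (Or.inl (.R2 1 6 true true ⟨![[.inl ⟨2, false, true⟩, .inl ⟨3, true, true⟩, .inl ⟨0, true, true⟩, .inr 1, .inl ⟨7, true, false⟩, .inl ⟨8, true, false⟩, .inl ⟨9, false, false⟩], [.inl ⟨2, true, true⟩, .inl ⟨3, false, true⟩, .inl ⟨0, false, true⟩, .inr 0, .inl ⟨7, false, false⟩, .inl ⟨8, false, false⟩, .inl ⟨9, true, false⟩]], by decide, by decide, by decide⟩))
theorem e17 : (Quot.mk _ d17 : VSLsc 2) = Quot.mk _ d18 :=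
  Quot.sound (Or.inl (.R2 0 7 true true ⟨![[.inl ⟨2, false, true⟩, .inl ⟨3, true, true⟩, .inr 0, .inl ⟨8, true, false⟩, .inl ⟨9, false, false⟩], [.inl ⟨2, true, true⟩, .inl ⟨3, false, true⟩, .inr 1, .inl ⟨8, false, false⟩, .inl ⟨9, true, false⟩]], by decide, by decide, by decide⟩))
theorem e18 : (Quot.mk _ d18 : VSLsc 2) = Quot.mk _ d19 :=
  Quot.sound (Or.inl (.R2 3 8 true true ⟨![[.inl ⟨2, false, true⟩, .inr 0, .inl ⟨9, false, false⟩], [.inl ⟨2, true, true⟩, .inr 1, .inl ⟨9, true, false⟩]], by decide, by decide, by decide⟩))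
theorem e19 : (Quot.mk _ d19 : VSLsc 2) = Quot.mk _ d20 :=
  Quot.sound (Or.inl (.R2 2 9 true true ⟨![[.inr 1], [.inr 0]], by decide, by decide, by decide⟩))

theorem chain : (Quot.mk _ d0 : VSLsc 2) = Quot.mk _ d20 :=
  e0.trans (e1.trans (e2.trans (e3.trans (e4.trans (e5.trans (e6.trans (e7.trans (e8.trans (e9.trans (e10.trans (e11.trans (e12.trans (e13.trans (e14.trans (e15.trans (e16.trans (e17.trans (e18.trans (e19)))))))))))))))))))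

end Pool.Agent.Helper90.VirtualStringLinks
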