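import Pool.Agent.Helper90.VSLChain

namespace Pool.Agent.Helper90.VirtualStringLinks

/-- Image of the first generator. -/
def gA : Equiv.Perm (Fin 4) := Equiv.swap 0 1

/-- Image of the second generator. -/
def gB : Equiv.Perm (Fin 4) := Equiv.swap 1 2 * Equiv.swap 2 3

/-- Permutation read off from one passage of the first strand. -/
def letter (p : Passage) : Equiv.Perm (Fin 4) :=
  if p.isOver then (if p.isPositive then gA else gA⁻¹)
  else (if p.isPositive then gB else gB⁻¹)

/-- Product of the letters of a word. -/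
def wordVal (l : List Passage) : Equiv.Perm (Fin 4) := (l.map letter).prod

theorem wordVal_append (l m : List Passage) : wordVal (l ++ m) = wordVal l * wordVal m := by
  simp [wordVal]

theorem letter_rename (f : ℕ → ℕ) (p : Passage) : letter (p.rename f) = letter p := rfl

/-- The invariant: the value of the first strand. -/
def inv (D : Diagram 2) : Equiv.Perm (Fin 4) := wordVal (D.1 0)

theorem wordVal_flatMap {k : ℕ} (l : List (Passage ⊕ Fin k)) (w w' : Fin k → List Passage)
    (h : ∀ j, Sum.inr j ∈ l → wordVal (w j) = wordVal (w' j)) :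
    wordVal (l.flatMap (Sum.elim (fun p => [p]) w)) =
      wordVal (l.flatMap (Sum.elim (fun p => [p]) w')) := by
  induction l with
  | nil => rfl
  | cons a l ih =>
    rw [List.flatMap_cons, List.flatMap_cons, wordVal_append, wordVal_append,
      ih fun j hj => h j (List.mem_cons_of_mem _ hj)]
    congr 1
    cases a with
    | inl p => rfl
    | inr j => exact h j List.mem_cons_self

theorem replace_inv {k : ℕ} {w w' : Fin k → List Passage} {D D' : Diagram 2}
    (hr : Replace w w' D D') (h : ∀ j, wordVal (w j) = wordVal (w' j)) : inv D = inv D' := by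
  obtain ⟨C, -, h1, h2⟩ := hr
  unfold inv
  rw [h1, h2]
  exact wordVal_flatMap _ _ _ fun j _ => h j

theorem monotone_ne {n : ℕ} {D : Diagram n} (h : D.IsMonotone) (i : Fin n) :
    (D.1 i).Pairwise fun p q => p.crossing ≠ q.crossing := by
  obtain ⟨ht, h⟩ := h
  exact (h i).imp fun {p q} hpq e => by rw [e] at hpq; exact lt_irrefl _ hpq

theorem context_mem {n k : ℕ} {C : Context n k} (hC : C.IsProper) (j : Fin k) :
    ∃ i, Sum.inr j ∈ C i := by
  have h : (Sum.inr j : Passage ⊕ Fin k) ∈ (List.ofFn C).flatten := by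
    have h1 : 0 < ((List.ofFn C).flatten.countP fun a => a = Sum.inr j) := by
      rw [hC j]; exact one_pos
    rw [List.countP_pos_iff] at h1
    obtain ⟨a, ha, hj⟩ := h1
    rw [decide_eq_true_eq] at hj
    exact hj ▸ ha
  rw [List.mem_flatten] at h
  obtain ⟨l, hl, hj⟩ := h
  rw [List.mem_ofFn] at hl
  obtain ⟨i, rfl⟩ := hl
  exact ⟨i, hj⟩

theorem fill_pairwise {n k : ℕ} {C : Context n k} {w : Fin k → List Passage} {D : Diagram n}
    (hD : D.IsMonotone) (h : D.1 = C.fill w) (i : Fin n) :
    (∀ a ∈ C i, (Sum.elim (fun p => [p]) w a).Pairwise fun p q => p.crossing ≠ q.crossing) ∧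
    (C i).Pairwise fun a b => ∀ p ∈ Sum.elim (fun p => [p]) w a,
      ∀ q ∈ Sum.elim (fun p => [p]) w b, p.crossing ≠ q.crossing := by
  have := monotone_ne hD i
  rw [h, Context.fill, List.pairwise_flatMap] at this
  exact this

theorem not_hole_self {n k : ℕ} {w w' : Fin k → List Passage} {D D' : Diagram n}
    (hD : D.IsMonotone) (hr : Replace w w' D D') (j : Fin k)
    (h : ¬ (w j).Pairwise fun p q => p.crossing ≠ q.crossing) : False := by
  obtain ⟨C, hC, h1, -⟩ := hr
  obtain ⟨i, hi⟩ := context_mem hC j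
  exact h ((fill_pairwise hD h1 i).1 _ hi)

theorem holes_ne {n k : ℕ} {C : Context n k} {w : Fin k → List Passage} {D : Diagram n}
    (hD : D.IsMonotone) (h1 : D.1 = C.fill w) {j j' : Fin k} (hj : j ≠ j')
    (hs : ∃ p ∈ w j, ∃ q ∈ w j', p.crossing = q.crossing) (i : Fin n)
    (hi : Sum.inr j ∈ C i) (hi' : Sum.inr j' ∈ C i) : False := by
  obtain ⟨p, hp, q, hq, hpq⟩ := hs
  have h2 := (fill_pairwise hD h1 i).2
  have hsymm : Std.Symm fun (a b : Passage ⊕ Fin k) =>
      ∀ p ∈ Sum.elim (fun p => [p]) w a, ∀ q ∈ Sum.elim (fun p => [p]) w b,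
        p.crossing ≠ q.crossing :=
    ⟨fun a b hab p hp q hq e => hab q hq p hp e.symm⟩
  exact h2.forall hi hi' (by simpa using hj) p hp q hq hpq

theorem inOrder_mem {α : Type*} (o : Bool) (l : List α) (a : α) :
    a ∈ inOrder o l ↔ a ∈ l := by
  unfold inOrder; split <;> simp

theorem reidemeister_inv {D D' : Diagram 2} (hD : D.IsMonotone) (hr : Reidemeister D D') :
    inv D = inv D' := by
  cases hr with
  | rename f h =>
    unfold inv wordVal
    rw [h]
    simp [List.map_map, Function.comp_def, letter_rename]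
  | R1 a o s h =>
    exact (not_hole_self hD h 0 (by simp)).elim
  | R2 a b s o h =>
    refine replace_inv h fun j => ?_
    fin_cases j
    · cases s <;> simp [wordVal, letter]
    · cases s <;> cases o <;> simp [wordVal, letter, inOrder]
  | R3 a b c sa sb sc ox oy oz hyz hxz h =>
    exfalso
    obtain ⟨C, hC, h1, -⟩ := h
    obtain ⟨i0, h0⟩ := context_mem hC 0
    obtain ⟨i1, h1'⟩ := context_mem hC 1
    obtain ⟨i2, h2⟩ := context_mem hC 2
    have key : i0 = i1 ∨ i0 = i2 ∨ i1 = i2 := by omega
    rcases key with rfl | rfl | rfl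
    · refine holes_ne hD h1 (j := 0) (j' := 1) (by decide) ⟨⟨a, true, sa⟩, ?_, ⟨a, false, sa⟩, ?_, rfl⟩
        _ h0 h1'
      · simp [inOrder_mem]
      · simp [inOrder_mem]
    · refine holes_ne hD h1 (j := 0) (j' := 2) (by decide) ⟨⟨b, true, sb⟩, ?_, ⟨b, false, sb⟩, ?_, rfl⟩
        _ h0 h2
      · simp [inOrder_mem]
      · simp [inOrder_mem]
    · refine holes_ne hD h1 (j := 1) (j' := 2) (by decide) ⟨⟨c, true, sc⟩, ?_, ⟨c, false, sc⟩, ?_, rfl⟩
        _ h1' h2
      · simp [inOrder_mem]
      · simp [inOrder_mem]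

theorem oc_inv {D D' : Diagram 2} (hr : OvercrossingsCommute D D') : inv D = inv D' := by
  obtain ⟨a, b, s, t, h⟩ := hr
  refine replace_inv h fun j => ?_
  fin_cases j
  cases s <;> cases t <;> simp [wordVal, letter]

/-- The invariant on the virtual pure braid group on two strands. -/
def invV : VP 2 → Equiv.Perm (Fin 4) :=
  Quot.lift (fun D => inv D.1) fun D _ h => reidemeister_inv D.2 h

/-- The invariant on the welded pure braid group on two strands. -/
def invW : WP 2 → Equiv.Perm (Fin 4) :=
  Quot.lift (fun D => inv D.1) fun D _ h =>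
    h.elim (fun h => reidemeister_inv D.2 h) fun h => oc_inv h

/-- The monotone diagram of the commutator of `ab` and `ba`. -/
def beta : MonotoneDiagram 2 := ⟨d0, fun k => (k : ℝ), by
  intro i
  fin_cases i <;> norm_num [d0]⟩

theorem inv_beta : inv beta.1 ≠ 1 := by decide

theorem inv_trivial : inv (trivialDiagram 2).1 = 1 := by simp [inv, trivialDiagram, wordVal]

theorem invV_mk (D : MonotoneDiagram 2) : invV (Quot.mk _ D) = inv D.1 := rfl

theorem invW_mk (D : MonotoneDiagram 2) : invW (Quot.mk _ D) = inv D.1 := rfl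

theorem betaV_ne_one : (Quot.mk _ beta : VP 2) ≠ VP.one 2 := by
  intro h
  have h1 := congrArg invV h
  rw [VP.one, invV_mk, invV_mk, inv_trivial] at h1
  exact inv_beta h1

theorem betaW_ne_one : (Quot.mk _ beta : WP 2) ≠ WP.one 2 := by
  intro h
  have h1 := congrArg invW h
  rw [WP.one, invW_mk, invW_mk, inv_trivial] at h1
  exact inv_beta h1

theorem last_eq : (d20 : Diagram 2) = (trivialDiagram 2).1 := by
  apply Subtype.ext
  funext i
  fin_cases i <;> rfl

theorem piV_beta : piV 2 (Quot.mk _ beta) = piV 2 (VP.one 2) := by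
  have h1 : piV 2 (Quot.mk _ beta) = Quot.mk _ d0 := rfl
  have h2 : piV 2 (VP.one 2) = Quot.mk _ (trivialDiagram 2).1 := rfl
  rw [h1, h2, ← last_eq]
  exact chain

end Pool.Agent.Helper90.VirtualStringLinks
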