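import Mathlib

/-!
Virtual and welded string links as signed Gauss codes.

A virtual string link diagram on `n` strands, taken up to planar isotopy and the moves that
involve virtual crossings (vR1, vR2, vR3 and the mixed move mR3), is the same thing as its signed
Gauss code (equivalently, its Gauss diagram): for every strand, the list of the classical crossings
that are met along the strand, from bottom to top, each with the information whether the strand
passes over or under and with the sign of the crossing. Codes which differ only by the names of
the crossings describe the same diagram.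
-/

namespace Pool.Agent.Helper90.VirtualStringLinks

/-- One passage of a strand through a classical crossing: the name of the crossing, whether the
strand is the overpass there, and whether the crossing is positive. -/
structure Passage where
  crossing : ℕ
  isOver : Bool
  isPositive : Bool
  deriving DecidableEq

/-- The other passage through the same crossing. -/
def Passage.partner (p : Passage) : Passage := ⟨p.crossing, !p.isOver, p.isPositive⟩

/-- Rename the crossing of a passage. -/
def Passage.rename (f : ℕ → ℕ) (p : Passage) : Passage := ⟨f p.crossing, p.isOver, p.isPositive⟩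

/-- The effect on a passage of changing the crossing `k`: over and under are exchanged and the
sign is reversed. -/
def Passage.change (k : ℕ) (p : Passage) : Passage :=
  if p.crossing = k then ⟨p.crossing, !p.isOver, !p.isPositive⟩ else p

/-- A family of `n` words, one for each strand. -/
abbrev Code (n : ℕ) := Fin n → List Passage

/-- All passages of a code, on all strands. -/
def Code.passages {n : ℕ} (c : Code n) : List Passage := (List.ofFn c).flatten

/-- A code is a signed Gauss code if every crossing which occurs is passed exactly twice, once over
and once under, with the same sign. -/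
def Code.IsGauss {n : ℕ} (c : Code n) : Prop :=
  (c.passages.map fun p => (p.crossing, p.isOver)).Nodup ∧ ∀ p ∈ c.passages, p.partner ∈ c.passages

instance {n : ℕ} (c : Code n) : Decidable c.IsGauss := by unfold Code.IsGauss; infer_instance

/-- A diagram of a virtual string link on `n` strands: a signed Gauss code. -/
def Diagram (n : ℕ) := {c : Code n // c.IsGauss}

/-- A code with `k` holes: the rest of a diagram outside the `k` arcs on which a move is
performed. -/
abbrev Context (n k : ℕ) := Fin n → List (Passage ⊕ Fin k)

/-- Fill the holes of a context with the given words. -/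
def Context.fill {n k : ℕ} (C : Context n k) (w : Fin k → List Passage) : Code n :=
  fun i => (C i).flatMap (Sum.elim (fun p => [p]) w)

/-- Every hole occurs exactly once. -/
def Context.IsProper {n k : ℕ} (C : Context n k) : Prop :=
  ∀ j : Fin k, ((List.ofFn C).flatten.countP fun a => a = Sum.inr j) = 1

instance {n k : ℕ} (C : Context n k) : Decidable C.IsProper := by
  unfold Context.IsProper; infer_instance

/-- The diagrams `D` and `D'` agree outside `k` arcs, on which `D` reads `w` and `D'`
reads `w'`. -/
def Replace {n k : ℕ} (w w' : Fin k → List Passage) (D D' : Diagram n) : Prop :=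
  ∃ C : Context n k, C.IsProper ∧ D.1 = C.fill w ∧ D'.1 = C.fill w'

/-- The list, or the reversed list. -/
def inOrder {α : Type*} (o : Bool) (l : List α) : List α := if o then l else l.reverse

/-- Classical Reidemeister moves on signed Gauss codes (with all orientations and signs), together
with the renaming of crossings.

In the move `R3` there are three arcs: a top arc `x`, a middle arc `y` and a bottom arc `z`; the
crossing `a` is `x` over `y`, the crossing `b` is `x` over `z`, and the crossing `c` is `y`
over `z`, with signs `sa`, `sb`, `sc`. The Booleans `ox`, `oy`, `oz` record the order in which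
the arcs meet their two crossings before the move, and the move reverses the order on each of the
three arcs. Three directed lines in general position in the plane realize exactly the orders and
signs with `oy = oz ↔ sa = sb` and `ox = oz ↔ sa = sc`. -/
inductive Reidemeister {n : ℕ} : Diagram n → Diagram n → Prop
  | rename (f : Equiv.Perm ℕ) {D D' : Diagram n}
      (h : D'.1 = fun i => (D.1 i).map (Passage.rename f)) : Reidemeister D D'
  | R1 (a : ℕ) (o s : Bool) {D D' : Diagram n}
      (h : Replace ![[⟨a, o, s⟩, ⟨a, !o, s⟩]] ![[]] D D') : Reidemeister D D'
  | R2 (a b : ℕ) (s o : Bool) {D D' : Diagram n}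
      (h : Replace ![[⟨a, true, s⟩, ⟨b, true, !s⟩], inOrder o [⟨a, false, s⟩, ⟨b, false, !s⟩]]
        ![[], []] D D') : Reidemeister D D'
  | R3 (a b c : ℕ) (sa sb sc ox oy oz : Bool) {D D' : Diagram n}
      (hyz : (oy = oz ↔ sa = sb)) (hxz : (ox = oz ↔ sa = sc))
      (h : Replace
        ![inOrder ox [⟨a, true, sa⟩, ⟨b, true, sb⟩],
          inOrder oy [⟨a, false, sa⟩, ⟨c, true, sc⟩],
          inOrder oz [⟨b, false, sb⟩, ⟨c, false, sc⟩]]
        ![inOrder (!ox) [⟨a, true, sa⟩, ⟨b, true, sb⟩],
          inOrder (!oy) [⟨a, false, sa⟩, ⟨c, true, sc⟩],
          inOrder (!oz) [⟨b, false, sb⟩, ⟨c, false, sc⟩]] D D') : Reidemeister D D'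

/-- The overcrossings-commute move: two adjacent overpasses are exchanged. -/
def OvercrossingsCommute {n : ℕ} (D D' : Diagram n) : Prop :=
  ∃ (a b : ℕ) (s t : Bool),
    Replace ![[⟨a, true, s⟩, ⟨b, true, t⟩]] ![[⟨b, true, t⟩, ⟨a, true, s⟩]] D D'

/-- A self-crossing change: both passages through the crossing `k` lie on the same strand, and this
crossing is changed. -/
def SelfCrossingChange {n : ℕ} (D D' : Diagram n) : Prop :=
  ∃ (k : ℕ) (i : Fin n), (∃ p ∈ D.1 i, p.crossing = k ∧ p.partner ∈ D.1 i) ∧
    D'.1 = fun j => (D.1 j).map (Passage.change k)

/-- The monoid of virtual string links up to self-crossing changes, as a set. -/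
def VSLsc (n : ℕ) := Quot fun D D' : Diagram n => Reidemeister D D' ∨ SelfCrossingChange D D'

/-- The monoid of welded string links up to self-crossing changes, as a set. -/
def WSLsc (n : ℕ) := Quot fun D D' : Diagram n =>
  Reidemeister D D' ∨ OvercrossingsCommute D D' ∨ SelfCrossingChange D D'

/-- A diagram is monotone if the crossings can be given heights which strictly increase along
every strand. -/
def Diagram.IsMonotone {n : ℕ} (D : Diagram n) : Prop :=
  ∃ height : ℕ → ℝ, ∀ i, (D.1 i).Pairwise fun p q => height p.crossing < height q.crossing

/-- Monotone diagrams. -/
def MonotoneDiagram (n : ℕ) := {D : Diagram n // D.IsMonotone}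

/-- The virtual pure braid group, as a set: monotone diagrams modulo moves carried out through
monotone diagrams. -/
def VP (n : ℕ) := Quot fun D D' : MonotoneDiagram n => Reidemeister D.1 D'.1

/-- The welded pure braid group, as a set: monotone diagrams modulo moves carried out through
monotone diagrams, with the overcrossings-commute move also allowed. -/
def WP (n : ℕ) := Quot fun D D' : MonotoneDiagram n =>
  Reidemeister D.1 D'.1 ∨ OvercrossingsCommute D.1 D'.1

/-- The natural map from the virtual pure braid group to virtual string links up to self-crossing
changes; its range is `vP_n^sc`. -/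
def piV (n : ℕ) : VP n → VSLsc n :=
  Quot.lift (fun D => Quot.mk _ D.1) fun _ _ h => Quot.sound (Or.inl h)

/-- The natural map from the welded pure braid group to welded string links up to self-crossing
changes; its range is `wP_n^sc`. -/
def piW (n : ℕ) : WP n → WSLsc n :=
  Quot.lift (fun D => Quot.mk _ D.1) fun _ _ h =>
    Quot.sound (h.elim Or.inl fun h => Or.inr (Or.inl h))

/-- The diagram without crossings. -/
def trivialDiagram (n : ℕ) : MonotoneDiagram n :=
  ⟨⟨fun _ => [], by simp [Code.IsGauss, Code.passages]⟩, fun _ => 0, by simp⟩

/-- The trivial virtual pure braid. -/
def VP.one (n : ℕ) : VP n := Quot.mk _ (trivialDiagram n)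

/-- The trivial welded pure braid. -/
def WP.one (n : ℕ) : WP n := Quot.mk _ (trivialDiagram n)

end Pool.Agent.Helper90.VirtualStringLinks
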